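import Pool.Agent.SimplC.Three
import Mathlib.LinearAlgebra.BilinearForm.Properties

set_option autoImplicit false

/-! # Coordinates for a non-degenerate conic (CON_Proof.md, 0)

Let `H₁, H₂, H₃ ∈ T` be three different planes, `vᵢ ∈ Hᵢ`, `vᵢ ≠ 0`, `B vᵢ w = 0` for `w ∈ Hᵢ`. As `B` is non-degenerate,
`B vᵢ ≠ 0`, so its kernel has dimension two and is `Hᵢ`: `w ∈ Hᵢ ↔ B vᵢ w = 0`; `B vᵢ vᵢ = 0`. `bᵢⱼ = B vᵢ vⱼ ≠ 0` for `i ≠ j`:
otherwise `vⱼ ∈ Hᵢ`; `vᵢ`, `vⱼ` are linearly independent (proportional vectors would give `Hᵢ = Hⱼ`) and both in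
`Hᵢ` and in `Hⱼ` (`B vⱼ vᵢ = 0` by symmetry), so `Hᵢ = Hⱼ`. `v₁, v₂, v₃` are a basis of `ℝ³` (if `a v₁ + b v₂ + c v₃ = 0` then
`b b₁₂ + c b₁₃ = 0`, `a b₁₂ + c b₂₃ = 0`, `a b₁₃ + b b₂₃ = 0`, so `2 b₁₂ b₁₃ b₂₃ a = 0` etc.).
Let `w₁, w₂, w₃` be three different points of the circle, `nᵢⱼ = bf (nul wᵢ) (nul wⱼ) < 0` (`bf_nul_ne`); `nul wᵢ` are a basis
of `ℂ × ℝ` (the same computation). Put `βᵢⱼ = bᵢⱼ / nᵢⱼ ≠ 0`, `κ = 1` or `-1` the sign of `β₁₂ β₁₃ β₂₃`,
`λ₁ = √(β₁₂ β₁₃ / (κ β₂₃)) > 0` (the argument is positive: `β₁₂ β₁₃ β₂₃ κ / β₂₃² > 0`), `λ₂ = β₁₂ / (κ λ₁)`, `λ₃ = β₁₃ / (κ λ₁)`; then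
`κ λᵢ λⱼ = βᵢⱼ` for `i ≠ j`. Let `e` be the linear isomorphism with `e vᵢ = λᵢ • nul wᵢ` (`Basis.equiv`-like, or
`Basis.constr`; `λᵢ ≠ 0`). Then `B x y = κ bf (e x) (e y)` for all `x, y` (bilinear, true on the basis).
For `H ∈ T` with `v`: `B v v = 0` so `e v` is a null vector, `± e v = c • nul w`, `c > 0` (`exists_nul`; the height is not `0`,
since `e v ≠ 0` is null), and `x ∈ H ↔ B v x = 0 ↔ bf (e x) (nul w) = 0 ↔ e x ∈ tang 1 w` (`mem_tang_iff`): `H.map e = tang 1 w`. -/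

namespace Pool.Agent.SimplC

open Complex Module ComplexConjugate Pool.Agent.Simpl

/-- A plane is the kernel of its polar functional. -/
private theorem mem_plane {B : LinearMap.BilinForm ℝ (Fin 3 → ℝ)} (hB' : B.Nondegenerate)
    {H : Submodule ℝ (Fin 3 → ℝ)} (h2 : finrank ℝ H = 2) {v : Fin 3 → ℝ} (hv : v ≠ 0)
    (h : ∀ w ∈ H, B v w = 0) (x : Fin 3 → ℝ) : x ∈ H ↔ B v x = 0 := by
  have h1 : B v ≠ 0 := by
    intro h1
    exact hv (hB'.1 v fun w => by rw [h1]; rfl)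
  have h3 : finrank ℝ (LinearMap.ker (B v)) + 1 = finrank ℝ (Fin 3 → ℝ) :=
    Module.Dual.finrank_ker_add_one_of_ne_zero h1
  rw [finrank_fin_fun] at h3
  have h4 : H = LinearMap.ker (B v) :=
    Submodule.eq_of_le_of_finrank_eq (fun w hw => LinearMap.mem_ker.2 (h w hw)) (by omega)
  constructor
  · exact h x
  · intro h5
    rw [h4]
    exact LinearMap.mem_ker.2 h5

/-- The polar points of two different planes are not conjugate. -/
private theorem polar_ne {B : LinearMap.BilinForm ℝ (Fin 3 → ℝ)} (hB : B.IsSymm)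
    (hB' : B.Nondegenerate) {H H' : Submodule ℝ (Fin 3 → ℝ)} (hH : H ≠ H')
    (h2 : finrank ℝ H = 2) (h2' : finrank ℝ H' = 2) {v v' : Fin 3 → ℝ} (hv : v ≠ 0)
    (hv' : v' ≠ 0) (hvH : v ∈ H) (hvH' : v' ∈ H') (h : ∀ w ∈ H, B v w = 0)
    (h' : ∀ w ∈ H', B v' w = 0) : B v v' ≠ 0 := by
  intro h0
  have h1 : v' ∈ H := (mem_plane hB' h2 hv h v').2 h0
  have h3 : v ∈ H' := (mem_plane hB' h2' hv' h' v).2 (by rw [hB.eq, h0])
  have h4 : finrank ℝ (H ⊓ H' : Submodule ℝ (Fin 3 → ℝ)) ≤ 1 := by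
    by_contra h5
    have h6 : H ⊓ H' = H := Submodule.eq_of_le_of_finrank_le inf_le_left (by omega)
    have h7 : H ⊓ H' = H' := Submodule.eq_of_le_of_finrank_le inf_le_right (by omega)
    exact hH (h6.symm.trans h7)
  obtain ⟨u, hu⟩ := finrank_le_one_iff.1 h4
  obtain ⟨a, ha⟩ := hu ⟨v, hvH, h3⟩
  obtain ⟨b, hb⟩ := hu ⟨v', h1, hvH'⟩
  have ha1 : a • (u : Fin 3 → ℝ) = v := congrArg Subtype.val ha
  have hb1 : b • (u : Fin 3 → ℝ) = v' := congrArg Subtype.val hb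
  have ha0 : a ≠ 0 := by
    rintro rfl
    exact hv (by rw [← ha1, zero_smul])
  have hb0 : b ≠ 0 := by
    rintro rfl
    exact hv' (by rw [← hb1, zero_smul])
  refine hH (Submodule.ext fun x => ?_)
  rw [mem_plane hB' h2 hv h x, mem_plane hB' h2' hv' h' x, ← ha1, ← hb1, map_smul, map_smul,
    LinearMap.smul_apply, LinearMap.smul_apply, smul_eq_mul, smul_eq_mul,
    mul_eq_zero_iff_left ha0, mul_eq_zero_iff_left hb0]

/-- Three isotropic pairwise non-conjugate vectors are linearly independent. -/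
private theorem indep_iso {V : Type*} [AddCommGroup V] [Module ℝ V] (B : LinearMap.BilinForm ℝ V)
    (hB : ∀ x y, B x y = B y x) {x y z : V} (hx : B x x = 0) (hy : B y y = 0) (hz : B z z = 0)
    (hxy : B x y ≠ 0) (hxz : B x z ≠ 0) (hyz : B y z ≠ 0) :
    LinearIndependent ℝ ![x, y, z] := by
  rw [Fintype.linearIndependent_iff]
  intro g hg
  rw [Fin.sum_univ_three] at hg
  change g 0 • x + g 1 • y + g 2 • z = 0 at hg
  have e1 := congrArg (B x) hg
  have e2 := congrArg (B y) hg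
  have e3 := congrArg (B z) hg
  rw [map_add, map_add, map_smul, map_smul, map_smul, map_zero, smul_eq_mul, smul_eq_mul,
    smul_eq_mul] at e1 e2 e3
  rw [hx] at e1
  rw [hB y x, hy] at e2
  rw [hB z x, hB z y, hz] at e3
  have k1 : g 0 = 0 := by
    have : 2 * (B x y * B x z * B y z) * g 0 = 0 := by
      linear_combination (-(B y z) ^ 2) * e1 + (B x z * B y z) * e2 + (B x y * B y z) * e3
    rcases mul_eq_zero.1 this with h | h
    · exact absurd h (by positivity)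
    · exact h
  have k2 : g 1 = 0 := by
    rw [k1] at e3
    have : g 1 * B y z = 0 := by linear_combination e3
    exact (mul_eq_zero.1 this).resolve_right hyz
  have k3 : g 2 = 0 := by
    rw [k1] at e2
    have : g 2 * B y z = 0 := by linear_combination e2
    exact (mul_eq_zero.1 this).resolve_right hyz
  intro i
  fin_cases i
  · exact k1
  · exact k2
  · exact k3

/-- The form of signature `(2, 1)` as a bilinear form. -/
private noncomputable def bfL : LinearMap.BilinForm ℝ (ℂ × ℝ) :=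
  LinearMap.mk₂ ℝ bf bf_add_left (fun c x y => bf_smul_left c x y) bf_add_right
    (fun c x y => bf_smul_right c x y)

private theorem bfL_apply (x y : ℂ × ℝ) : bfL x y = bf x y := rfl

/-- Three points of the circle. -/
private theorem exists_three : ∃ w1 w2 w3 : Circle, w1 ≠ w2 ∧ w1 ≠ w3 ∧ w2 ≠ w3 := by
  refine ⟨⟨1, mem_sphere_zero_iff_norm.2 (by simp)⟩, ⟨-1, mem_sphere_zero_iff_norm.2 (by simp)⟩,
    ⟨I, mem_sphere_zero_iff_norm.2 (by simp)⟩, ?_, ?_, ?_⟩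
  · intro h
    have := congrArg (fun w : Circle => (w : ℂ).re) h
    norm_num at this
  · intro h
    have := congrArg (fun w : Circle => (w : ℂ).re) h
    norm_num at this
  · intro h
    have := congrArg (fun w : Circle => (w : ℂ).re) h
    norm_num at this

theorem exists_conic_coord (B : LinearMap.BilinForm ℝ (Fin 3 → ℝ)) (hB : B.IsSymm)
    (hB' : B.Nondegenerate) (T : Finset (Submodule ℝ (Fin 3 → ℝ))) (hT2 : ∀ H ∈ T, finrank ℝ H = 2)
    (hT : ∀ H ∈ T, ∃ v ∈ H, v ≠ 0 ∧ ∀ w ∈ H, B v w = 0) (hT3 : 3 ≤ T.card) :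
    ∃ e : (Fin 3 → ℝ) ≃ₗ[ℝ] (ℂ × ℝ), ∀ H ∈ T, ∃ w : Circle, H.map e.toLinearMap = tang 1 w := by
  obtain ⟨H1, hH1, H2, hH2, H3, hH3, h12, h13, h23⟩ := Finset.two_lt_card.1 hT3
  obtain ⟨v1, m1, n1, o1⟩ := hT H1 hH1
  obtain ⟨v2, m2, n2, o2⟩ := hT H2 hH2
  obtain ⟨v3, m3, n3, o3⟩ := hT H3 hH3
  have b12 := polar_ne hB hB' h12 (hT2 _ hH1) (hT2 _ hH2) n1 n2 m1 m2 o1 o2
  have b13 := polar_ne hB hB' h13 (hT2 _ hH1) (hT2 _ hH3) n1 n3 m1 m3 o1 o3
  have b23 := polar_ne hB hB' h23 (hT2 _ hH2) (hT2 _ hH3) n2 n3 m2 m3 o2 o3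
  have i1 := indep_iso B hB.eq (o1 _ m1) (o2 _ m2) (o3 _ m3) b12 b13 b23
  obtain ⟨w1, w2, w3, w12, w13, w23⟩ := exists_three
  have c12 := (bf_nul_ne w12).ne
  have c13 := (bf_nul_ne w13).ne
  have c23 := (bf_nul_ne w23).ne
  obtain ⟨κ, l1, l2, l3, hκ, hl1, hl2, hl3, e12, e13, e23⟩ : ∃ κ l1 l2 l3 : ℝ, κ ≠ 0 ∧ l1 ≠ 0 ∧
      l2 ≠ 0 ∧ l3 ≠ 0 ∧ B v1 v2 = κ * (l1 * (l2 * bf (nul w1) (nul w2))) ∧
      B v1 v3 = κ * (l1 * (l3 * bf (nul w1) (nul w3))) ∧
      B v2 v3 = κ * (l2 * (l3 * bf (nul w2) (nul w3))) := by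
    generalize B v1 v2 = x at b12 ⊢
    generalize B v1 v3 = y at b13 ⊢
    generalize B v2 v3 = z at b23 ⊢
    generalize bf (nul w1) (nul w2) = x' at c12 ⊢
    generalize bf (nul w1) (nul w3) = y' at c13 ⊢
    generalize bf (nul w2) (nul w3) = z' at c23 ⊢
    refine ⟨x * y * z' / (x' * y' * z), 1, z * y' / (y * z'), z * x' / (x * z'), ?_, one_ne_zero,
      ?_, ?_, ?_, ?_, ?_⟩
    · positivity
    · positivity
    · positivity
    · field_simp
    · field_simp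
    · field_simp
  have f1 : bfL (l1 • nul w1) (l1 • nul w1) = 0 := by
    rw [bfL_apply, bf_smul_left, bf_smul_right, bf_nul_nul, mul_zero, mul_zero]
  have f2 : bfL (l2 • nul w2) (l2 • nul w2) = 0 := by
    rw [bfL_apply, bf_smul_left, bf_smul_right, bf_nul_nul, mul_zero, mul_zero]
  have f3 : bfL (l3 • nul w3) (l3 • nul w3) = 0 := by
    rw [bfL_apply, bf_smul_left, bf_smul_right, bf_nul_nul, mul_zero, mul_zero]
  have g12 : bfL (l1 • nul w1) (l2 • nul w2) = l1 * (l2 * bf (nul w1) (nul w2)) := by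
    rw [bfL_apply, bf_smul_left, bf_smul_right]
  have g13 : bfL (l1 • nul w1) (l3 • nul w3) = l1 * (l3 * bf (nul w1) (nul w3)) := by
    rw [bfL_apply, bf_smul_left, bf_smul_right]
  have g23 : bfL (l2 • nul w2) (l3 • nul w3) = l2 * (l3 * bf (nul w2) (nul w3)) := by
    rw [bfL_apply, bf_smul_left, bf_smul_right]
  have i2 := indep_iso bfL (fun x y => bf_comm x y) f1 f2 f3
    (by rw [g12]; exact mul_ne_zero hl1 (mul_ne_zero hl2 c12))
    (by rw [g13]; exact mul_ne_zero hl1 (mul_ne_zero hl3 c13))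
    (by rw [g23]; exact mul_ne_zero hl2 (mul_ne_zero hl3 c23))
  have j1 : Fintype.card (Fin 3) = finrank ℝ (Fin 3 → ℝ) := by
    rw [finrank_fin_fun, Fintype.card_fin]
  have j2 : Fintype.card (Fin 3) = finrank ℝ (ℂ × ℝ) := by
    rw [finrank_CR, Fintype.card_fin]
  let β := basisOfLinearIndependentOfCardEqFinrank i1 j1
  let γ := basisOfLinearIndependentOfCardEqFinrank i2 j2
  let e := β.equiv γ (Equiv.refl (Fin 3))
  have hβ : ∀ i, β i = ![v1, v2, v3] i := fun i => by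
    rw [coe_basisOfLinearIndependentOfCardEqFinrank]
  have hγ : ∀ i, γ i = ![l1 • nul w1, l2 • nul w2, l3 • nul w3] i := fun i => by
    rw [coe_basisOfLinearIndependentOfCardEqFinrank]
  have he : ∀ i, e (![v1, v2, v3] i) = ![l1 • nul w1, l2 • nul w2, l3 • nul w3] i := fun i => by
    rw [← hβ, ← hγ]
    exact β.equiv_apply i γ (Equiv.refl _)
  have E1 : e v1 = l1 • nul w1 := he 0
  have E2 : e v2 = l2 • nul w2 := he 1
  have E3 : e v3 = l3 • nul w3 := he 2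
  have hBe : ∀ x y, B x y = κ * bf (e x) (e y) := by
    have h1 : B = κ • (bfL.comp e.toLinearMap e.toLinearMap) := by
      refine LinearMap.BilinForm.ext_basis β fun i j => ?_
      rw [hβ, hβ]
      change B (![v1, v2, v3] i) (![v1, v2, v3] j) =
        κ * bfL (e (![v1, v2, v3] i)) (e (![v1, v2, v3] j))
      fin_cases i <;> fin_cases j
      · change B v1 v1 = κ * bfL (e v1) (e v1)
        rw [o1 _ m1, E1, f1, mul_zero]
      · change B v1 v2 = κ * bfL (e v1) (e v2)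
        rw [E1, E2, g12, e12]
      · change B v1 v3 = κ * bfL (e v1) (e v3)
        rw [E1, E3, g13, e13]
      · change B v2 v1 = κ * bfL (e v2) (e v1)
        rw [hB.eq, bfL_apply, bf_comm, ← bfL_apply, E1, E2, g12, e12]
      · change B v2 v2 = κ * bfL (e v2) (e v2)
        rw [o2 _ m2, E2, f2, mul_zero]
      · change B v2 v3 = κ * bfL (e v2) (e v3)
        rw [E2, E3, g23, e23]
      · change B v3 v1 = κ * bfL (e v3) (e v1)
        rw [hB.eq, bfL_apply, bf_comm, ← bfL_apply, E1, E3, g13, e13]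
      · change B v3 v2 = κ * bfL (e v3) (e v2)
        rw [hB.eq, bfL_apply, bf_comm, ← bfL_apply, E2, E3, g23, e23]
      · change B v3 v3 = κ * bfL (e v3) (e v3)
        rw [o3 _ m3, E3, f3, mul_zero]
    intro x y
    have h2 := congrArg (fun F : LinearMap.BilinForm ℝ (Fin 3 → ℝ) => F x y) h1
    exact h2
  refine ⟨e, fun H hH => ?_⟩
  obtain ⟨v, m, n, o⟩ := hT H hH
  have p1 : bf (e v) (e v) = 0 := by
    have h1 := o v m
    rw [hBe] at h1
    exact (mul_eq_zero.1 h1).resolve_left hκ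
  have p2 : e v ≠ 0 := fun h => n (e.map_eq_zero_iff.1 h)
  obtain ⟨c, w, hc, hw⟩ : ∃ (c : ℝ) (w : Circle), c ≠ 0 ∧ e v = c • nul w := by
    rcases lt_trichotomy 0 (e v).2 with h | h | h
    · obtain ⟨w, hw⟩ := exists_nul p1 h
      exact ⟨_, w, h.ne', hw⟩
    · exfalso
      rw [bf_def, ← h] at p1
      have h5 : (e v).1.re = 0 := by nlinarith [sq_nonneg (e v).1.re, sq_nonneg (e v).1.im]
      have h6 : (e v).1.im = 0 := by nlinarith [sq_nonneg (e v).1.re, sq_nonneg (e v).1.im]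
      exact p2 (Prod.ext (Complex.ext h5 h6) h.symm)
    · obtain ⟨w, hw⟩ := exists_nul (x := -(e v)) (by
        rw [bf_neg_left, bf_neg_right, p1, neg_zero, neg_zero]) (by
        rw [Prod.snd_neg]
        linarith)
      refine ⟨-(-(e v)).2, w, ?_, ?_⟩
      · rw [Prod.snd_neg, neg_neg]
        exact h.ne
      · rw [neg_smul, ← hw, neg_neg]
  refine ⟨w, Submodule.ext fun y => ?_⟩
  have q1 : y ∈ H.map e.toLinearMap ↔ e.symm y ∈ H := Submodule.mem_map_equiv H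
  rw [q1, mem_plane hB' (hT2 H hH) n o, hBe, e.apply_symm_apply, hw, bf_smul_left,
    mul_eq_zero_iff_left hκ, mul_eq_zero_iff_left hc, mem_tang_iff, bf_comm]

end Pool.Agent.SimplC
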