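import Pool.Agent.SimplC.Main
import Pool.Agent.SimplC.Conic
import Pool.Agent.Simpl.ToReal

set_option autoImplicit false

/-! # The theorem in `ℝ³`

`T ⊆ A`, `T.card ≥ (1/2 - 10⁻⁷) 10⁹ ≥ 3`. `exists_conic_coord` gives `e`; let `A' = A.image (map e)`, `P` = the set of the `w` with
`tang 1 w ∈ A'` (finite: `w ↦ tang 1 w` is injective, `tang_inj`), `Tan A' P`; `T.image (map e)` consists of planes
`tang 1 w`, `w ∈ P`, so `T.card ≤ P.card`. `Hyp9 A' P` (`isArrangement_map`, `isSimplicial_map` for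
`e.toContinuousLinearEquiv`, `A'.card = A.card`). `main`, `exists_toReal` (as at the end of
`Pool/Agent/SimplV/Final.lean`). -/

namespace Pool.Agent.SimplC

open Module Classical Pool.Agent.Simpl Pool.Agent.SimplV

theorem conic_case (A : Finset (Submodule ℝ (Fin 3 → ℝ))) (hA : IsArrangement A)
    (hS : IsSimplicial A) (hn : 10 ^ 9 ≤ A.card) (B : LinearMap.BilinForm ℝ (Fin 3 → ℝ))
    (hB : B.IsSymm) (hB' : B.Nondegenerate) (T : Finset (Submodule ℝ (Fin 3 → ℝ))) (hTA : T ⊆ A)
    (hT : ∀ H ∈ T, ∃ v ∈ H, v ≠ 0 ∧ ∀ w ∈ H, B v w = 0)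
    (hc : (1 / 2 - 1 / 10 ^ 7 : ℝ) * A.card ≤ T.card) :
    ∃ N : ℕ, 3 ≤ N ∧ ∃ e : (Fin 3 → ℝ) ≃ₗ[ℝ] (Fin 3 → ℝ),
      A.image (Submodule.map e.toLinearMap) = regular N ∨
      (Even N ∧ A.image (Submodule.map e.toLinearMap) = insert (plane 0 0 1) (regular N)) := by
  have hT3 : 3 ≤ T.card := by
    have h1 : (1000000000 : ℝ) ≤ (A.card : ℝ) := by
      have h0 := hn
      norm_num at h0
      exact_mod_cast h0
    have h2 : (3 : ℝ) ≤ T.card := by
      refine le_trans ?_ hc
      norm_num
      linarith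
    exact_mod_cast h2
  obtain ⟨e, he⟩ := exists_conic_coord B hB hB' T (fun H hH => hA.1 H (hTA hH)) hT hT3
  have hfin : {w : Circle | tang 1 w ∈ A.image (Submodule.map e.toLinearMap)}.Finite :=
    (A.image (Submodule.map e.toLinearMap)).finite_toSet.preimage fun w _ w' _ h =>
      (tang_inj one_pos one_pos h).2
  obtain ⟨P, hP⟩ : ∃ P : Finset Circle, ∀ w, w ∈ P ↔
      tang 1 w ∈ A.image (Submodule.map e.toLinearMap) :=
    ⟨hfin.toFinset, fun w => hfin.mem_toFinset⟩
  have hTP : T.card ≤ P.card := by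
    have h1 : T.image (Submodule.map e.toLinearMap) ⊆ P.image (fun w => tang 1 w) := by
      intro H' hH'
      obtain ⟨H, hH, rfl⟩ := Finset.mem_image.1 hH'
      obtain ⟨w, hw⟩ := he H hH
      rw [Finset.mem_image]
      exact ⟨w, (hP w).2 (by rw [← hw]; exact Finset.mem_image_of_mem _ (hTA hH)), hw.symm⟩
    have h2 : (T.image (Submodule.map e.toLinearMap)).card = T.card :=
      Finset.card_image_of_injective _ (map_inj e)
    rw [← h2]
    exact (Finset.card_le_card h1).trans Finset.card_image_le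
  have hcard : (A.image (Submodule.map e.toLinearMap)).card = A.card :=
    Finset.card_image_of_injective _ (map_inj e)
  have hspl : IsSimplicial (A.image (Submodule.map e.toLinearMap)) :=
    isSimplicial_map A e.toContinuousLinearEquiv hS
  have hyp : Hyp9 (A.image (Submodule.map e.toLinearMap)) P :=
    { arr := isArrangement_map A e hA
      spl := hspl
      tan := fun w => (hP w).symm
      card := by rw [hcard]; exact hn
      many := by rw [hcard]; exact hc.trans (Nat.cast_le.2 hTP) }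
  obtain ⟨N, e₂, hN, h⟩ := main hyp
  obtain ⟨e₃, h3, h3'⟩ := exists_toReal
  refine ⟨N, hN, (e.trans e₂).trans e₃, ?_⟩
  rcases h with h | ⟨hev, h⟩
  · left
    rw [image_trans, image_trans, h, h3 N (by omega)]
  · right
    refine ⟨hev, ?_⟩
    rw [image_trans, image_trans, h, Finset.image_insert, h3 N (by omega), h3']

end Pool.Agent.SimplC
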