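import Pool.Agent.SimplC.Rfl

set_option autoImplicit false

/-! # Moving a point inside the conic to the centre (CON_Proof.md, 2.5)

`height_pos`: `(0, 1) = (1/2) • (nul w + nul (-w))` (for `w = 1`: `-1 : Circle`), so `(g (0, 1)).2 > 0`.
`boost`: let `v = (z, t)`, `s = √(-bf v v) > 0`, `e₀ = (0, 1)`, `v' = s⁻¹ • v`: `bf v' v' = -1 = bf e₀ e₀`. If `v' = e₀` take `e = 1`. Otherwise
`c = v' - e₀`, `bf c c = -2 - 2 bf v' e₀ = -2 + 2 v'.2`, and `v'.2² = 1 + |z'|² > 1` if `z' ≠ 0` (if `z' = 0` then `v'.2 = 1` and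
`v' = e₀`), so `bf c c > 0`. `refl_pos`: `g x = x - (2 bf x c / bf c c) • c`; `bf v' c = -1 - bf v' e₀ = bf c c / 2`, so
`g v' = v' - c = e₀`, `g v = s • e₀`. -/

namespace Pool.Agent.SimplC

open Complex Module ComplexConjugate Pool.Agent.Simpl

theorem height_pos (g : Lor) : 0 < (g.1 ((0 : ℂ), (1 : ℝ))).2 := by
  obtain ⟨w, hw⟩ : ∃ w : Circle, (w : ℂ) = -1 :=
    ⟨⟨-1, mem_sphere_zero_iff_norm.2 (by rw [norm_neg, norm_one])⟩, rfl⟩
  have h1 : ((0 : ℂ), (1 : ℝ)) = (1 / 2 : ℝ) • (nul 1 + nul w) := by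
    refine Prod.ext ?_ ?_
    · change (0 : ℂ) = (1 / 2 : ℝ) • (((1 : Circle) : ℂ) + (w : ℂ))
      rw [hw, Circle.coe_one, add_neg_cancel, smul_zero]
    · change (1 : ℝ) = (1 / 2 : ℝ) • ((1 : ℝ) + 1)
      norm_num
  rw [h1, map_smul, map_add, Prod.smul_snd, Prod.snd_add, smul_eq_mul]
  have h2 := Lor_pos g 1
  have h3 := Lor_pos g w
  linarith

/-- The case of a vector of norm `-1`. -/
private theorem boost_one {v : ℂ × ℝ} (h : bf v v = -1) (h2 : 0 < v.2) :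
    ∃ e : Lor, e.1 v = ((0 : ℂ), (1 : ℝ)) := by
  by_cases h0 : v = ((0 : ℂ), (1 : ℝ))
  · exact ⟨1, h0⟩
  obtain ⟨c, hc⟩ : ∃ c, c = v - ((0 : ℂ), (1 : ℝ)) := ⟨_, rfl⟩
  have e1 : bf v ((0 : ℂ), (1 : ℝ)) = -v.2 := by
    rw [bf_def]
    simp
  have e2 : bf ((0 : ℂ), (1 : ℝ)) ((0 : ℂ), (1 : ℝ)) = -1 := by
    rw [bf_def]
    simp
  have e3 : bf v c = -1 + v.2 := by
    rw [hc, bf_sub_right, h, e1]
    ring
  have e4 : bf c c = 2 * (-1 + v.2) := by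
    nth_rewrite 1 [hc]
    rw [bf_sub_left, e3, hc, bf_sub_right, bf_comm _ v, e1, e2]
    ring
  have h3 : 1 < v.2 := by
    rw [bf_def] at h
    by_contra h4
    rw [not_lt] at h4
    apply h0
    have h5 : v.2 * v.2 ≤ 1 := by nlinarith
    have h6 : v.1.re = 0 := by nlinarith [mul_self_nonneg v.1.re, mul_self_nonneg v.1.im]
    have h7 : v.1.im = 0 := by nlinarith [mul_self_nonneg v.1.re, mul_self_nonneg v.1.im]
    have h8 : v.2 = 1 := by
      rw [h6, h7] at h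
      nlinarith
    exact Prod.ext (Complex.ext h6 h7) h8
  have h4 : 0 < bf c c := by
    rw [e4]
    linarith
  obtain ⟨g, hg⟩ := refl_pos h4
  refine ⟨g, ?_⟩
  have h5 : 2 * bf v c / bf c c = 1 := by
    rw [e3, e4, div_self]
    linarith
  rw [hg, h5, one_smul, hc, sub_sub_cancel]

theorem boost {v : ℂ × ℝ} (h : bf v v < 0) (h2 : 0 < v.2) :
    ∃ (e : Lor) (s : ℝ), 0 < s ∧ e.1 v = s • ((0 : ℂ), (1 : ℝ)) := by
  obtain ⟨s, hs⟩ : ∃ s, s = √(-bf v v) := ⟨_, rfl⟩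
  have hs0 : 0 < s := by
    rw [hs]
    exact Real.sqrt_pos.2 (by linarith)
  have hs2 : s * s = -bf v v := by
    rw [hs]
    exact Real.mul_self_sqrt (by linarith)
  obtain ⟨e, he⟩ := boost_one (v := s⁻¹ • v) (by
    rw [bf_smul_left, bf_smul_right]
    have h3 : bf v v = -(s * s) := by linarith
    rw [h3]
    field_simp) (by
    rw [Prod.smul_snd, smul_eq_mul]
    exact mul_pos (inv_pos.2 hs0) h2)
  refine ⟨e, s, hs0, ?_⟩
  rw [map_smul] at he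
  rw [← he, smul_smul, mul_inv_cancel₀ hs0.ne', one_smul]

end Pool.Agent.SimplC
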