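import Pool.Agent.SimplC.Defs

set_option autoImplicit false

/-! # The affine chart (CON_Proof.md, 1.0)

`par a = (a + i) / (a - i) = (a + i)² / (a² + 1)`, `re = (a² - 1) / (a² + 1)`,
`im = 2 a / (a² + 1)`; `vv a b = ((a b - 1) + (a + b) i, a b + 1)`. -/

namespace Pool.Agent.SimplC

open Complex Module ComplexConjugate Pool.Agent.Simpl

private theorem par_eqs (a : ℝ) : (par a : ℂ).re * a + (par a : ℂ).im = a ∧
    (par a : ℂ).im * a - (par a : ℂ).re = 1 := by
  have h0 : ((a : ℂ) - I) ≠ 0 := by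
    intro h
    have := congrArg Complex.im h
    simp at this
  have h : (par a : ℂ) * ((a : ℂ) - I) = (a : ℂ) + I := by
    change ((a : ℂ) + I) / ((a : ℂ) - I) * ((a : ℂ) - I) = (a : ℂ) + I
    exact div_mul_cancel₀ _ h0
  have h1 := congrArg Complex.re h
  have h2 := congrArg Complex.im h
  simp only [Complex.mul_re, Complex.mul_im, Complex.sub_re, Complex.sub_im, Complex.add_re,
    Complex.add_im, Complex.ofReal_re, Complex.ofReal_im, Complex.I_re, Complex.I_im] at h1 h2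
  exact ⟨by linear_combination h1, by linear_combination h2⟩

private theorem par_re (a : ℝ) : (par a : ℂ).re * (a ^ 2 + 1) = a ^ 2 - 1 := by
  obtain ⟨h1, h2⟩ := par_eqs a
  linear_combination a * h1 - h2

private theorem par_im (a : ℝ) : (par a : ℂ).im * (a ^ 2 + 1) = 2 * a := by
  obtain ⟨h1, h2⟩ := par_eqs a
  linear_combination h1 + a * h2

private theorem vv_re (a b : ℝ) : (vv a b).1.re = a * b - 1 := by
  unfold vv
  simp

private theorem vv_im (a b : ℝ) : (vv a b).1.im = a + b := by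
  unfold vv
  simp

private theorem vv_snd (a b : ℝ) : (vv a b).2 = a * b + 1 := rfl

theorem bf_vv_par (a b c : ℝ) :
    (c ^ 2 + 1) * bf (vv a b) (nul (par c)) = -2 * ((a - c) * (b - c)) := by
  rw [bf_def, vv_re, vv_im, vv_snd, nul_fst, nul_snd]
  linear_combination (a * b - 1) * par_re c + (a + b) * par_im c

theorem par_inj : Function.Injective par := by
  intro a b h
  obtain ⟨h1, h2⟩ := par_eqs a
  obtain ⟨h3, h4⟩ := par_eqs b
  rw [← h] at h3 h4
  have hr : 1 - (par a : ℂ).re ≠ 0 := by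
    intro h5
    have h6 : (par a : ℂ).im = 0 := by linear_combination h1 + a * h5
    rw [h6] at h2
    linarith
  have h7 : (1 - (par a : ℂ).re) * (a - b) = 0 := by linear_combination h3 - h1
  rcases mul_eq_zero.1 h7 with h8 | h8
  · exact absurd h8 hr
  · linarith

theorem par_ne_one (a : ℝ) : par a ≠ 1 := by
  intro h
  obtain ⟨-, h2⟩ := par_eqs a
  rw [h, Circle.coe_one, Complex.one_re, Complex.one_im] at h2
  linarith

theorem exists_par {w : Circle} (h : w ≠ 1) : ∃ a, par a = w := by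
  have hsq := circle_sq w
  have hr : 1 - (w : ℂ).re ≠ 0 := by
    intro h5
    have h6 : (w : ℂ).re = 1 := by linarith
    rw [h6] at hsq
    have h7 : (w : ℂ).im = 0 := by nlinarith
    apply h
    refine Circle.ext (Complex.ext ?_ ?_)
    · rw [h6, Circle.coe_one, Complex.one_re]
    · rw [h7, Circle.coe_one, Complex.one_im]
  refine ⟨(w : ℂ).im / (1 - (w : ℂ).re), ?_⟩
  set a : ℝ := (w : ℂ).im / (1 - (w : ℂ).re) with ha
  have ha1 : a * (1 - (w : ℂ).re) = (w : ℂ).im := by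
    rw [ha]
    exact div_mul_cancel₀ _ hr
  have ha2 : (a ^ 2 + 1) * (1 - (w : ℂ).re) = 2 := by
    have h1 : (a ^ 2 + 1) * (1 - (w : ℂ).re) * (1 - (w : ℂ).re) = 2 * (1 - (w : ℂ).re) := by
      linear_combination (a * (1 - (w : ℂ).re) + (w : ℂ).im) * ha1 + hsq
    exact mul_right_cancel₀ hr h1
  have ha3 : a ^ 2 + 1 ≠ 0 := by positivity
  refine Circle.ext (Complex.ext ?_ ?_)
  · apply mul_right_cancel₀ ha3
    rw [par_re]
    linear_combination ha2
  · apply mul_right_cancel₀ ha3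
    rw [par_im]
    apply mul_right_cancel₀ hr
    linear_combination 2 * ha1 - (w : ℂ).im * ha2

theorem vv_ne_zero (a b : ℝ) : vv a b ≠ 0 := by
  intro h
  have h1 := congrArg (fun x : ℂ × ℝ => x.1.re) h
  have h2 := congrArg (fun x : ℂ × ℝ => x.2) h
  simp only [vv_re, vv_snd, Prod.fst_zero, Prod.snd_zero, Complex.zero_re] at h1 h2
  linarith

theorem vv_comm (a b : ℝ) : vv a b = vv b a := by
  unfold vv
  rw [mul_comm, mul_comm a b]

theorem vv_mem_tang {a b c : ℝ} : vv a b ∈ tang 1 (par c) ↔ a = c ∨ b = c := by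
  rw [mem_tang_iff]
  have h := bf_vv_par a b c
  have hc : c ^ 2 + 1 ≠ 0 := by positivity
  constructor
  · intro h0
    rw [h0, mul_zero] at h
    have h1 : (a - c) * (b - c) = 0 := by linarith
    rcases mul_eq_zero.1 h1 with h2 | h2
    · left
      linarith
    · right
      linarith
  · intro h0
    have h1 : (a - c) * (b - c) = 0 := by
      rcases h0 with h0 | h0 <;> rw [h0] <;> ring
    rw [h1, mul_zero] at h
    rcases mul_eq_zero.1 h with h2 | h2
    · exact absurd h2 hc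
    · exact h2

theorem lin_vv (f : (ℂ × ℝ) →ₗ[ℝ] ℝ) (a b : ℝ) :
    f (vv a b) = f (1, 1) * (a * b) + f (I, 0) * (a + b) + f (-1, 1) := by
  have h : vv a b = (a * b) • ((1, 1) : ℂ × ℝ) + (a + b) • ((I, 0) : ℂ × ℝ) +
      ((-1, 1) : ℂ × ℝ) := by
    refine Prod.ext (Complex.ext ?_ ?_) ?_
    · rw [vv_re]
      simp
      ring
    · rw [vv_im]
      simp
    · rw [vv_snd]
      simp
  rw [h, map_add, map_add, map_smul, map_smul, smul_eq_mul, smul_eq_mul]
  ring

theorem inf_le {a b : ℝ} (h : a ≠ b) {l : Submodule ℝ (ℂ × ℝ)} (hl : vv a b ∈ l) :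
    tang 1 (par a) ⊓ tang 1 (par b) ≤ l := by
  have hne : tang 1 (par a) ≠ tang 1 (par b) := by
    intro he
    exact h (par_inj (tang_inj one_pos one_pos he).2)
  have h1 : finrank ℝ (tang 1 (par a) ⊓ tang 1 (par b) : Submodule ℝ (ℂ × ℝ)) = 1 :=
    finrank_inf finrank_CR (finrank_tang 1 (par a)) (finrank_tang 1 (par b)) hne
  have hm : vv a b ∈ tang 1 (par a) ⊓ tang 1 (par b) :=
    ⟨vv_mem_tang.2 (Or.inl rfl), vv_mem_tang.2 (Or.inr rfl)⟩
  intro x hx
  have h2 : (⟨vv a b, hm⟩ : (tang 1 (par a) ⊓ tang 1 (par b) : Submodule ℝ (ℂ × ℝ))) ≠ 0 := by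
    intro h3
    exact vv_ne_zero a b (congrArg Subtype.val h3)
  obtain ⟨c, hc⟩ := exists_smul_eq_of_finrank_eq_one h1 h2 ⟨x, hx⟩
  have h3 : c • vv a b = x := congrArg Subtype.val hc
  rw [← h3]
  exact l.smul_mem c hl

theorem disc_ne {f : (ℂ × ℝ) →ₗ[ℝ] ℝ} (hf : f ≠ 0) (h : ∀ w, LinearMap.ker f ≠ tang 1 w) :
    f (I, 0) ^ 2 ≠ f (1, 1) * f (-1, 1) := by
  intro he
  set α : ℝ := f (1, 0) with hα
  set β : ℝ := f (I, 0) with hβ
  set γ : ℝ := f (0, 1) with hγ
  have hfx : ∀ x : ℂ × ℝ, f x = α * x.1.re + β * x.1.im + γ * x.2 := by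
    intro x
    have hx : x = x.1.re • ((1, 0) : ℂ × ℝ) + x.1.im • ((I, 0) : ℂ × ℝ) +
        x.2 • ((0, 1) : ℂ × ℝ) := by
      refine Prod.ext (Complex.ext ?_ ?_) ?_ <;> simp
    conv_lhs => rw [hx]
    rw [map_add, map_add, map_smul, map_smul, map_smul, smul_eq_mul, smul_eq_mul, smul_eq_mul]
    ring
  have e1 : f (1, 1) = α + γ := by
    rw [hfx]
    simp
  have e2 : f (-1, 1) = γ - α := by
    rw [hfx]
    simp
    ring
  rw [e1, e2] at he
  have hγ0 : γ ≠ 0 := by
    intro h0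
    rw [h0] at he
    have h1 : α = 0 := by nlinarith [sq_nonneg α, sq_nonneg β]
    have h2 : β = 0 := by
      rw [h1] at he
      nlinarith [sq_nonneg β]
    apply hf
    refine LinearMap.ext fun x => ?_
    rw [hfx, h0, h1, h2, LinearMap.zero_apply]
    ring
  have hw : ‖(⟨-α / γ, -β / γ⟩ : ℂ)‖ = 1 := by
    rw [Complex.norm_def, Complex.normSq_apply]
    have h1 : -α / γ * (-α / γ) + -β / γ * (-β / γ) = 1 := by
      field_simp
      linear_combination he
    change Real.sqrt (-α / γ * (-α / γ) + -β / γ * (-β / γ)) = 1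
    rw [h1, Real.sqrt_one]
  let w : Circle := ⟨⟨-α / γ, -β / γ⟩, mem_sphere_zero_iff_norm.2 hw⟩
  apply h w
  ext x
  rw [LinearMap.mem_ker, mem_tang_iff, bf_def, nul_fst, nul_snd]
  change f x = 0 ↔ x.1.re * (-α / γ) + x.1.im * (-β / γ) - x.2 * 1 = 0
  have h2 : x.1.re * (-α / γ) + x.1.im * (-β / γ) - x.2 * 1 = -f x / γ := by
    rw [hfx]
    field_simp
    ring
  rw [h2, div_eq_zero_iff, neg_eq_zero]
  exact ⟨fun h3 => Or.inl h3, fun h3 => h3.resolve_right hγ0⟩

end Pool.Agent.SimplC
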