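import Pool.Agent.SimplC.CntB

set_option autoImplicit false

/-! # The number of served corners (CON_Proof.md, 1.4)

The served flags are the disjoint union over `c < r` (the first index) of the sets `srvAt r Φ c`
(`Finset.card_eq_sum_card_fiberwise` for `x ↦ x.1`, or `Finset.card_sigma`); each has at most `4` elements, and at most
`2` if there is no `δ ≠ c`, `δ < r` with `Φ c δ = 0`. So the number is at most `2 r + 2 k`, where `k` is the number of the
`c` for which such a `δ` exists; `k` is at most the number of the pairs `(c, δ)` (project to the first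
coordinate). -/

namespace Pool.Agent.SimplC

theorem card_served {A B C : ℝ} (hd : B ^ 2 ≠ A * C) {r : ℕ} {t : ℕ → ℝ}
    (ht : ∀ i j, i < j → j < r → t i < t j) (S : Finset (ℕ × ℕ × ℕ × ℕ)) (hS : S ⊆ flags r)
    (hS' : ∀ x ∈ S, Serves (phi A B C t) x.1 x.2.1 x.2.2.1 x.2.2.2)
    (Z : Finset (ℕ × ℕ)) (hZ : ∀ i j, i < r → j < r → i ≠ j → phi A B C t i j = 0 → (i, j) ∈ Z) :
    S.card ≤ 2 * r + 2 * Z.card := by
  classical
  have hm : ∀ x ∈ S, x.1 < r ∧ x.2.1 < r ∧ x.2.2.1 < r ∧ x.2.2.2 < r ∧
      IsFlag x.1 x.2.1 x.2.2.1 x.2.2.2 := by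
    intro x hx
    have h1 := hS hx
    unfold flags at h1
    rw [Finset.mem_filter, Finset.mem_product, Finset.mem_product, Finset.mem_product,
      Finset.mem_range, Finset.mem_range, Finset.mem_range, Finset.mem_range] at h1
    exact ⟨h1.1.1, h1.1.2.1, h1.1.2.2.1, h1.1.2.2.2, h1.2⟩
  have h1 : S.card = ∑ c ∈ Finset.range r, (S.filter fun x => x.1 = c).card :=
    Finset.card_eq_sum_card_fiberwise fun x hx => by
      rw [Finset.mem_coe] at hx
      rw [Finset.coe_range]
      exact (hm x hx).1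
  have h2 : ∀ c, (S.filter fun x => x.1 = c).card ≤ (srvAt r (phi A B C t) c).card := by
    intro c
    refine Finset.card_le_card_of_injOn (fun x => x.2) ?_ ?_
    · intro x hx
      rw [Finset.mem_coe, Finset.mem_filter] at hx
      obtain ⟨hx1, rfl⟩ := hx
      obtain ⟨g1, g2, g3, g4, g5⟩ := hm x hx1
      rw [Finset.mem_coe]
      unfold srvAt
      rw [Finset.mem_filter, Finset.mem_product, Finset.mem_product,
        Finset.mem_range, Finset.mem_range, Finset.mem_range]
      exact ⟨⟨g2, g3, g4⟩, g5, hS' x hx1⟩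
    · intro x hx y hy hxy
      rw [Finset.mem_coe, Finset.mem_filter] at hx hy
      exact Prod.ext (hx.2.trans hy.2.symm) hxy
  set K : Finset ℕ := (Finset.range r).filter fun c =>
    ∃ δ, δ < r ∧ δ ≠ c ∧ phi A B C t c δ = 0 with hK
  have h3 : K.card ≤ Z.card := by
    have h4 : K ⊆ Z.image Prod.fst := by
      intro c hc
      rw [hK, Finset.mem_filter, Finset.mem_range] at hc
      obtain ⟨hc1, δ, hδ, hδc, hδ0⟩ := hc
      rw [Finset.mem_image]
      exact ⟨(c, δ), hZ c δ hc1 hδ hδc.symm hδ0, rfl⟩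
    exact (Finset.card_le_card h4).trans Finset.card_image_le
  have h5 : ∀ c ∈ Finset.range r, (S.filter fun x => x.1 = c).card ≤
      2 + 2 * (if c ∈ K then 1 else 0) := by
    intro c hc
    rw [Finset.mem_range] at hc
    by_cases hcK : c ∈ K
    · rw [if_pos hcK]
      exact (h2 c).trans (srvAt_le_four hd ht hc)
    · rw [if_neg hcK]
      refine (h2 c).trans (srvAt_le_two hd ht hc fun δ hδ hδc h0 => hcK ?_)
      rw [hK, Finset.mem_filter, Finset.mem_range]
      exact ⟨hc, δ, hδ, hδc, h0⟩
  have h6 : ∑ c ∈ Finset.range r, (2 + 2 * (if c ∈ K then 1 else 0)) = 2 * r + 2 * K.card := by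
    rw [Finset.sum_add_distrib, Finset.sum_const, Finset.card_range, ← Finset.mul_sum,
      ← Finset.card_filter, smul_eq_mul, mul_comm r 2]
    congr 3
    ext c
    rw [Finset.mem_filter]
    constructor
    · rintro ⟨_, h⟩
      exact h
    · intro h
      exact ⟨(Finset.mem_filter.1 (hK ▸ h)).1, h⟩
  rw [h1]
  refine (Finset.sum_le_sum h5).trans ?_
  rw [h6]
  omega

end Pool.Agent.SimplC
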