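import Pool.Agent.SimplC.Defs

set_option autoImplicit false

/-! # The corners served on one tangent, no double point (CON_Proof.md, 1.4)

`Φ i j = A t_i t_j + B (t_i + t_j) + C` (`phi`), `B² ≠ A C`. For a fixed index `c < r` the function
`φ b = A t_c b + B (t_c + b) + C` of the real number `b` is affine, with slope `A t_c + B`, and it is not identically zero
(otherwise `A t_c + B = 0` and `B t_c + C = 0`, so `A C = -A B t_c = B²`).

`quad`: the identity `(b' - a') Φ(a, b) + (b - a) Φ(a', b') = (b - a') Φ(a, b') + (b' - a) Φ(a', b)` (`ring`).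

`srvAt_le_two`: suppose `φ (t_δ) ≠ 0` for all `δ < r`, `δ ≠ c`. Let `(a', b, b')` be in `srvAt`. As `b, b' ≠ c`
(`IsFlag`), the flag is served by the second alternative, `φ (t_b) φ (t_b') ≤ 0`, so `< 0`. As `φ` is affine (monotone or
antitone) and `t` is strictly increasing, `{b, b'} = {j, j + 1}` for a number `j` which is the same for all elements
of `srvAt` (if `j < j'` were two such numbers, then `φ (t_j), φ (t_(j+1))` have opposite signs and so have
`φ (t_j')`, `φ (t_(j'+1))`, with `j + 1 ≤ j'`: a monotone function changes its sign only once). And `a' = c + 1` or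
`a' + 1 = c`. For a given `a'` not both orders `(j, j + 1)` and `(j + 1, j)` occur: let `ψ b = Φ(t_a', b)`; if both are
served and, say, `φ (t_b) > 0 > φ (t_b')`, then `ψ (t_b) ≤ 0` (from `φ (t_b) ψ (t_b) ≤ 0`) and `ψ (t_b') ≥ 0`; in `quad`
with `a = t_c`, `a' = t_a'`, `b = t_b`, `b' = t_b'` the four coefficients have the same sign (`IsFlag`: both
`c, a'` are less than both `b, b'`, or both are greater), and `φ (t_b) > 0`, `ψ (t_b') ≥ 0` on the left,
`φ (t_b') < 0`, `ψ (t_b) ≤ 0` on the right: a contradiction. So there are at most two elements (one for each `a'`). -/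

namespace Pool.Agent.SimplC

/-- The values of the linear form on the double points of the tangents. -/
def phi (A B C : ℝ) (t : ℕ → ℝ) (i j : ℕ) : ℝ := A * (t i * t j) + B * (t i + t j) + C

/-- The flags at the tangent `c` which are served. -/
noncomputable def srvAt (r : ℕ) (Φ : ℕ → ℕ → ℝ) (c : ℕ) : Finset (ℕ × ℕ × ℕ) := by
  classical
  exact (Finset.range r ×ˢ Finset.range r ×ˢ Finset.range r).filter fun x =>
    IsFlag c x.1 x.2.1 x.2.2 ∧ Serves Φ c x.1 x.2.1 x.2.2

theorem quad (A B C a a' b b' : ℝ) :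
    (b' - a') * (A * (a * b) + B * (a + b) + C) + (b - a) * (A * (a' * b') + B * (a' + b') + C) =
      (b - a') * (A * (a * b') + B * (a + b') + C) +
        (b' - a) * (A * (a' * b) + B * (a' + b) + C) := by
  ring

/-- An affine function changes its sign only once. -/
private theorem one_change {m k t1 t2 t3 t4 : ℝ} (h12 : t1 < t2) (h23 : t2 ≤ t3) (h34 : t3 < t4)
    (h1 : (m * t1 + k) * (m * t2 + k) < 0) (h2 : (m * t3 + k) * (m * t4 + k) < 0) : False := by
  rcases lt_trichotomy m 0 with hm | hm | hm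
  · have e1 : m * t2 < m * t1 := mul_lt_mul_of_neg_left h12 hm
    have e2 : m * t3 ≤ m * t2 := mul_le_mul_of_nonpos_left h23 hm.le
    have e3 : m * t4 < m * t3 := mul_lt_mul_of_neg_left h34 hm
    have e4 : m * t2 + k < 0 := by
      by_contra h
      rw [not_lt] at h
      have : 0 ≤ (m * t1 + k) * (m * t2 + k) := mul_nonneg (by linarith) h
      linarith
    have : 0 < (m * t3 + k) * (m * t4 + k) :=
      mul_pos_of_neg_of_neg (by linarith) (by linarith)
    linarith
  · subst hm
    nlinarith [mul_self_nonneg k]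
  · have e1 : m * t1 < m * t2 := mul_lt_mul_of_pos_left h12 hm
    have e2 : m * t2 ≤ m * t3 := mul_le_mul_of_nonneg_left h23 hm.le
    have e3 : m * t3 < m * t4 := mul_lt_mul_of_pos_left h34 hm
    have e4 : 0 < m * t2 + k := by
      by_contra h
      rw [not_lt] at h
      have : 0 ≤ (m * t1 + k) * (m * t2 + k) := mul_nonneg_of_nonpos_of_nonpos (by linarith) h
      linarith
    have : 0 < (m * t3 + k) * (m * t4 + k) := mul_pos (by linarith) (by linarith)
    linarith

private theorem signs {p q u v F F' G G' : ℝ} (hs : p * F + q * G' = u * F' + v * G)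
    (hc : (0 < p ∧ 0 < q ∧ 0 < u ∧ 0 < v) ∨ (p < 0 ∧ q < 0 ∧ u < 0 ∧ v < 0))
    (h1 : F * F' < 0) (h2 : F * G ≤ 0) (h3 : F' * G' ≤ 0) : False := by
  have key : ∀ {p q u v F F' G G' : ℝ}, p * F + q * G' = u * F' + v * G →
      0 < p → 0 < q → 0 < u → 0 < v → F * F' < 0 → F * G ≤ 0 → F' * G' ≤ 0 → False := by
    intro p q u v F F' G G' hs hp hq hu hv h1 h2 h3
    rcases mul_neg_iff.1 h1 with ⟨hF, hF'⟩ | ⟨hF, hF'⟩
    · have hG : G ≤ 0 := by
        by_contra h
        rw [not_le] at h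
        linarith [mul_pos hF h]
      have hG' : 0 ≤ G' := by
        by_contra h
        rw [not_le] at h
        linarith [mul_pos_of_neg_of_neg hF' h]
      have e1 := mul_pos hp hF
      have e2 := mul_nonneg hq.le hG'
      have e3 := mul_neg_of_pos_of_neg hu hF'
      have e4 := mul_nonpos_of_nonneg_of_nonpos hv.le hG
      linarith
    · have hG : 0 ≤ G := by
        by_contra h
        rw [not_le] at h
        linarith [mul_pos_of_neg_of_neg hF h]
      have hG' : G' ≤ 0 := by
        by_contra h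
        rw [not_le] at h
        linarith [mul_pos hF' h]
      have e1 := mul_neg_of_pos_of_neg hp hF
      have e2 := mul_nonpos_of_nonneg_of_nonpos hq.le hG'
      have e3 := mul_pos hu hF'
      have e4 := mul_nonneg hv.le hG
      linarith
  rcases hc with ⟨a1, a2, a3, a4⟩ | ⟨a1, a2, a3, a4⟩
  · exact key hs a1 a2 a3 a4 h1 h2 h3
  · exact key (p := -p) (q := -q) (u := -u) (v := -v) (F := F) (F' := F') (G := G) (G' := G')
      (by linarith) (neg_pos.2 a1) (neg_pos.2 a2) (neg_pos.2 a3) (neg_pos.2 a4) h1 h2 h3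

private theorem phi_aff (A B C : ℝ) (t : ℕ → ℝ) (c b : ℕ) :
    phi A B C t c b = (A * t c + B) * t b + (B * t c + C) := by
  unfold phi
  ring

/-- No two different pairs of consecutive indices have a change of sign. -/
private theorem pair_eq {A B C : ℝ} {r : ℕ} {t : ℕ → ℝ}
    (ht : ∀ i j, i < j → j < r → t i < t j) {c j j' : ℕ} (hj' : j' + 1 < r)
    (h1 : phi A B C t c j * phi A B C t c (j + 1) < 0)
    (h2 : phi A B C t c j' * phi A B C t c (j' + 1) < 0) : ¬ j < j' := by
  intro hlt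
  rw [phi_aff, phi_aff] at h1 h2
  refine one_change (ht j (j + 1) (Nat.lt_succ_self j) (by omega)) ?_
    (ht j' (j' + 1) (Nat.lt_succ_self j') hj') h1 h2
  rcases Nat.eq_or_lt_of_le (Nat.succ_le_of_lt hlt) with h | h
  · exact le_of_eq (congrArg t h)
  · exact (ht (j + 1) j' h (by omega)).le

private theorem order_eq {A B C : ℝ} {r : ℕ} {t : ℕ → ℝ}
    (ht : ∀ i j, i < j → j < r → t i < t j) {c a b b' : ℕ} (hc : c < r) (ha : a < r)
    (hb : b < r) (hb' : b' < r)
    (hs : (c < b ∧ c < b' ∧ a < b ∧ a < b') ∨ (b < c ∧ b' < c ∧ b < a ∧ b' < a))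
    (h1 : phi A B C t c b * phi A B C t c b' < 0)
    (h2 : phi A B C t c b * phi A B C t a b ≤ 0)
    (h3 : phi A B C t c b' * phi A B C t a b' ≤ 0) : False := by
  refine signs (quad A B C (t c) (t a) (t b) (t b')) ?_ h1 h2 h3
  rcases hs with ⟨e1, e2, e3, e4⟩ | ⟨e1, e2, e3, e4⟩
  · left
    exact ⟨sub_pos.2 (ht _ _ e4 hb'), sub_pos.2 (ht _ _ e1 hb), sub_pos.2 (ht _ _ e3 hb),
      sub_pos.2 (ht _ _ e2 hb')⟩
  · right
    exact ⟨sub_neg.2 (ht _ _ e4 ha), sub_neg.2 (ht _ _ e1 hc), sub_neg.2 (ht _ _ e3 ha),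
      sub_neg.2 (ht _ _ e2 hc)⟩

theorem srvAt_le_two {A B C : ℝ} (hd : B ^ 2 ≠ A * C) {r : ℕ} {t : ℕ → ℝ}
    (ht : ∀ i j, i < j → j < r → t i < t j) {c : ℕ} (hc : c < r)
    (h0 : ∀ δ < r, δ ≠ c → phi A B C t c δ ≠ 0) : (srvAt r (phi A B C t) c).card ≤ 2 := by
  classical
  have hmem : ∀ x ∈ srvAt r (phi A B C t) c, x.1 < r ∧ x.2.1 < r ∧ x.2.2 < r ∧
      IsFlag c x.1 x.2.1 x.2.2 ∧ phi A B C t c x.2.1 * phi A B C t c x.2.2 < 0 ∧
        phi A B C t c x.2.1 * phi A B C t x.1 x.2.1 ≤ 0 := by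
    intro x hx
    unfold srvAt at hx
    rw [Finset.mem_filter, Finset.mem_product, Finset.mem_product, Finset.mem_range,
      Finset.mem_range, Finset.mem_range] at hx
    obtain ⟨⟨h1, h2, h3⟩, h4, h5⟩ := hx
    have h6 : x.2.1 ≠ c ∧ x.2.2 ≠ c := by
      obtain ⟨_, _, g⟩ := h4
      omega
    have h7 := h0 _ h2 h6.1
    have h8 := h0 _ h3 h6.2
    rcases h5 with h5 | h5
    · exact absurd h5.1 h7
    · exact ⟨h1, h2, h3, h4, lt_of_le_of_ne h5.2.1 (mul_ne_zero h7 h8), h5.2.2⟩
  have hcard : ({c + 1, c - 1} : Finset ℕ).card ≤ 2 := Finset.card_le_two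
  refine le_trans (Finset.card_le_card_of_injOn (fun x => x.1) ?_ ?_) hcard
  · intro x hx
    obtain ⟨_, _, _, ⟨h4, _, _⟩, _, _⟩ := hmem x hx
    change x.1 ∈ (({c + 1, c - 1} : Finset ℕ) : Set ℕ)
    rw [Finset.mem_coe, Finset.mem_insert, Finset.mem_singleton]
    omega
  · intro x hx y hy hxy
    obtain ⟨h1, h2, h3, ⟨_, h5, h6⟩, h7, h8⟩ := hmem x hx
    obtain ⟨g1, g2, g3, ⟨_, g5, g6⟩, g7, g8⟩ := hmem y hy
    obtain ⟨a, b, b'⟩ := x
    obtain ⟨a1, d, d'⟩ := y
    change a = a1 at hxy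
    subst hxy
    dsimp only at *
    rcases h5 with h5 | h5 <;> rcases g5 with g5 | g5
    · subst h5 g5
      have e1 := pair_eq ht g3 h7 g7
      have e2 := pair_eq ht h3 g7 h7
      have e3 : b = d := by omega
      rw [e3]
    · subst h5 g5
      rw [mul_comm] at g7
      have e1 := pair_eq ht g2 h7 g7
      have e2 := pair_eq ht h3 g7 h7
      have e3 : b = d' := by omega
      subst e3
      exact (order_eq ht hc h1 h2 h3 h6 h7 h8 g8).elim
    · subst h5 g5
      rw [mul_comm] at h7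
      have e1 := pair_eq ht g3 h7 g7
      have e2 := pair_eq ht h2 g7 h7
      have e3 : b' = d := by omega
      subst e3
      rw [mul_comm] at h7
      exact (order_eq ht hc h1 h2 h3 h6 h7 h8 g8).elim
    · subst h5 g5
      rw [mul_comm] at h7 g7
      have e1 := pair_eq ht g2 h7 g7
      have e2 := pair_eq ht h2 g7 h7
      have e3 : b' = d' := by omega
      rw [e3]

end Pool.Agent.SimplC
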