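import Pool.Agent.SimplC.CntA

set_option autoImplicit false

/-! # The corners served on one tangent, general case (CON_Proof.md, 1.4)

The letters are those of `CntA.lean`. If there is no `δ ≠ c`, `δ < r` with `φ (t_δ) = 0`: `srvAt_le_two`. Let `φ (t_δ) = 0`, `δ ≠ c`.
`φ` is affine and not identically zero (`CntA.lean`), so `t_δ` is its only zero and `φ` has opposite signs on the
two sides of `t_δ`. Let `(a', b, b')` be in `srvAt`.
(a) First alternative of `Serves`: `φ (t_b) = 0`, so `b = δ` (`t` is injective on the indices less than `r`), `b' = δ + 1`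
or `b' + 1 = δ`, and `φ (t_b') ψ (t_δ) < 0` with `ψ b = Φ(t_a', b)`. For a given `a'` only one of the two values of `b'` is
possible, since `φ (t_(δ+1))` and `φ (t_(δ-1))` have opposite signs. So there are at most two triples of this kind
(one for each `a'`, `a' = c + 1` or `a' + 1 = c`).
(b) Second alternative: `φ (t_b) ≠ 0`, `φ (t_b) φ (t_b') ≤ 0`. As `b, b'` are consecutive and the only zero of `φ` is
`t_δ`, it follows that `b' = δ` (if `φ (t_b') ≠ 0` then the zero `t_δ` is strictly between `t_b` and `t_b'`, impossible),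
`b = δ + 1` or `b + 1 = δ`, and `φ (t_b) ψ (t_b) ≤ 0`. For a given `a'` only one of the two values of `b` is possible:
otherwise, with `x = t_(δ-1)`, `y = t_(δ+1)`, `φ x` and `φ y` have opposite signs, say `φ x < 0 < φ y` (the other case is
symmetric), so `ψ x ≥ 0`, `ψ y ≤ 0`; `quad` with `a = t_c`, `a' = t_a'`, `b = x`, `b' = y`:
`(y - a') φ x + (x - a) ψ y = (x - a') φ y + (y - a) ψ x`, where the four coefficients have the same sign (the two flags
say that `δ - 1`, `δ`, `δ + 1` are all greater than `c` and `a'`, or all less): the left side has one strict sign and the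
right side the opposite one. So there are at most two triples of this kind. -/

namespace Pool.Agent.SimplC

/-- The contradiction given by `quad`. -/
private theorem quad_contra {A B C α s a a' x y : ℝ} (hα : α ≠ 0) (hxs : x < s) (hsy : s < y)
    (h1 : A * (a * x) + B * (a + x) + C = α * (x - s))
    (h2 : A * (a * y) + B * (a + y) + C = α * (y - s))
    (h3 : 0 ≤ α * (A * (a' * x) + B * (a' + x) + C))
    (h4 : α * (A * (a' * y) + B * (a' + y) + C) ≤ 0)
    (h5 : (a < x ∧ a' < x) ∨ (y < a ∧ y < a')) : False := by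
  have q := quad A B C a a' x y
  rw [h1, h2] at q
  have q' : (y - a') * (α * α * (x - s)) + (x - a) * (α * (A * (a' * y) + B * (a' + y) + C)) =
      (x - a') * (α * α * (y - s)) + (y - a) * (α * (A * (a' * x) + B * (a' + x) + C)) := by
    linear_combination α * q
  have hα2 : 0 < α * α := mul_self_pos.2 hα
  have e1 : α * α * (x - s) < 0 := mul_neg_of_pos_of_neg hα2 (by linarith)
  have e2 : 0 < α * α * (y - s) := mul_pos hα2 (by linarith)
  rcases h5 with ⟨h5, h6⟩ | ⟨h5, h6⟩
  · have t1 := mul_neg_of_pos_of_neg (show 0 < y - a' by linarith) e1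
    have t2 := mul_nonpos_of_nonneg_of_nonpos (show 0 ≤ x - a by linarith) h4
    have t3 := mul_pos (show 0 < x - a' by linarith) e2
    have t4 := mul_nonneg (show 0 ≤ y - a by linarith) h3
    linarith
  · have t1 := mul_pos_of_neg_of_neg (show y - a' < 0 by linarith) e1
    have t2 := mul_nonneg_of_nonpos_of_nonpos (show x - a ≤ 0 by linarith) h4
    have t3 := mul_neg_of_neg_of_pos (show x - a' < 0 by linarith) e2
    have t4 := mul_nonpos_of_nonpos_of_nonneg (show y - a ≤ 0 by linarith) h3
    linarith

/-- Opposite signs on the two sides of the zero. -/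
private theorem sign_contra {α ψ s x y : ℝ} (hxs : x < s) (hsy : s < y)
    (h1 : α * (x - s) * ψ < 0) (h2 : α * (y - s) * ψ < 0) : False := by
  have e1 : (x - s) * (α * ψ) < 0 := by linarith [mul_comm (α * (x - s)) ψ, h1,
    show α * (x - s) * ψ = (x - s) * (α * ψ) by ring]
  have e2 : (y - s) * (α * ψ) < 0 := by
    linarith [show α * (y - s) * ψ = (y - s) * (α * ψ) by ring]
  have e3 : 0 < α * ψ := by
    by_contra h
    rw [not_lt] at h
    have := mul_nonneg_of_nonpos_of_nonpos (show x - s ≤ 0 by linarith) h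
    linarith
  have := mul_pos (show 0 < y - s by linarith) e3
  linarith

theorem srvAt_le_four {A B C : ℝ} (hd : B ^ 2 ≠ A * C) {r : ℕ} {t : ℕ → ℝ}
    (ht : ∀ i j, i < j → j < r → t i < t j) {c : ℕ} (hc : c < r) :
    (srvAt r (phi A B C t) c).card ≤ 4 := by
  classical
  by_cases h0 : ∀ δ < r, δ ≠ c → phi A B C t c δ ≠ 0
  · exact (srvAt_le_two hd ht hc h0).trans (by norm_num)
  push Not at h0
  obtain ⟨δ, hδ, hδc, hδ0⟩ := h0
  obtain ⟨α, hα⟩ : ∃ α, α = A * t c + B := ⟨_, rfl⟩
  have hphi : ∀ b, phi A B C t c b = α * (t b - t δ) := by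
    intro b
    unfold phi at hδ0 ⊢
    rw [hα]
    linear_combination hδ0
  have hα0 : α ≠ 0 := by
    intro h1
    apply hd
    have h2 : A * t c + B = 0 := by rw [← hα, h1]
    have h3 : B * t c + C = 0 := by
      unfold phi at hδ0
      linear_combination hδ0 - t δ * h2
    linear_combination B * h2 - A * h3
  have hα2 : 0 < α * α := mul_self_pos.2 hα0
  have hlt : ∀ i j, i < r → j < r → t i < t j → i < j := by
    intro i j hi hj h
    by_contra hcon
    rw [not_lt] at hcon
    rcases hcon.lt_or_eq with h1 | h1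
    · exact absurd (ht j i h1 hi) (not_lt.2 h.le)
    · rw [h1] at h
      exact lt_irrefl _ h
  have hzero : ∀ b, b < r → phi A B C t c b = 0 → b = δ := by
    intro b hb h
    rw [hphi] at h
    rcases mul_eq_zero.1 h with h1 | h1
    · exact absurd h1 hα0
    · rcases lt_trichotomy b δ with h2 | h2 | h2
      · have := ht b δ h2 hδ
        linarith
      · exact h2
      · have := ht δ b h2 hb
        linarith
  -- the second alternative
  have hsec : ∀ b b', b < r → b' < r → (b' = b + 1 ∨ b = b' + 1) → phi A B C t c b ≠ 0 →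
      phi A B C t c b * phi A B C t c b' ≤ 0 → b' = δ ∧ (b + 1 = δ ∨ b = δ + 1) := by
    intro b b' hb hb' hbb h1 h2
    rw [hphi] at h1
    rw [hphi, hphi] at h2
    have h3 : (t b - t δ) * (t b' - t δ) ≤ 0 := by
      by_contra h4
      rw [not_le] at h4
      have := mul_pos hα2 h4
      linarith [show α * (t b - t δ) * (α * (t b' - t δ)) =
        α * α * ((t b - t δ) * (t b' - t δ)) by ring]
    have hbδ : b ≠ δ := by
      rintro rfl
      apply h1
      rw [sub_self, mul_zero]
    rcases Nat.lt_or_gt_of_ne hbδ with h4 | h4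
    · have h5 := ht b δ h4 hδ
      have h6 : ¬ b' < δ := by
        intro h6
        have h7 := ht b' δ h6 hδ
        have := mul_pos_of_neg_of_neg (show t b - t δ < 0 by linarith)
          (show t b' - t δ < 0 by linarith)
        linarith
      omega
    · have h5 := ht δ b h4 hb
      have h6 : ¬ δ < b' := by
        intro h6
        have h7 := ht δ b' h6 hb'
        have := mul_pos (show 0 < t b - t δ by linarith) (show 0 < t b' - t δ by linarith)
        linarith
      omega
  -- the pair of indices on both sides of the zero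
  have hpair : ∀ a' x y, a' < r → x + 1 = δ → y = δ + 1 → y < r →
      IsFlag c a' x δ → IsFlag c a' y δ →
      phi A B C t c x * phi A B C t a' x ≤ 0 → phi A B C t c y * phi A B C t a' y ≤ 0 →
      False := by
    intro a' x y ha' hx hy hyr hfx hfy h1 h2
    have hxr : x < r := by omega
    have hxs : t x < t δ := ht x δ (by omega) hδ
    have hsy : t δ < t y := ht δ y (by omega) hyr
    rw [hphi] at h1 h2
    refine quad_contra (A := A) (B := B) (C := C) (a := t c) (a' := t a') hα0 hxs hsy
      (hphi x) (hphi y) ?_ ?_ ?_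
    · change 0 ≤ α * phi A B C t a' x
      by_contra h3
      rw [not_le] at h3
      have := mul_pos_of_neg_of_neg (show t x - t δ < 0 by linarith) h3
      linarith [show α * (t x - t δ) * phi A B C t a' x =
        (t x - t δ) * (α * phi A B C t a' x) by ring]
    · change α * phi A B C t a' y ≤ 0
      by_contra h3
      rw [not_le] at h3
      have := mul_pos (show 0 < t y - t δ by linarith) h3
      linarith [show α * (t y - t δ) * phi A B C t a' y =
        (t y - t δ) * (α * phi A B C t a' y) by ring]
    · obtain ⟨-, -, hfx⟩ := hfx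
      obtain ⟨-, -, hfy⟩ := hfy
      rcases hfx with ⟨g1, g2, g3, g4⟩ | ⟨g1, g2, g3, g4⟩
      · exact Or.inl ⟨ht c x g1 hxr, ht a' x g3 hxr⟩
      · right
        rcases hfy with ⟨k1, k2, k3, k4⟩ | ⟨k1, k2, k3, k4⟩
        · omega
        · exact ⟨ht y c k1 hc, ht y a' k3 ha'⟩
  have hcard : (Finset.univ : Finset (Bool × Bool)).card = 4 := by decide
  rw [← hcard]
  refine Finset.card_le_card_of_injOn
    (fun x => (decide (x.1 = c + 1), decide (phi A B C t c x.2.1 = 0)))
    (fun x _ => Finset.mem_coe.2 (Finset.mem_univ _)) ?_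
  rintro ⟨a1, b1, b1'⟩ hx ⟨a2, b2, b2'⟩ hy hxy
  unfold srvAt at hx hy
  simp only [Finset.coe_filter, Finset.mem_product, Finset.mem_range, Set.mem_ofPred_eq] at hx hy
  obtain ⟨⟨ha1, hb1, hb1'⟩, hf1, hs1⟩ := hx
  obtain ⟨⟨ha2, hb2, hb2'⟩, hf2, hs2⟩ := hy
  simp only [Prod.mk.injEq, decide_eq_decide] at hxy
  obtain ⟨hxy1, hxy2⟩ := hxy
  have haa : a1 = a2 := by
    rcases hf1.1 with h1 | h1 <;> rcases hf2.1 with h2 | h2
    · omega
    · have := hxy1.1 h1
      omega
    · have := hxy1.2 h2
      omega
    · omega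
  subst haa
  by_cases hz : phi A B C t c b1 = 0
  · have hz2 := hxy2.1 hz
    have e1 := hzero b1 hb1 hz
    have e2 := hzero b2 hb2 hz2
    subst e1
    subst e2
    have hs1' : phi A B C t c b1' * phi A B C t a1 b2 < 0 := by
      rcases hs1 with h | h
      · exact h.2
      · exact absurd hz h.1
    have hs2' : phi A B C t c b2' * phi A B C t a1 b2 < 0 := by
      rcases hs2 with h | h
      · exact h.2
      · exact absurd hz h.1
    rw [hphi] at hs1' hs2'
    have hbb : b1' = b2' := by
      rcases hf1.2.1 with h1 | h1 <;> rcases hf2.2.1 with h2 | h2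
      · omega
      · exact (sign_contra (ht b2' b2 (by omega) hb2) (ht b2 b1' (by omega) hb1') hs2'
          hs1').elim
      · exact (sign_contra (ht b1' b2 (by omega) hb2) (ht b2 b2' (by omega) hb2') hs1'
          hs2').elim
      · omega
    rw [hbb]
  · have hz2 : ¬ phi A B C t c b2 = 0 := fun h => hz (hxy2.2 h)
    have hs1' : phi A B C t c b1 * phi A B C t c b1' ≤ 0 ∧
        phi A B C t c b1 * phi A B C t a1 b1 ≤ 0 := by
      rcases hs1 with h | h
      · exact absurd h.1 hz
      · exact h.2
    have hs2' : phi A B C t c b2 * phi A B C t c b2' ≤ 0 ∧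
        phi A B C t c b2 * phi A B C t a1 b2 ≤ 0 := by
      rcases hs2 with h | h
      · exact absurd h.1 hz2
      · exact h.2
    obtain ⟨e1, e1'⟩ := hsec b1 b1' hb1 hb1' hf1.2.1 hz hs1'.1
    obtain ⟨e2, e2'⟩ := hsec b2 b2' hb2 hb2' hf2.2.1 hz2 hs2'.1
    subst e1
    subst e2
    have hbb : b1 = b2 := by
      rcases e1' with h1 | h1 <;> rcases e2' with h2 | h2
      · omega
      · exact (hpair a1 b1 b2 ha1 h1 h2 hb2 hf1 hf2 hs1'.2 hs2'.2).elim
      · exact (hpair a1 b2 b1 ha1 h2 h1 hb1 hf2 hf1 hs2'.2 hs1'.2).elim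
      · omega
    rw [hbb]

end Pool.Agent.SimplC
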