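import Pool.Agent.SimplC.Nxt

set_option autoImplicit false

/-! # Few maps preserve the cyclic order and nearly a set (CON_Proof.md, 3.1)

Let `nx` be as in `exists_next`; it maps `P` into `P` injectively, so it is a bijection of `P`. For `g ∈ G` let
`P_g = {p ∈ P : g p ∈ P}` (`|P \ P_g| ≤ m`) and let `good g` be the set of the `p ∈ P` with `g p, g (nx p), g (nx (nx p)) ∈ P`,
`g (nx p) = nx (g p)` and `g (nx (nx p)) = nx (g (nx p))`.
(1) `|P| - 5 m ≤ |good g|`: the sets of the `p ∈ P` with `g p ∉ P`, `g (nx p) ∉ P`, `g (nx (nx p)) ∉ P` have at most `m` elements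
each (`nx` is injective on `P`). Let `B` be the set of the `p ∈ P` with `g p, g (nx p) ∈ P`, `g (nx p) ≠ nx (g p)`. For `p ∈ B` let
`q = nx (g p) ∈ P`; `q ≠ g p`, `g (nx p) ≠ g p` (`g` injective), `q ≠ g (nx p)`; `total` for `g p, q, g (nx p)`: `c (g p) (g (nx p)) q` is
excluded (`g (nx p) ∈ P`, property of `q = nx (g p)`), so `c (g p) q (g (nx p))`. Then `g⁻¹ q ∉ P`: otherwise not
`c p (g⁻¹ q) (nx p)`, `g⁻¹ q ≠ p, nx p`, so by `total` `c p (nx p) (g⁻¹ q)` and, as `g` preserves `c`, `c (g p) (g (nx p)) q`, a contradiction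
to `asymm`. So `p ↦ nx (g p)` maps `B` injectively into `{q ∈ P : g⁻¹ q ∉ P}`, and
`|{q ∈ P : g⁻¹ q ∉ P}| = |P \ g P| = |P| - |P ∩ g P| = |P| - |P_g| ≤ m`. So `|B| ≤ m`, and the number of the `p ∈ P` with
`nx p ∈ B` is at most `m` too. `P \ good g` is contained in the union of the five sets.
(2) The map `(g, p) ↦ (p, g p)`, `g ∈ G`, `p ∈ good g`, with values in `P × P` is injective: if `(p, g p) = (p, h p)` then
`g (nx p) = nx (g p) = nx (h p) = h (nx p)` and `g (nx (nx p)) = nx (g (nx p)) = h (nx (nx p))`, and `p, nx p, nx (nx p)` are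
different (`exists_next`), so `g = h` (`hG2`). So `|G| (|P| - 5 m) ≤ ∑ |good g| ≤ |P|²`. -/

namespace Pool.Agent.SimplC

private theorem card_symm {X : Type} [DecidableEq X] (P : Finset X) (g : Equiv.Perm X) :
    (P.filter fun q => g.symm q ∉ P).card = (P.filter fun p => g p ∉ P).card := by
  have h1 := Finset.card_filter_add_card_filter_not (s := P) (fun q => g.symm q ∈ P)
  have h2 := Finset.card_filter_add_card_filter_not (s := P) (fun p => g p ∈ P)
  have h3 : (P.filter fun q => g.symm q ∈ P).card = (P.filter fun p => g p ∈ P).card := by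
    refine Finset.card_nbij' (fun q => g.symm q) (fun p => g p) ?_ ?_ ?_ ?_
    · intro q hq
      simp only [Finset.coe_filter, Set.mem_ofPred_eq] at hq ⊢
      exact ⟨hq.2, by simpa using hq.1⟩
    · intro q hq
      simp only [Finset.coe_filter, Set.mem_ofPred_eq] at hq ⊢
      exact ⟨hq.2, by simpa using hq.1⟩
    · intro q _
      simp
    · intro q _
      simp
  omega

private theorem card_nx_le {X : Type} [DecidableEq X] (P : Finset X) (nx : X → X)
    (h1 : ∀ p ∈ P, nx p ∈ P) (hinj : ∀ p ∈ P, ∀ q ∈ P, nx p = nx q → p = q)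
    (r : X → Prop) [DecidablePred r] :
    (P.filter fun p => r (nx p)).card ≤ (P.filter r).card := by
  refine Finset.card_le_card_of_injOn nx ?_ ?_
  · intro p hp
    simp only [Finset.coe_filter, Set.mem_ofPred_eq] at hp ⊢
    exact ⟨h1 p hp.1, hp.2⟩
  · intro p hp q hq h
    simp only [Finset.coe_filter, Set.mem_ofPred_eq] at hp hq
    exact hinj p hp.1 q hq.1 h

theorem cyc_count {X : Type} [DecidableEq X] {c : X → X → X → Prop} (hc : CycOrd c)
    (P : Finset X) (hP : 3 ≤ P.card) (G : Finset (Equiv.Perm X))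
    (hG1 : ∀ g ∈ G, ∀ x y z, c x y z → c (g x) (g y) (g z))
    (hG2 : ∀ g ∈ G, ∀ h ∈ G, ∀ x y z, x ≠ y → y ≠ z → z ≠ x → g x = h x → g y = h y →
      g z = h z → g = h) (m : ℕ) (hm : ∀ g ∈ G, (P.filter fun p => g p ∉ P).card ≤ m) :
    (G.card : ℤ) * ((P.card : ℤ) - 5 * m) ≤ (P.card : ℤ) ^ 2 := by
  obtain ⟨nx, h1, -, hinj, htwo⟩ := exists_next hc P hP
  have hnP : ∀ p ∈ P, nx p ∈ P := fun p hp => (h1 p hp).1
  let good : Equiv.Perm X → Finset X := fun g => P.filter fun p =>
    g p ∈ P ∧ g (nx p) ∈ P ∧ g (nx p) = nx (g p) ∧ g (nx (nx p)) = nx (g (nx p))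
  -- first part
  have hgood : ∀ g ∈ G, (P.card : ℤ) - 5 * m ≤ (good g).card := by
    intro g hg
    have hA0 := hm g hg
    have hA1 : (P.filter fun p => g (nx p) ∉ P).card ≤ m :=
      (card_nx_le P nx hnP hinj (fun x => g x ∉ P)).trans hA0
    have hA2 : (P.filter fun p => g (nx (nx p)) ∉ P).card ≤ m :=
      (card_nx_le P nx hnP hinj (fun x => g (nx x) ∉ P)).trans hA1
    have hB : (P.filter fun p => g p ∈ P ∧ g (nx p) ∈ P ∧ g (nx p) ≠ nx (g p)).card ≤ m := by
      refine le_trans ?_ hA0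
      rw [← card_symm P g]
      refine Finset.card_le_card_of_injOn (fun p => nx (g p)) ?_ ?_
      · intro p hp
        simp only [Finset.coe_filter, Set.mem_ofPred_eq] at hp ⊢
        obtain ⟨hp, hgp, hgn, hne⟩ := hp
        refine ⟨hnP _ hgp, fun hr => ?_⟩
        obtain ⟨-, hn1, hn2⟩ := h1 p hp
        obtain ⟨hq0, hq1, hq2⟩ := h1 (g p) hgp
        have hpn : g (nx p) ≠ g p := fun h => hn1 (g.injective h)
        have hc1 : c (g p) (nx (g p)) (g (nx p)) := by
          rcases hc.total (g p) (nx (g p)) (g (nx p)) hq1.symm hne.symm hpn with h | h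
          · exact h
          · exact absurd h (hq2 _ hgn)
        have hgr : g (g.symm (nx (g p))) = nx (g p) := g.apply_symm_apply _
        have hr1 : g.symm (nx (g p)) ≠ p := by
          intro h
          rw [h] at hgr
          exact hq1 hgr.symm
        have hr2 : nx p ≠ g.symm (nx (g p)) := by
          intro h
          rw [← h] at hgr
          exact hne hgr
        have hc2 : c p (nx p) (g.symm (nx (g p))) := by
          rcases hc.total p (nx p) (g.symm (nx (g p))) hn1.symm hr2 hr1 with h | h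
          · exact h
          · exact absurd h (hn2 _ hr)
        have hc3 := hG1 g hg _ _ _ hc2
        rw [hgr] at hc3
        exact hc.asymm _ _ _ hc3 hc1
      · intro p hp q hq h
        simp only [Finset.coe_filter, Set.mem_ofPred_eq] at hp hq
        exact g.injective (hinj _ hp.2.1 _ hq.2.1 h)
    have hB1 : (P.filter fun p => g (nx p) ∈ P ∧ g (nx (nx p)) ∈ P ∧
        g (nx (nx p)) ≠ nx (g (nx p))).card ≤ m :=
      (card_nx_le P nx hnP hinj
        (fun x => g x ∈ P ∧ g (nx x) ∈ P ∧ g (nx x) ≠ nx (g x))).trans hB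
    have hsub : P ⊆ good g ∪ ((P.filter fun p => g p ∉ P) ∪ ((P.filter fun p => g (nx p) ∉ P) ∪
        ((P.filter fun p => g (nx (nx p)) ∉ P) ∪
        ((P.filter fun p => g p ∈ P ∧ g (nx p) ∈ P ∧ g (nx p) ≠ nx (g p)) ∪
        (P.filter fun p => g (nx p) ∈ P ∧ g (nx (nx p)) ∈ P ∧
          g (nx (nx p)) ≠ nx (g (nx p))))))) := by
      intro p hp
      simp only [good, Finset.mem_union, Finset.mem_filter]
      tauto
    have hcard := Finset.card_le_card hsub
    have hu1 := Finset.card_union_le (good g) ((P.filter fun p => g p ∉ P) ∪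
        ((P.filter fun p => g (nx p) ∉ P) ∪ ((P.filter fun p => g (nx (nx p)) ∉ P) ∪
        ((P.filter fun p => g p ∈ P ∧ g (nx p) ∈ P ∧ g (nx p) ≠ nx (g p)) ∪
        (P.filter fun p => g (nx p) ∈ P ∧ g (nx (nx p)) ∈ P ∧
          g (nx (nx p)) ≠ nx (g (nx p)))))))
    have hu2 := Finset.card_union_le (P.filter fun p => g p ∉ P)
        ((P.filter fun p => g (nx p) ∉ P) ∪ ((P.filter fun p => g (nx (nx p)) ∉ P) ∪
        ((P.filter fun p => g p ∈ P ∧ g (nx p) ∈ P ∧ g (nx p) ≠ nx (g p)) ∪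
        (P.filter fun p => g (nx p) ∈ P ∧ g (nx (nx p)) ∈ P ∧
          g (nx (nx p)) ≠ nx (g (nx p))))))
    have hu3 := Finset.card_union_le (P.filter fun p => g (nx p) ∉ P)
        ((P.filter fun p => g (nx (nx p)) ∉ P) ∪
        ((P.filter fun p => g p ∈ P ∧ g (nx p) ∈ P ∧ g (nx p) ≠ nx (g p)) ∪
        (P.filter fun p => g (nx p) ∈ P ∧ g (nx (nx p)) ∈ P ∧
          g (nx (nx p)) ≠ nx (g (nx p)))))
    have hu4 := Finset.card_union_le (P.filter fun p => g (nx (nx p)) ∉ P)
        ((P.filter fun p => g p ∈ P ∧ g (nx p) ∈ P ∧ g (nx p) ≠ nx (g p)) ∪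
        (P.filter fun p => g (nx p) ∈ P ∧ g (nx (nx p)) ∈ P ∧
          g (nx (nx p)) ≠ nx (g (nx p))))
    have hu5 := Finset.card_union_le
        (P.filter fun p => g p ∈ P ∧ g (nx p) ∈ P ∧ g (nx p) ≠ nx (g p))
        (P.filter fun p => g (nx p) ∈ P ∧ g (nx (nx p)) ∈ P ∧
          g (nx (nx p)) ≠ nx (g (nx p)))
    omega
  -- second part
  have hsum : ∑ g ∈ G, (good g).card ≤ P.card ^ 2 := by
    rw [← Finset.card_sigma, sq, ← Finset.card_product]
    refine Finset.card_le_card_of_injOn (fun x => (x.2, x.1 x.2)) ?_ ?_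
    · rintro ⟨g, p⟩ hx
      simp only [Finset.coe_sigma, Set.mem_sigma_iff, Finset.mem_coe, good,
        Finset.mem_filter] at hx
      simp only [Finset.coe_product, Set.mem_prod, Finset.mem_coe]
      exact ⟨hx.2.1, hx.2.2.1⟩
    · rintro ⟨g, p⟩ hx ⟨h, q⟩ hy hxy
      simp only [Finset.coe_sigma, Set.mem_sigma_iff, Finset.mem_coe, good,
        Finset.mem_filter] at hx hy
      simp only [Prod.mk.injEq] at hxy
      obtain ⟨rfl, hgh⟩ := hxy
      obtain ⟨hg, hp, hgp, hgn, e1, e2⟩ := hx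
      obtain ⟨hh, -, hhp, hhn, e3, e4⟩ := hy
      have f1 : g (nx p) = h (nx p) := by rw [e1, e3, hgh]
      have f2 : g (nx (nx p)) = h (nx (nx p)) := by rw [e2, e4, f1]
      have := hG2 g hg h hh p (nx p) (nx (nx p)) (h1 p hp).2.1.symm
        (h1 (nx p) (hnP p hp)).2.1.symm (htwo p hp) hgh f1 f2
      subst this
      rfl
  have h3 : (G.card : ℤ) * ((P.card : ℤ) - 5 * m) ≤ ∑ g ∈ G, ((good g).card : ℤ) := by
    rw [← nsmul_eq_mul, ← Finset.sum_const]
    exact Finset.sum_le_sum hgood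
  refine h3.trans ?_
  exact_mod_cast hsum

end Pool.Agent.SimplC
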