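import Pool.Agent.SimplC.Defs

set_option autoImplicit false

/-! # Three points determine an element of the Lorentz group (CON_Proof.md, 2.3)

Let `k = h⁻¹ * g`; `k • x = x`, `k • y = y`, `k • z = z` (`mul_smul`). By `smul_spec` `k (nul x) = λ • nul x`, `k (nul y) = μ • nul y`,
`k (nul z) = ν • nul z` with positive `λ, μ, ν`. For `x ≠ y` `bf (nul x) (nul y) = Re (x conj y) - 1 ≠ 0` (it is
`-|x - y|² / 2`), and `k` preserves `bf`: `λ μ = 1`, in the same way `λ ν = 1`, `μ ν = 1`; so `λ² = 1`, `λ = μ = ν = 1`. The vectors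
`nul x, nul y, nul z` are linearly independent (if `a nul x + b nul y + c nul z = 0`, take `bf` with `nul x`, `nul y`,
`nul z`: `b X + c Y = 0`, `a X + c Z = 0`, `a Y + b Z = 0` with `X = bf (nul x) (nul y)`, `Y = bf (nul x) (nul z)`,
`Z = bf (nul y) (nul z)` non-zero, so `2 X Y Z a = 0` etc.), so they are a basis of `ℂ × ℝ` (`finrank_CR`), and `k` is the
identity on it: `k = 1`, `g = h`. -/

namespace Pool.Agent.SimplC

open Complex Module ComplexConjugate Pool.Agent.Simpl

theorem bf_nul_ne {x y : Circle} (h : x ≠ y) : bf (nul x) (nul y) < 0 := by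
  have h1 := circle_sq x
  have h2 := circle_sq y
  rw [bf_def, nul_fst, nul_fst, nul_snd, nul_snd]
  have h3 : 0 < ((x : ℂ).re - (y : ℂ).re) ^ 2 + ((x : ℂ).im - (y : ℂ).im) ^ 2 := by
    rcases eq_or_ne (x : ℂ).re (y : ℂ).re with h4 | h4
    · have h5 : (x : ℂ).im ≠ (y : ℂ).im := fun h5 => h (Circle.ext (Complex.ext h4 h5))
      have h6 := sub_ne_zero.2 h5
      positivity
    · have h6 := sub_ne_zero.2 h4
      positivity
  nlinarith

private theorem ratio {g h : Lor} {x : Circle} (h1 : g • x = h • x) :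
    ∃ c : ℝ, 0 < c ∧ g.1 (nul x) = c • h.1 (nul x) := by
  obtain ⟨a, ha, ea⟩ := smul_spec g x
  obtain ⟨b, hb, eb⟩ := smul_spec h x
  refine ⟨a / b, div_pos ha hb, ?_⟩
  rw [ea, eb, smul_smul, div_mul_cancel₀ _ hb.ne', h1]

private theorem ratio_mul {g h : Lor} {x y : Circle} (hxy : x ≠ y) {l m : ℝ}
    (el : g.1 (nul x) = l • h.1 (nul x)) (em : g.1 (nul y) = m • h.1 (nul y)) : l * m = 1 := by
  have h1 := Lor_bf g (nul x) (nul y)
  rw [el, em, bf_smul_left, bf_smul_right, Lor_bf] at h1
  have h2 := bf_nul_ne hxy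
  have h3 : (l * m - 1) * bf (nul x) (nul y) = 0 := by linear_combination h1
  rcases mul_eq_zero.1 h3 with h4 | h4
  · linarith
  · exact absurd h4 h2.ne

private theorem nul_indep {x y z : Circle} (hxy : x ≠ y) (hyz : y ≠ z) (hzx : z ≠ x) :
    LinearIndependent ℝ ![nul x, nul y, nul z] := by
  rw [Fintype.linearIndependent_iff]
  intro c hc
  rw [Fin.sum_univ_three] at hc
  change c 0 • nul x + c 1 • nul y + c 2 • nul z = 0 at hc
  have hX := (bf_nul_ne hxy).ne
  have hY := (bf_nul_ne hzx.symm).ne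
  have hZ := (bf_nul_ne hyz).ne
  have f : ∀ w : Circle, c 0 * bf (nul x) (nul w) + c 1 * bf (nul y) (nul w) +
      c 2 * bf (nul z) (nul w) = 0 := by
    intro w
    rw [← bf_smul_left, ← bf_smul_left, ← bf_smul_left, ← bf_add_left, ← bf_add_left, hc]
    simp [bf_def]
  have f1 := f x
  have f2 := f y
  have f3 := f z
  rw [bf_nul_nul, bf_comm (nul y) (nul x), bf_comm (nul z) (nul x)] at f1
  rw [bf_nul_nul, bf_comm (nul z) (nul y)] at f2
  rw [bf_nul_nul] at f3
  generalize bf (nul x) (nul y) = X at *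
  generalize bf (nul x) (nul z) = Y at *
  generalize bf (nul y) (nul z) = Z at *
  have g0 : c 0 * (2 * X * Y) = 0 := by linear_combination (-Z) * f1 + Y * f2 + X * f3
  have g1 : c 1 * (2 * X * Z) = 0 := by linear_combination Z * f1 + (-Y) * f2 + X * f3
  have g2 : c 2 * (2 * Y * Z) = 0 := by linear_combination Z * f1 + Y * f2 + (-X) * f3
  intro i
  fin_cases i
  · exact (mul_eq_zero.1 g0).resolve_right (by positivity)
  · exact (mul_eq_zero.1 g1).resolve_right (by positivity)
  · exact (mul_eq_zero.1 g2).resolve_right (by positivity)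

theorem three_points {g h : Lor} {x y z : Circle} (hxy : x ≠ y) (hyz : y ≠ z) (hzx : z ≠ x)
    (h1 : g • x = h • x) (h2 : g • y = h • y) (h3 : g • z = h • z) : g = h := by
  obtain ⟨l, hl, el⟩ := ratio h1
  obtain ⟨m, hm, em⟩ := ratio h2
  obtain ⟨n, hn, en⟩ := ratio h3
  have e1 := ratio_mul hxy el em
  have e2 := ratio_mul hyz em en
  have e3 := ratio_mul hzx en el
  have hln : l = m := by
    have : m * n = n * l := e2.trans e3.symm
    have h5 : n * (m - l) = 0 := by linear_combination this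
    rcases mul_eq_zero.1 h5 with h6 | h6
    · exact absurd h6 hn.ne'
    · linarith
  have hmn : m = n := by
    have h5 : l * (m - n) = 0 := by linear_combination e1 - e3
    rcases mul_eq_zero.1 h5 with h6 | h6
    · exact absurd h6 hl.ne'
    · linarith
  subst hln
  subst hmn
  have hl1 : l = 1 := by nlinarith
  subst hl1
  rw [one_smul] at el em en
  have hli := nul_indep hxy hyz hzx
  have hb : Fintype.card (Fin 3) = finrank ℝ (ℂ × ℝ) := by
    rw [finrank_CR, Fintype.card_fin]
  have key : (g.1 : (ℂ × ℝ) →ₗ[ℝ] (ℂ × ℝ)) = (h.1 : (ℂ × ℝ) →ₗ[ℝ] (ℂ × ℝ)) := by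
    refine (basisOfLinearIndependentOfCardEqFinrank hli hb).ext fun i => ?_
    rw [coe_basisOfLinearIndependentOfCardEqFinrank]
    fin_cases i
    · exact el
    · exact em
    · exact en
  exact Subtype.ext (LinearEquiv.toLinearMap_injective key)

end Pool.Agent.SimplC
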