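import Pool.Agent.SimplC.Ori
import Pool.Agent.SimplC.Three
import Pool.Agent.SimplC.Cyc

set_option autoImplicit false

/-! # Few elements of the Lorentz group nearly preserve a finite set (CON_Proof.md, 3.3)

Apply `cyc_count` to `cyc` (`cycOrd_cyc`), `P` and the image of `G` under `MulAction.toPerm :
Lor → Equiv.Perm Circle`; this map is injective: if `g • x = h • x` for all `x`, take three
different points (`P` has three elements, or `exists_cyc`) and `three_points`. `hG1`:
`cyc_smul`; `hG2`: `three_points`; `hm`: `dfc P g` is the number in question. -/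

namespace Pool.Agent.SimplC

open Complex Module ComplexConjugate Pool.Agent.Simpl

theorem count_lor {P : Finset Circle} (hP : 3 ≤ P.card) (m : ℕ) (G : Finset Lor)
    (hG : ∀ g ∈ G, g ∈ LorP ∧ dfc P g ≤ m) :
    (G.card : ℤ) * ((P.card : ℤ) - 5 * m) ≤ (P.card : ℤ) ^ 2 := by
  classical
  obtain ⟨x, -, y, -, z, -, hxy, hxz, hyz⟩ := Finset.two_lt_card.1 (show 2 < P.card from hP)
  have happ : ∀ (g : Lor) (w : Circle), MulAction.toPermHom Lor Circle g w = g • w :=
    fun g w => rfl
  have hinj : Function.Injective (MulAction.toPermHom Lor Circle) := by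
    intro g h e
    have e1 : ∀ w : Circle, g • w = h • w := fun w => by rw [← happ, ← happ, e]
    exact three_points hxy hyz hxz.symm (e1 x) (e1 y) (e1 z)
  have key := cyc_count cycOrd_cyc P hP (G.image (MulAction.toPermHom Lor Circle)) ?_ ?_ m ?_
  · rwa [Finset.card_image_of_injective _ hinj] at key
  · intro g hg x y z h
    obtain ⟨g, hg', rfl⟩ := Finset.mem_image.1 hg
    exact cyc_smul (hG g hg').1 h
  · intro g hg h hh x y z h1 h2 h3 h4 h5 h6
    obtain ⟨g, -, rfl⟩ := Finset.mem_image.1 hg
    obtain ⟨h, -, rfl⟩ := Finset.mem_image.1 hh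
    exact congrArg _ (three_points h1 h2 h3 h4 h5 h6)
  · intro g hg
    obtain ⟨g, hg', rfl⟩ := Finset.mem_image.1 hg
    have h1 := (hG g hg').2
    unfold dfc at h1
    convert h1 using 2
    rfl

end Pool.Agent.SimplC
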