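import Mathlib

set_option autoImplicit false

/-! # Cyclic orders (definition) -/

namespace Pool.Agent.SimplC

/-- A strict cyclic order. -/
structure CycOrd {X : Type} (c : X → X → X → Prop) : Prop where
  rot : ∀ x y z, c x y z → c y z x
  asymm : ∀ x y z, c x y z → ¬ c x z y
  total : ∀ x y z, x ≠ y → y ≠ z → z ≠ x → c x y z ∨ c x z y
  trans : ∀ p x y z, c p x y → c p y z → c p x z

end Pool.Agent.SimplC
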