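import Pool.Agent.Simpl.PBasic

set_option autoImplicit false

/-! # Simplicial arrangements with many lines tangent to a conic: definitions

Paper proof: `/team-store/CON_Proof.md` (section numbers in the docstrings of the other files).
`V = ℂ × ℝ`, the conic is the cone `|z|² = t²`, its tangents are the planes `tang 1 w`. -/

namespace Pool.Agent.SimplC

open Complex Module ComplexConjugate Pool.Agent.Simpl

/-- The symmetric form of signature `(2, 1)`. -/
def bf (x y : ℂ × ℝ) : ℝ := (x.1 * conj y.1).re - x.2 * y.2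

/-- The null vector over a point of the circle. -/
noncomputable def nul (w : Circle) : ℂ × ℝ := ((w : ℂ), 1)

theorem bf_def (x y : ℂ × ℝ) : bf x y = x.1.re * y.1.re + x.1.im * y.1.im - x.2 * y.2 := by
  unfold bf
  rw [Complex.mul_re, Complex.conj_re, Complex.conj_im]
  ring

theorem bf_comm (x y : ℂ × ℝ) : bf x y = bf y x := by
  rw [bf_def, bf_def]
  ring

theorem bf_add_left (x x' y : ℂ × ℝ) : bf (x + x') y = bf x y + bf x' y := by
  simp only [bf_def, Prod.fst_add, Prod.snd_add, Complex.add_re, Complex.add_im]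
  ring

theorem bf_add_right (x y y' : ℂ × ℝ) : bf x (y + y') = bf x y + bf x y' := by
  rw [bf_comm, bf_add_left, bf_comm y, bf_comm y']

theorem bf_smul_left (c : ℝ) (x y : ℂ × ℝ) : bf (c • x) y = c * bf x y := by
  simp only [bf_def, Prod.smul_fst, Prod.smul_snd, Complex.smul_re, Complex.smul_im, smul_eq_mul]
  ring

theorem bf_smul_right (c : ℝ) (x y : ℂ × ℝ) : bf x (c • y) = c * bf x y := by
  rw [bf_comm, bf_smul_left, bf_comm]

theorem bf_neg_left (x y : ℂ × ℝ) : bf (-x) y = -bf x y := by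
  rw [← neg_one_smul ℝ x, bf_smul_left]
  ring

theorem bf_neg_right (x y : ℂ × ℝ) : bf x (-y) = -bf x y := by
  rw [bf_comm, bf_neg_left, bf_comm]

theorem bf_sub_left (x x' y : ℂ × ℝ) : bf (x - x') y = bf x y - bf x' y := by
  rw [sub_eq_add_neg, bf_add_left, bf_neg_left, sub_eq_add_neg]

theorem bf_sub_right (x y y' : ℂ × ℝ) : bf x (y - y') = bf x y - bf x y' := by
  rw [bf_comm, bf_sub_left, bf_comm y, bf_comm y']

theorem bf_nondeg {x : ℂ × ℝ} (h : ∀ y, bf x y = 0) : x = 0 := by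
  have h1 := h ((1 : ℂ), 0)
  have h2 := h (Complex.I, 0)
  have h3 := h ((0 : ℂ), 1)
  simp only [bf_def, Complex.one_re, Complex.one_im, Complex.I_re, Complex.I_im, Complex.zero_re,
    Complex.zero_im] at h1 h2 h3
  refine Prod.ext (Complex.ext ?_ ?_) ?_
  · simpa using h1
  · simpa using h2
  · simpa using h3

theorem nul_fst (w : Circle) : (nul w).1 = (w : ℂ) := rfl

theorem nul_snd (w : Circle) : (nul w).2 = 1 := rfl

theorem circle_sq (w : Circle) : (w : ℂ).re ^ 2 + (w : ℂ).im ^ 2 = 1 := by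
  have h := Circle.normSq_coe w
  rw [Complex.normSq_apply] at h
  linear_combination h

theorem bf_nul_nul (w : Circle) : bf (nul w) (nul w) = 0 := by
  rw [bf_def, nul_fst, nul_snd]
  linear_combination circle_sq w

theorem mem_tang_iff {w : Circle} {x : ℂ × ℝ} : x ∈ tang 1 w ↔ bf x (nul w) = 0 := by
  rw [mem_tang, one_mul, bf, nul_fst, nul_snd, mul_one, sub_eq_zero]

theorem nul_inj {w w' : Circle} {c : ℝ} (h : nul w = c • nul w') : c = 1 ∧ w = w' := by
  have h1 := congrArg Prod.snd h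
  have h2 := congrArg Prod.fst h
  rw [Prod.smul_snd, nul_snd, nul_snd, smul_eq_mul, mul_one] at h1
  rw [Prod.smul_fst, nul_fst, nul_fst, ← h1, one_smul] at h2
  exact ⟨h1.symm, Circle.ext h2⟩

/-- Null vectors of positive height. -/
theorem exists_nul {x : ℂ × ℝ} (h : bf x x = 0) (h2 : 0 < x.2) :
    ∃ w : Circle, x = x.2 • nul w := by
  rw [bf_def] at h
  have h3 : Complex.normSq (x.1 / (x.2 : ℂ)) = 1 := by
    rw [Complex.normSq_div, Complex.normSq_ofReal, Complex.normSq_apply, div_eq_one_iff_eq]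
    · linear_combination h
    · positivity
  have h4 : ‖x.1 / (x.2 : ℂ)‖ = 1 := by
    rw [Complex.norm_def, h3, Real.sqrt_one]
  refine ⟨⟨x.1 / (x.2 : ℂ), mem_sphere_zero_iff_norm.2 h4⟩, ?_⟩
  have h5 : (x.2 : ℂ) ≠ 0 := by exact_mod_cast h2.ne'
  refine Prod.ext ?_ ?_
  · change x.1 = x.2 • (x.1 / (x.2 : ℂ))
    rw [Complex.real_smul, mul_div_cancel₀ _ h5]
  · change x.2 = x.2 • (1 : ℝ)
    rw [smul_eq_mul, mul_one]

/-- The Lorentz group: the automorphisms of `ℂ × ℝ` which preserve the form and the upper cone. -/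
def Lor : Subgroup ((ℂ × ℝ) ≃ₗ[ℝ] (ℂ × ℝ)) where
  carrier := {g | (∀ x y, bf (g x) (g y) = bf x y) ∧ ∀ w : Circle, 0 < (g (nul w)).2}
  mul_mem' := by
    rintro g h ⟨hg1, hg2⟩ ⟨hh1, hh2⟩
    refine ⟨fun x y => by rw [LinearEquiv.mul_apply, LinearEquiv.mul_apply, hg1, hh1],
      fun w => ?_⟩
    obtain ⟨w', hw'⟩ := exists_nul (x := h (nul w)) (by rw [hh1, bf_nul_nul]) (hh2 w)
    rw [LinearEquiv.mul_apply, hw', map_smul, Prod.smul_snd, smul_eq_mul]
    exact mul_pos (hh2 w) (hg2 w')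
  one_mem' := ⟨fun x y => rfl, fun w => by
    rw [LinearEquiv.coe_one, id_eq, nul_snd]
    exact one_pos⟩
  inv_mem' := by
    rintro g ⟨hg1, hg2⟩
    have h1 : ∀ x, g (g⁻¹ x) = x := fun x => g.apply_symm_apply x
    have h2 : ∀ x y, bf (g⁻¹ x) (g⁻¹ y) = bf x y := fun x y => by rw [← hg1, h1, h1]
    refine ⟨h2, fun w => ?_⟩
    have h3 : bf (g⁻¹ (nul w)) (g⁻¹ (nul w)) = 0 := by rw [h2, bf_nul_nul]
    have h9 := h1 (nul w)
    generalize g⁻¹ (nul w) = y at h3 h9 ⊢
    rcases lt_trichotomy 0 y.2 with h4 | h4 | h4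
    · exact h4
    · exfalso
      rw [bf_def, ← h4] at h3
      have h5 : y.1.re = 0 := by nlinarith [sq_nonneg y.1.re, sq_nonneg y.1.im]
      have h6 : y.1.im = 0 := by nlinarith [sq_nonneg y.1.re, sq_nonneg y.1.im]
      have h7 : y = 0 := Prod.ext (Complex.ext h5 h6) h4.symm
      rw [h7, map_zero] at h9
      exact zero_ne_one (congrArg Prod.snd h9)
    · exfalso
      obtain ⟨w', hw'⟩ := exists_nul (x := -y) (by
        rw [bf_neg_left, bf_neg_right, h3, neg_zero, neg_zero]) (by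
        rw [Prod.snd_neg]
        linarith)
      rw [← neg_neg y, hw', map_neg, map_smul] at h9
      have h6 := congrArg Prod.snd h9
      rw [Prod.snd_neg, Prod.smul_snd, nul_snd, Prod.snd_neg, smul_eq_mul] at h6
      nlinarith [hg2 w']

theorem Lor_bf (g : Lor) (x y : ℂ × ℝ) : bf (g.1 x) (g.1 y) = bf x y := g.2.1 x y

theorem Lor_pos (g : Lor) (w : Circle) : 0 < (g.1 (nul w)).2 := g.2.2 w

/-- The action on the circle. -/
noncomputable def cact (g : Lor) (w : Circle) : Circle :=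
  (exists_nul (x := g.1 (nul w)) (by rw [Lor_bf, bf_nul_nul]) (Lor_pos g w)).choose

theorem cact_spec (g : Lor) (w : Circle) : g.1 (nul w) = (g.1 (nul w)).2 • nul (cact g w) :=
  (exists_nul (x := g.1 (nul w)) (by rw [Lor_bf, bf_nul_nul]) (Lor_pos g w)).choose_spec

theorem cact_unique (g : Lor) {w w' : Circle} {c : ℝ} (h : g.1 (nul w) = c • nul w') :
    cact g w = w' := by
  have h1 := cact_spec g w
  have h2 : (g.1 (nul w)).2 = c := by
    rw [h, Prod.smul_snd, nul_snd, smul_eq_mul, mul_one]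
  have h3 := Lor_pos g w
  rw [h2] at h3 h1
  rw [h] at h1
  have h4 := congrArg (fun x => c⁻¹ • x) h1
  simp only [smul_smul, inv_mul_cancel₀ h3.ne', one_smul] at h4
  rw [← one_smul ℝ (nul (cact g w))] at h4
  exact (nul_inj h4).2.symm

noncomputable instance : MulAction Lor Circle where
  smul := cact
  one_smul w := cact_unique 1 (c := 1) (by rw [one_smul]; rfl)
  mul_smul g h w := by
    refine cact_unique (g * h) (c := (h.1 (nul w)).2 * (g.1 (nul (cact h w))).2) ?_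
    have h1 : (g * h).1 (nul w) = g.1 (h.1 (nul w)) := rfl
    rw [h1, cact_spec h w, map_smul, cact_spec g (cact h w), smul_smul, Prod.smul_snd, nul_snd,
      Prod.smul_snd, nul_snd, smul_eq_mul, smul_eq_mul, mul_one, mul_one]
    rfl

theorem smul_def (g : Lor) (w : Circle) : g • w = cact g w := rfl

theorem smul_spec (g : Lor) (w : Circle) :
    ∃ c : ℝ, 0 < c ∧ g.1 (nul w) = c • nul (g • w) :=
  ⟨_, Lor_pos g w, cact_spec g w⟩

theorem smul_unique (g : Lor) {w w' : Circle} {c : ℝ} (h : g.1 (nul w) = c • nul w') :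
    g • w = w' := cact_unique g h

/-- The orientation preserving part. -/
def LorP : Subgroup Lor where
  carrier := {g | 0 < LinearMap.det (g.1 : (ℂ × ℝ) →ₗ[ℝ] (ℂ × ℝ))}
  mul_mem' := by
    intro g h hg hh
    have e : ((g * h).1 : (ℂ × ℝ) →ₗ[ℝ] (ℂ × ℝ)) =
      (g.1 : (ℂ × ℝ) →ₗ[ℝ] (ℂ × ℝ)) ∘ₗ (h.1 : (ℂ × ℝ) →ₗ[ℝ] (ℂ × ℝ)) := rfl
    change 0 < LinearMap.det ((g * h).1 : (ℂ × ℝ) →ₗ[ℝ] (ℂ × ℝ))
    rw [e, LinearMap.det_comp]
    exact mul_pos hg hh
  one_mem' := by
    have e : ((1 : Lor).1 : (ℂ × ℝ) →ₗ[ℝ] (ℂ × ℝ)) = LinearMap.id := rfl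
    change 0 < LinearMap.det ((1 : Lor).1 : (ℂ × ℝ) →ₗ[ℝ] (ℂ × ℝ))
    rw [e, LinearMap.det_id]
    exact one_pos
  inv_mem' := by
    intro g hg
    have e : (g.1 : (ℂ × ℝ) →ₗ[ℝ] (ℂ × ℝ)) ∘ₗ ((g⁻¹).1 : (ℂ × ℝ) →ₗ[ℝ] (ℂ × ℝ)) =
        LinearMap.id := LinearMap.ext fun x => g.1.apply_symm_apply x
    have h1 := congrArg LinearMap.det e
    rw [LinearMap.det_comp, LinearMap.det_id] at h1
    change 0 < LinearMap.det ((g⁻¹).1 : (ℂ × ℝ) →ₗ[ℝ] (ℂ × ℝ))
    change 0 < LinearMap.det (g.1 : (ℂ × ℝ) →ₗ[ℝ] (ℂ × ℝ)) at hg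
    by_contra h2
    rw [not_lt] at h2
    nlinarith

theorem mem_LorP {g : Lor} : g ∈ LorP ↔ 0 < LinearMap.det (g.1 : (ℂ × ℝ) →ₗ[ℝ] (ℂ × ℝ)) :=
  Iff.rfl

/-- The number of the points of `P` which leave `P`. -/
noncomputable def dfc {Γ X : Type} [Group Γ] [MulAction Γ X] (P : Finset X) (g : Γ) : ℕ := by
  classical
  exact (P.filter fun p => g • p ∉ P).card

/-- The orientation of three points of the circle. -/
noncomputable def orr (x y z : Circle) : ℝ :=
  (conj (x : ℂ) * y + conj (y : ℂ) * z + conj (z : ℂ) * x).im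

/-- The cyclic order of the circle. -/
def cyc (x y z : Circle) : Prop := 0 < orr x y z

/-- `l` is a line of `A` which is not a tangent. -/
noncomputable def oth (A : Finset (Submodule ℝ (ℂ × ℝ))) : Finset (Submodule ℝ (ℂ × ℝ)) := by
  classical
  exact A.filter fun l => ∀ w : Circle, l ≠ tang 1 w

/-- The ordered pairs of tangents which meet on `l`. -/
noncomputable def dd (P : Finset Circle) (l : Submodule ℝ (ℂ × ℝ)) : ℕ := by
  classical
  exact (P.offDiag.filter fun x => tang 1 x.1 ⊓ tang 1 x.2 ≤ l).card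

/-- `P` = the points of contact of the tangents in `A`. -/
def Tan (A : Finset (Submodule ℝ (ℂ × ℝ))) (P : Finset Circle) : Prop :=
  ∀ w, tang 1 w ∈ A ↔ w ∈ P

/-- The involution `g` belongs to the line `l`. -/
def IsRef (l : Submodule ℝ (ℂ × ℝ)) (g : Lor) : Prop :=
  (∀ x, g.1 (g.1 x) = x) ∧
  (∀ w w' : Circle, w ≠ w' → tang 1 w ⊓ tang 1 w' ≤ l → g • w = w') ∧
  ((∀ x, x ∈ l ↔ g.1 x = x) ∨ ∀ x, x ∈ l ↔ g.1 x = -x)

/-- The point of the circle with the parameter `a`. -/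
noncomputable def par (a : ℝ) : Circle :=
  ⟨((a : ℂ) + I) / ((a : ℂ) - I), mem_sphere_zero_iff_norm.2 (by
    rw [norm_div, div_eq_one_iff_eq]
    · rw [Complex.norm_def, Complex.norm_def]
      congr 1
      rw [Complex.normSq_apply, Complex.normSq_apply]
      simp
    · rw [norm_ne_zero_iff]
      intro h
      have := congrArg Complex.im h
      simp at this)⟩

/-- The point of intersection of the tangents with the parameters `a`, `b`. -/
noncomputable def vv (a b : ℝ) : ℂ × ℝ := (((a : ℂ) + I) * ((b : ℂ) + I), a * b + 1)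

/-- Corners of quadrilaterals: `a, a'` and `b, b'` are consecutive indices and the pairs are
separated. -/
def IsFlag (a a' b b' : ℕ) : Prop :=
  (a' = a + 1 ∨ a = a' + 1) ∧ (b' = b + 1 ∨ b = b' + 1) ∧
    ((a < b ∧ a < b' ∧ a' < b ∧ a' < b') ∨ (b < a ∧ b' < a ∧ b < a' ∧ b' < a'))

/-- The flags with indices less than `r`. -/
noncomputable def flags (r : ℕ) : Finset (ℕ × ℕ × ℕ × ℕ) := by
  classical
  exact (Finset.range r ×ˢ Finset.range r ×ˢ Finset.range r ×ˢ Finset.range r).filter fun x =>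
    IsFlag x.1 x.2.1 x.2.2.1 x.2.2.2

/-- The corner `(a, b)` of the quadrilateral `{a, a'} × {b, b'}` is served by the line on which the
linear form takes the values `Φ`. -/
def Serves (Φ : ℕ → ℕ → ℝ) (a a' b b' : ℕ) : Prop :=
  (Φ a b = 0 ∧ Φ a b' * Φ a' b < 0) ∨ (Φ a b ≠ 0 ∧ Φ a b * Φ a b' ≤ 0 ∧ Φ a b * Φ a' b ≤ 0)

end Pool.Agent.SimplC
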