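import Pool.Agent.SimplC.Defs

set_option autoImplicit false

/-! # The defect (CON_Proof.md, 2.4)

`dfc P g` is the number of the `p ∈ P` with `g • p ∉ P`.
`dfc_one`: `1 • p = p`. `dfc_mul`: if `(g * h) • p ∉ P` then `h • p ∉ P` or `q = h • p ∈ P` and `g • q ∉ P`; `p ↦ h • p` is injective.
`dfc_inv`: `|{p ∈ P : g⁻¹ • p ∉ P}| = |P| - |{p ∈ P : g⁻¹ • p ∈ P}|`, and `q ↦ g • q` is a bijection from `{q ∈ P : g • q ∈ P}` to
`{p ∈ P : g⁻¹ • p ∈ P}`.
`dfc_conj`: `(e * g * e⁻¹) • (e • p) = e • (g • p)`, and `e • x ∈ e • P` iff `x ∈ P`. -/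

namespace Pool.Agent.SimplC

variable {Γ X : Type} [Group Γ] [MulAction Γ X]

theorem dfc_one (P : Finset X) : dfc P (1 : Γ) = 0 := by
  classical
  unfold dfc
  rw [Finset.card_eq_zero, Finset.filter_eq_empty_iff]
  intro p hp h
  rw [one_smul] at h
  exact h hp

theorem dfc_mul (P : Finset X) (g h : Γ) : dfc P (g * h) ≤ dfc P g + dfc P h := by
  classical
  unfold dfc
  rw [← Finset.card_filter_add_card_filter_not (s := P.filter fun p => (g * h) • p ∉ P)
    (fun p => h • p ∈ P)]
  refine add_le_add ?_ ?_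
  · refine Finset.card_le_card_of_injOn (fun p => h • p) ?_ (fun x _ y _ hxy =>
      smul_left_cancel h hxy)
    intro p hp
    rw [Finset.mem_coe, Finset.mem_filter, Finset.mem_filter] at hp
    rw [Finset.mem_coe, Finset.mem_filter]
    refine ⟨hp.2, ?_⟩
    rw [← mul_smul]
    exact hp.1.2
  · refine Finset.card_le_card ?_
    intro p hp
    rw [Finset.mem_filter, Finset.mem_filter] at hp
    rw [Finset.mem_filter]
    exact ⟨hp.1.1, hp.2⟩

theorem dfc_inv (P : Finset X) (g : Γ) : dfc P g⁻¹ = dfc P g := by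
  classical
  unfold dfc
  have e1 := Finset.card_filter_add_card_filter_not (s := P) (fun p => g⁻¹ • p ∈ P)
  have e2 := Finset.card_filter_add_card_filter_not (s := P) (fun p => g • p ∈ P)
  have e3 : (P.filter fun p => g⁻¹ • p ∈ P).card = (P.filter fun p => g • p ∈ P).card := by
    refine Finset.card_bij' (fun p _ => g⁻¹ • p) (fun p _ => g • p) ?_ ?_ ?_ ?_
    · intro p hp
      rw [Finset.mem_filter] at hp ⊢
      refine ⟨hp.2, ?_⟩
      rw [smul_inv_smul]
      exact hp.1
    · intro p hp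
      rw [Finset.mem_filter] at hp ⊢
      refine ⟨hp.2, ?_⟩
      rw [inv_smul_smul]
      exact hp.1
    · intro p _
      exact smul_inv_smul g p
    · intro p _
      exact inv_smul_smul g p
  omega

private theorem dfc_eq (P : Finset X) (g : Γ) [DecidablePred fun p => g • p ∉ P] :
    dfc P g = (P.filter fun p => g • p ∉ P).card := by
  unfold dfc
  congr

theorem dfc_conj [DecidableEq X] (P : Finset X) (e g : Γ) :
    dfc (P.image fun x => e • x) (e * g * e⁻¹) = dfc P g := by
  rw [dfc_eq, dfc_eq]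
  have hm : ∀ x, e • x ∈ P.image (fun x => e • x) ↔ x ∈ P := by
    intro x
    rw [Finset.mem_image]
    constructor
    · rintro ⟨y, hy, hxy⟩
      rwa [← smul_left_cancel e hxy]
    · intro hx
      exact ⟨x, hx, rfl⟩
  have hc : ∀ x : X, (e * g * e⁻¹) • (e • x) = e • (g • x) := by
    intro x
    rw [mul_smul, mul_smul, inv_smul_smul]
  symm
  refine Finset.card_bij (fun p _ => e • p) ?_ (fun x _ y _ hxy => smul_left_cancel e hxy) ?_
  · intro p hp
    rw [Finset.mem_filter] at hp ⊢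
    refine ⟨(hm p).2 hp.1, ?_⟩
    rw [hc, hm]
    exact hp.2
  · intro q hq
    rw [Finset.mem_filter] at hq
    obtain ⟨h1, h2⟩ := hq
    obtain ⟨p, hp, rfl⟩ := Finset.mem_image.1 h1
    refine ⟨p, ?_, rfl⟩
    rw [Finset.mem_filter]
    refine ⟨hp, ?_⟩
    rw [hc, hm] at h2
    exact h2

end Pool.Agent.SimplC
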