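import Pool.Agent.SimplC.StabL
import Pool.Agent.SimplC.Boost

set_option autoImplicit false

/-! # Finite subgroups are conjugate to groups of rotations (CON_Proof.md, 2.7)

`N = Nat.card H > 0`. Let `v = ∑ h ∈ H, h (0, 1)` (a `Fintype` sum over `H`). `h (0, 1)` is in the open upper cone
`C = {x : bf x x < 0, 0 < x.2}` (`bf (h e₀) (h e₀) = bf e₀ e₀ = -1`, `height_pos`). `C` is closed under sums: `x ∈ C` iff
`‖x.1‖ < x.2`. So `v ∈ C`, and `h v = v` for `h ∈ H` (the sum is permuted). `boost`: `e v = s • e₀`, `s > 0`. For `g ∈ H`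
`(e g e⁻¹) (s • e₀) = e g v = e v = s • e₀`, so `e g e⁻¹` fixes `e₀`; it is in `LorP` (`LorP` is the subgroup of the elements with
positive determinant, so it is normal: `det (e g e⁻¹) = det g`, or `mem_LorP` and multiplicativity of `det`), so
`e * g * e⁻¹ = rotL w` (`stab_rot`). The map `H → Circle`, `g ↦ w`, is an injective homomorphism (`rotL_inj`, `rotL_mul`);
its image `W` is a finite subgroup with `N` elements, so `w ^ N = 1` for `w ∈ W`, and there are at most `N` solutions of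
`w ^ N = 1` in `Circle` (they are roots of `X ^ N - 1` in `ℂ`; e.g. `card_nthRoots`), so `W = {w : w ^ N = 1}`. -/

namespace Pool.Agent.SimplC

open Complex Module ComplexConjugate Pool.Agent.Simpl

private theorem cone_iff (x : ℂ × ℝ) : (bf x x < 0 ∧ 0 < x.2) ↔ ‖x.1‖ < x.2 := by
  have h1 : bf x x = ‖x.1‖ ^ 2 - x.2 ^ 2 := by
    rw [bf_def, ← Complex.normSq_eq_norm_sq, Complex.normSq_apply]
    ring
  have h2 := norm_nonneg x.1
  rw [h1]
  constructor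
  · rintro ⟨h3, h4⟩
    nlinarith
  · intro h3
    exact ⟨by nlinarith, by linarith⟩

private theorem det_conj' (e g : Lor) :
    LinearMap.det ((e * g * e⁻¹).1 : (ℂ × ℝ) →ₗ[ℝ] (ℂ × ℝ)) =
      LinearMap.det (g.1 : (ℂ × ℝ) →ₗ[ℝ] (ℂ × ℝ)) := by
  have e1 : ((e * g * e⁻¹).1 : (ℂ × ℝ) →ₗ[ℝ] (ℂ × ℝ)) =
    ((e.1 : (ℂ × ℝ) →ₗ[ℝ] (ℂ × ℝ)) ∘ₗ (g.1 : (ℂ × ℝ) →ₗ[ℝ] (ℂ × ℝ))) ∘ₗ
      ((e⁻¹).1 : (ℂ × ℝ) →ₗ[ℝ] (ℂ × ℝ)) := rfl
  have e2 : (e.1 : (ℂ × ℝ) →ₗ[ℝ] (ℂ × ℝ)) ∘ₗ ((e⁻¹).1 : (ℂ × ℝ) →ₗ[ℝ] (ℂ × ℝ)) =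
      LinearMap.id := LinearMap.ext fun x => e.1.apply_symm_apply x
  have h1 := congrArg LinearMap.det e2
  rw [LinearMap.det_comp, LinearMap.det_id] at h1
  rw [e1, LinearMap.det_comp, LinearMap.det_comp]
  linear_combination (LinearMap.det (g.1 : (ℂ × ℝ) →ₗ[ℝ] (ℂ × ℝ))) * h1

theorem fin_rot (H : Subgroup Lor) (hH : H ≤ LorP) (hfin : Finite H) :
    ∃ e : Lor, ∀ g : Lor, g ∈ H ↔ ∃ w : Circle, w ^ (Nat.card H) = 1 ∧ e * g * e⁻¹ = rotL w := by
  classical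
  have := Fintype.ofFinite H
  set e₀ : ℂ × ℝ := ((0 : ℂ), (1 : ℝ)) with he₀
  set v : ℂ × ℝ := ∑ h : H, (h : Lor).1 e₀ with hv
  have hcone : ‖v.1‖ < v.2 := by
    have h1 : v.1 = ∑ h : H, ((h : Lor).1 e₀).1 := by
      rw [hv, Prod.fst_sum]
    have h2 : v.2 = ∑ h : H, ((h : Lor).1 e₀).2 := by
      rw [hv, Prod.snd_sum]
    rw [h1, h2]
    refine lt_of_le_of_lt (norm_sum_le _ _)
      (Finset.sum_lt_sum_of_nonempty ⟨1, Finset.mem_univ _⟩ ?_)
    intro h _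
    refine (cone_iff _).1 ⟨?_, height_pos h.1⟩
    rw [Lor_bf, he₀, bf_def]
    simp
  have hinv : ∀ g ∈ H, g.1 v = v := by
    intro g hg
    rw [hv, map_sum]
    exact Fintype.sum_equiv (Equiv.mulLeft (⟨g, hg⟩ : H)) _ _ fun h => rfl
  obtain ⟨h1, h2⟩ := (cone_iff v).2 hcone
  obtain ⟨e, s, hs, he⟩ := boost h1 h2
  have hfix : ∀ g ∈ H, (e * g * e⁻¹).1 e₀ = e₀ := by
    intro g hg
    have h3 : (e * g * e⁻¹).1 (s • e₀) = s • e₀ := by
      rw [← he]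
      change e.1 (g.1 (e.1.symm (e.1 v))) = e.1 v
      rw [LinearEquiv.symm_apply_apply, hinv g hg]
    rw [map_smul] at h3
    exact smul_right_injective _ hs.ne' h3
  have hrot : ∀ g ∈ H, ∃ w : Circle, e * g * e⁻¹ = rotL w := by
    intro g hg
    refine stab_rot ?_ (hfix g hg)
    rw [mem_LorP, det_conj']
    exact hH hg
  have hpow : ∀ (w : Circle) (n : ℕ), rotL (w ^ n) = rotL w ^ n := by
    intro w n
    induction n with
    | zero => rw [pow_zero, pow_zero, rotL_one]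
    | succ n ih => rw [pow_succ, pow_succ, rotL_mul, ih]
  have hone : ∀ g ∈ H, ∀ w : Circle, e * g * e⁻¹ = rotL w → w ^ (Nat.card H) = 1 := by
    intro g hg w hw
    refine rotL_inj ?_
    rw [hpow, ← hw, rotL_one, conj_pow]
    have h3 : (⟨g, hg⟩ : H) ^ (Nat.card H) = 1 := pow_card_eq_one'
    have h4 : g ^ (Nat.card H) = 1 := congrArg Subtype.val h3
    rw [h4, mul_one, mul_inv_cancel]
  choose! φ hφ using hrot
  have hN : Nat.card H ≠ 0 := Nat.card_pos.ne'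
  have : NeZero (Nat.card H) := ⟨hN⟩
  let f : H → rootsOfUnity (Nat.card H) ℂ := fun h => ⟨Circle.toUnits (φ h.1), by
    rw [_root_.mem_rootsOfUnity, ← map_pow, hone h.1 h.2 _ (hφ h.1 h.2), map_one]⟩
  have hf : Function.Injective f := by
    intro a b hab
    have h3 : Circle.toUnits (φ a.1) = Circle.toUnits (φ b.1) := congrArg Subtype.val hab
    have h4 : φ a.1 = φ b.1 := Circle.ext (congrArg Units.val h3)
    have h5 : e * a.1 * e⁻¹ = e * b.1 * e⁻¹ := by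
      rw [hφ _ a.2, hφ _ b.2, h4]
    exact Subtype.ext (mul_left_cancel (mul_right_cancel h5))
  have hb : Function.Bijective f := by
    exact hf.bijective_of_nat_card_le (card_rootsOfUnity ℂ _)
  refine ⟨e, fun g => ⟨fun hg => ⟨φ g, hone g hg _ (hφ g hg), hφ g hg⟩, ?_⟩⟩
  rintro ⟨w, hw, hg⟩
  obtain ⟨h, hh⟩ := hb.2 ⟨Circle.toUnits w, by
    rw [_root_.mem_rootsOfUnity, ← map_pow, hw, map_one]⟩
  have h3 : Circle.toUnits (φ h.1) = Circle.toUnits w := congrArg Subtype.val hh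
  have h4 : φ h.1 = w := Circle.ext (congrArg Units.val h3)
  have h5 : e * g * e⁻¹ = e * h.1 * e⁻¹ := by
    rw [hφ _ h.2, h4, hg]
  rw [mul_left_cancel (mul_right_cancel h5)]
  exact h.2

end Pool.Agent.SimplC
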