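import Pool.Agent.SimplC.Defs

set_option autoImplicit false

/-! # The number of corners (CON_Proof.md, 1.1)

`flags r` contains the images of the injective map
`((i, j), (σ, τ)) ↦ (i + σ, i + 1 - σ, j + τ, j + 1 - τ)`, `σ, τ ∈ {0, 1}`, `i, j < r - 1`, `i + 2 ≤ j` or `j + 2 ≤ i`
(injective: `i = min a a'`, `j = min b b'`, `σ = 1` iff `a' < a`). The number of the pairs `(i, j)` with
`i, j < n = r - 1` and `|i - j| ≤ 1` is `3 n - 2`, so there are `n² - 3 n + 2 = (n - 1) (n - 2) = (r - 2) (r - 3)` pairs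
`(i, j)` (for example by induction on `n`: the pairs with `i = n` or `j = n` are `2 (n - 1)` new ones), and
`4 (r - 2) (r - 3)` flags. -/

namespace Pool.Agent.SimplC

/-- the injection -/
private def fmap (x : (ℕ × ℕ) × (ℕ × ℕ)) : ℕ × ℕ × ℕ × ℕ :=
  if x.1.1 ≤ x.1.2 then
    (x.1.1 + x.2.1, x.1.1 + 1 - x.2.1, x.1.2 + 2 + x.2.2, x.1.2 + 3 - x.2.2)
  else (x.1.1 + 1 + x.2.1, x.1.1 + 2 - x.2.1, x.1.2 + x.2.2, x.1.2 + 1 - x.2.2)

theorem le_card_flags (r : ℕ) (hr : 3 ≤ r) : 4 * ((r - 2) * (r - 3)) ≤ (flags r).card := by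
  obtain ⟨m, rfl⟩ : ∃ m, r = m + 3 := ⟨r - 3, by omega⟩
  have h1 : ((Finset.range (m + 1) ×ˢ Finset.range m) ×ˢ
      (Finset.range 2 ×ˢ Finset.range 2)).card = 4 * ((m + 3 - 2) * (m + 3 - 3)) := by
    rw [Finset.card_product, Finset.card_product, Finset.card_product, Finset.card_range,
      Finset.card_range, Finset.card_range]
    have h2 : m + 3 - 2 = m + 1 := by omega
    have h3 : m + 3 - 3 = m := by omega
    rw [h2, h3]
    ring
  rw [← h1]
  refine Finset.card_le_card_of_injOn fmap ?_ ?_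
  · rintro ⟨⟨u, v⟩, ⟨σ, τ⟩⟩ hx
    simp only [Finset.mem_coe, Finset.mem_product, Finset.mem_range] at hx
    obtain ⟨⟨hu, hv⟩, hσ, hτ⟩ := hx
    unfold flags fmap
    simp only [Finset.mem_coe, Finset.mem_filter, Finset.mem_product, Finset.mem_range]
    split_ifs with h
    · dsimp only [IsFlag]
      refine ⟨⟨by omega, by omega, by omega, by omega⟩, ?_⟩
      refine ⟨by omega, by omega, Or.inl ⟨by omega, by omega, by omega, by omega⟩⟩
    · dsimp only [IsFlag]
      refine ⟨⟨by omega, by omega, by omega, by omega⟩, ?_⟩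
      refine ⟨by omega, by omega, Or.inr ⟨by omega, by omega, by omega, by omega⟩⟩
  · rintro ⟨⟨u, v⟩, ⟨σ, τ⟩⟩ hx ⟨⟨u', v'⟩, ⟨σ', τ'⟩⟩ hx' h
    simp only [Finset.mem_coe, Finset.mem_product, Finset.mem_range] at hx hx'
    unfold fmap at h
    simp only at h
    split_ifs at h with h2 h3 h3 <;> simp only [Prod.mk.injEq] at h ⊢ <;> omega

end Pool.Agent.SimplC
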