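import Mathlib

set_option autoImplicit false

/-! # The first line met along a side (CON_Proof.md, 1.2)

`L = {i ∈ s : q i ≤ 0}`, not empty. For `i ∈ L`: `0 < p i` (otherwise `0 < q i`) and `0 < u i`. Put
`d i = p i - q i > 0`, `α i = p i / d i ∈ (0, 1]`, `β i = u i / d i > 0`. Choose `i ∈ L` with `α i`
minimal and, among these, `β i` minimal (`Finset.exists_min_image` twice, or once in `ℝ ×ₗ ℝ`). For
small `c > 0` let `b = α i + c β i > 0`, `a = 1 - b`:
`a p i + b q i + c u i = p i - b d i + c u i = 0`. Let `j ∈ s`, `j ≠ i`. If `j ∈ L`: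
`a p j + b q j + c u j = d j (α j - b + c β j) = d j ((α j - α i) + c (β j - β i))`. If `α j > α i`
this is positive for small `c > 0`; if `α j = α i` then `β j ≥ β i`, and `β j = β i` would give
`(p j, q j, u j) = (d j / d i) (p i, q i, u i)`, excluded by `hne`; so it is positive for all
`c > 0`. If `j ∉ L`: `q j > 0`, `p j ≥ 0`; at `c = 0` the value is `(1 - α i) p j + α i q j > 0`,
and the value is an affine function of `c`, so it is positive for small `c > 0`. So for each `j` the
condition holds for all `c` in some `(0, ε_j)`; take `c` smaller than all `ε_j` (finitely many; e.g.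
`∀ᶠ c in 𝓝[>] 0`, `Filter.eventually_all_finset`). -/

namespace Pool.Agent.SimplC

open Filter Topology in
/-- an affine function which is positive for small positive arguments -/
private theorem ev_pos {A B : ℝ} (hA : 0 ≤ A) (hB : A = 0 → 0 < B) :
    ∀ᶠ c : ℝ in 𝓝[>] 0, 0 < A + c * B := by
  rcases hA.eq_or_lt with h | h
  · have hB' := hB h.symm
    filter_upwards [self_mem_nhdsWithin] with c hc
    rw [← h, zero_add]
    exact mul_pos hc hB'
  · have hc : Continuous fun c : ℝ => A + c * B := by fun_prop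
    have ht : Tendsto (fun c : ℝ => A + c * B) (𝓝 0) (𝓝 A) := by
      have := hc.tendsto 0
      simpa using this
    exact nhdsWithin_le_nhds (ht.eventually (lt_mem_nhds h))

theorem third_wall {ι : Type} (s : Finset ι) (p q u : ι → ℝ)
    (h : ∀ i ∈ s, 0 < p i ∨ (p i = 0 ∧ 0 < q i ∧ 0 < u i)) (hL : ∃ i ∈ s, q i ≤ 0)
    (hu : ∀ i ∈ s, q i ≤ 0 → 0 < u i)
    (hne : ∀ i ∈ s, ∀ j ∈ s, i ≠ j → ¬ ∃ c : ℝ, p j = c * p i ∧ q j = c * q i ∧ u j = c * u i) :
    ∃ i ∈ s, q i ≤ 0 ∧ ∃ a b c : ℝ, 0 < b ∧ 0 < c ∧ a * p i + b * q i + c * u i = 0 ∧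
      ∀ j ∈ s, j ≠ i → 0 < a * p j + b * q j + c * u j := by
  classical
  set L := s.filter (fun i => q i ≤ 0) with hLdef
  have hmem : ∀ i, i ∈ L ↔ i ∈ s ∧ q i ≤ 0 := fun i => by rw [hLdef, Finset.mem_filter]
  have hLne : L.Nonempty := by
    obtain ⟨i, hi, hq⟩ := hL
    exact ⟨i, (hmem i).2 ⟨hi, hq⟩⟩
  have hp : ∀ i ∈ L, 0 < p i := by
    intro i hi
    obtain ⟨h1, h2⟩ := (hmem i).1 hi
    rcases h i h1 with h3 | ⟨-, h3, -⟩
    · exact h3
    · linarith
  have hd : ∀ i ∈ L, 0 < p i - q i := by
    intro i hi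
    have h1 := hp i hi
    have h2 := ((hmem i).1 hi).2
    linarith
  have hul : ∀ i ∈ L, 0 < u i := fun i hi => hu i ((hmem i).1 hi).1 ((hmem i).1 hi).2
  obtain ⟨i1, hi1, hmin1⟩ := Finset.exists_min_image L (fun i => p i / (p i - q i)) hLne
  obtain ⟨i, hi, hmin2⟩ := Finset.exists_min_image
    (L.filter fun i => p i / (p i - q i) = p i1 / (p i1 - q i1)) (fun i => u i / (p i - q i))
    ⟨i1, Finset.mem_filter.2 ⟨hi1, rfl⟩⟩
  obtain ⟨hiL, hi1'⟩ := Finset.mem_filter.1 hi
  have hα : ∀ j ∈ L, p i / (p i - q i) ≤ p j / (p j - q j) := by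
    intro j hj
    rw [hi1']
    exact hmin1 j hj
  have hβ : ∀ j ∈ L, p j / (p j - q j) = p i / (p i - q i) →
      u i / (p i - q i) ≤ u j / (p j - q j) := by
    intro j hj hjj
    exact hmin2 j (Finset.mem_filter.2 ⟨hj, hjj.trans hi1'⟩)
  have his := ((hmem i).1 hiL).1
  have hiq := ((hmem i).1 hiL).2
  have hip := hp i hiL
  have hid := hd i hiL
  have hiu := hul i hiL
  set α := p i / (p i - q i) with hαdef
  set β := u i / (p i - q i) with hβdef
  have hαe : α * (p i - q i) = p i := div_mul_cancel₀ _ hid.ne'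
  have hβe : β * (p i - q i) = u i := div_mul_cancel₀ _ hid.ne'
  have hα0 : 0 < α := div_pos hip hid
  have hα1 : α ≤ 1 := by
    rw [hαdef, div_le_one hid]
    linarith
  have hβ0 : 0 < β := div_pos hiu hid
  have key : ∀ j ∈ s, ∀ᶠ c : ℝ in nhdsWithin 0 (Set.Ioi 0), j ≠ i →
      0 < ((1 - α) * p j + α * q j) + c * (β * q j - β * p j + u j) := by
    intro j hj
    by_cases hji : j = i
    · exact Filter.Eventually.of_forall fun c hc => absurd hji hc
    have h0 : 0 ≤ (1 - α) * p j + α * q j ∧
        ((1 - α) * p j + α * q j = 0 → 0 < β * q j - β * p j + u j) := by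
      by_cases hjL : j ∈ L
      · have hjd := hd j hjL
        have e1 : p j / (p j - q j) * (p j - q j) = p j := div_mul_cancel₀ _ hjd.ne'
        have e2 : u j / (p j - q j) * (p j - q j) = u j := div_mul_cancel₀ _ hjd.ne'
        have e3 : (1 - α) * p j + α * q j = (p j / (p j - q j) - α) * (p j - q j) := by
          linear_combination -e1
        have e4 : β * q j - β * p j + u j = (u j / (p j - q j) - β) * (p j - q j) := by
          linear_combination -e2
        refine ⟨?_, fun h1 => ?_⟩
        · rw [e3]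
          exact mul_nonneg (sub_nonneg.2 (hα j hjL)) hjd.le
        · rw [e3] at h1
          have h2 : p j / (p j - q j) = α := by
            rcases mul_eq_zero.1 h1 with h2 | h2
            · exact sub_eq_zero.1 h2
            · exact absurd h2 hjd.ne'
          rw [e4]
          refine mul_pos (sub_pos.2 (lt_of_le_of_ne (hβ j hjL h2) ?_)) hjd
          intro h3
          apply hne i his j hj (Ne.symm hji)
          refine ⟨(p j - q j) / (p i - q i), ?_, ?_, ?_⟩
          · rw [div_mul_eq_mul_div, eq_div_iff hid.ne']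
            rw [h2] at e1
            linear_combination (p j - q j) * hαe - (p i - q i) * e1
          · rw [div_mul_eq_mul_div, eq_div_iff hid.ne']
            rw [h2] at e1
            linear_combination (p j - q j) * hαe - (p i - q i) * e1
          · rw [div_mul_eq_mul_div, eq_div_iff hid.ne']
            rw [← h3] at e2
            linear_combination (p j - q j) * hβe - (p i - q i) * e2
      · have hqj : 0 < q j := by
          by_contra hcon
          exact hjL ((hmem j).2 ⟨hj, not_lt.1 hcon⟩)
        have hpj : 0 ≤ p j := by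
          rcases h j hj with h3 | ⟨h3, -, -⟩
          · exact h3.le
          · exact h3.ge
        have h1 : 0 < (1 - α) * p j + α * q j :=
          add_pos_of_nonneg_of_pos (mul_nonneg (by linarith) hpj) (mul_pos hα0 hqj)
        exact ⟨h1.le, fun h2 => absurd h2 h1.ne'⟩
    exact (ev_pos h0.1 h0.2).mono fun c hc _ => hc
  obtain ⟨c, hc, hc0⟩ := (((Filter.eventually_all_finset s).2 key).and
    (self_mem_nhdsWithin : Set.Ioi (0 : ℝ) ∈ nhdsWithin 0 (Set.Ioi 0))).exists
  have hc0' : 0 < c := hc0
  refine ⟨i, his, hiq, 1 - (α + c * β), α + c * β, c, ?_, hc0', ?_, ?_⟩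
  · positivity
  · linear_combination -hαe - c * hβe
  · intro j hj hji
    have h1 := hc j hj hji
    have h2 : (1 - (α + c * β)) * p j + (α + c * β) * q j + c * u j =
        ((1 - α) * p j + α * q j) + c * (β * q j - β * p j + u j) := by ring
    rw [h2]
    exact h1

end Pool.Agent.SimplC
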