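import Pool.Agent.SimplC.Defs
import Pool.Agent.SimplC.Third
import Pool.Agent.SimplV.Walls3

set_option autoImplicit false

/-! # A corner which is not cut off has four walls (CON_Proof.md, 1.2)

`w0, u1, u2` are linearly independent (let `f1`, `f2` be functionals with the kernels `H1`, `H2`, e.g. `± fn H1`, `± fn H2`,
`ker_fn`, with `f1 u2 > 0`, `f2 u1 > 0`; in `λ0 w0 + λ1 u1 + λ2 u2 = 0` apply `f1` and `f2`), so they are a basis
(`finrank_CR`). Suppose there is no such `H`. Let `s = A \ {H1, H2}`, `p H = g H w0`, `q H = g H u1`, `u H = g H u2`. The hypotheses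
of `third_wall` hold for `(p, q, u)` and for `(p, u, q)`: `hu`: if `q H ≤ 0` then `p H > 0` (`hg`), so `u H > 0` by the assumption;
`hne`: if the values of `g H'` on the basis are `c` times those of `g H` then `g H' = c • g H`, `c ≠ 0` (the kernel of
`g H'` is not everything), so `H' = H`. We get `H3 ∈ s` with `q H3 ≤ 0` and `y3 = a w0 + b u1 + c u2`, and `H4 ∈ s` with
`u H4 ≤ 0` and `y4 = a' w0 + b' u2 + c' u1`; `H3 ≠ H4` by the assumption.
Let `x = w0 + ε u1 + ε u2`, `y1 = w0 + ε u1`, `y2 = w0 + ε u2` with `ε > 0` so small that `g H` is positive on `x, y1, y2` for all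
`H ∈ s` (if `g H w0 > 0` for small `ε`; if `g H w0 = 0` for all `ε > 0`). Apply `walls_le_three`
(`Pool/Agent/SimplV/Walls3.lean`) to `x` and `W = {H1, H2, H3, H4}` (four different planes) with the points
`y1 ∈ H1`, `y2 ∈ H2`, `y3 ∈ H3`, `y4 ∈ H4`: `f1 x = ε f1 u2 > 0`, `f2 x = ε f2 u1 > 0`; `f2 y1 = ε f2 u1`, `f1 y2 = ε f1 u2`,
`f1 y3 = c f1 u2`, `f2 y3 = b f2 u1`, `f1 y4 = b' f1 u2`, `f2 y4 = c' f2 u1` are positive, and `g H` is positive on `x`, `y1`, `y2`
for all `H ∈ s`, on `y3` for `H ≠ H3` and on `y4` for `H ≠ H4`. `4 ≤ 3`, a contradiction. -/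

namespace Pool.Agent.SimplC

open Complex Module ComplexConjugate Pool.Agent.Simpl Pool.Agent.SimplV

/-- Small positive parameters. -/
private theorem ev_pos {a b : ℝ} (h : 0 < a ∨ (a = 0 ∧ 0 < b)) :
    ∀ᶠ ε : ℝ in nhdsWithin 0 (Set.Ioi 0), 0 < a + ε * b := by
  rcases h with h | ⟨h, hb⟩
  · have h1 : Filter.Tendsto (fun ε : ℝ => a + ε * b) (nhdsWithin 0 (Set.Ioi 0)) (nhds a) := by
      have h2 : Continuous (fun ε : ℝ => a + ε * b) := by fun_prop
      have h3 := h2.tendsto 0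
      simp only [zero_mul, add_zero] at h3
      exact h3.mono_left nhdsWithin_le_nhds
    exact h1.eventually (lt_mem_nhds h)
  · filter_upwards [self_mem_nhdsWithin] with ε hε
    rw [h, zero_add]
    exact mul_pos hε hb

/-- A functional with the given kernel, positive on a given vector. -/
private theorem ex_fun {H : Submodule ℝ (ℂ × ℝ)} (hH : finrank ℝ H = 2) {u : ℂ × ℝ} (hu : u ∉ H) :
    ∃ f : (ℂ × ℝ) →ₗ[ℝ] ℝ, LinearMap.ker f = H ∧ 0 < f u := by
  have hk := ker_fn (H := H) (by rw [hH, finrank_CR])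
  have h1 : fn H u ≠ 0 := fun h0 => hu (by rw [← hk]; exact h0)
  rcases lt_or_gt_of_ne h1 with h2 | h2
  · refine ⟨-fn H, ?_, ?_⟩
    · refine Eq.trans ?_ hk
      ext x
      rw [LinearMap.mem_ker, LinearMap.mem_ker, LinearMap.neg_apply, neg_eq_zero]
    · rw [LinearMap.neg_apply]
      linarith
  · exact ⟨fn H, hk, h2⟩

theorem four_walls {A : Finset (Submodule ℝ (ℂ × ℝ))} (hA : ∀ H ∈ A, finrank ℝ H = 2)
    (hS : IsSimplicial A) {H1 H2 : Submodule ℝ (ℂ × ℝ)} (h1 : H1 ∈ A) (h2 : H2 ∈ A)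
    {w0 u1 u2 : ℂ × ℝ} (hw0 : w0 ≠ 0) (hw1 : w0 ∈ H1) (hu11 : u1 ∈ H1) (hu21 : u2 ∉ H1)
    (hw2 : w0 ∈ H2) (hu22 : u2 ∈ H2) (hu12 : u1 ∉ H2)
    (g : Submodule ℝ (ℂ × ℝ) → ((ℂ × ℝ) →ₗ[ℝ] ℝ))
    (hg : ∀ H ∈ A, H ≠ H1 → H ≠ H2 → LinearMap.ker (g H) = H ∧
      (0 < g H w0 ∨ (g H w0 = 0 ∧ 0 < g H u1 ∧ 0 < g H u2)))
    (e1 : ∃ H ∈ A, H ≠ H1 ∧ H ≠ H2 ∧ g H u1 ≤ 0) (e2 : ∃ H ∈ A, H ≠ H1 ∧ H ≠ H2 ∧ g H u2 ≤ 0) :
    ∃ H ∈ A, H ≠ H1 ∧ H ≠ H2 ∧ 0 < g H w0 ∧ g H u1 ≤ 0 ∧ g H u2 ≤ 0 := by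
  classical
  by_contra hno
  push Not at hno
  have hH12 : H1 ≠ H2 := fun h => hu12 (h ▸ hu11)
  obtain ⟨f1, hf1, hf1u⟩ := ex_fun (hA H1 h1) hu21
  obtain ⟨f2, hf2, hf2u⟩ := ex_fun (hA H2 h2) hu12
  have z1 : ∀ x ∈ H1, f1 x = 0 := fun x hx => by rw [← hf1] at hx; exact hx
  have z2 : ∀ x ∈ H2, f2 x = 0 := fun x hx => by rw [← hf2] at hx; exact hx
  have a10 := z1 _ hw1
  have a11 := z1 _ hu11
  have a20 := z2 _ hw2
  have a22 := z2 _ hu22
  have hli : LinearIndependent ℝ ![w0, u1, u2] := by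
    rw [Fintype.linearIndependent_iff]
    intro c hc
    rw [Fin.sum_univ_three] at hc
    simp only [Matrix.cons_val_zero, Matrix.cons_val_one, Matrix.cons_val] at hc
    have e1 := congrArg f1 hc
    have e2 := congrArg f2 hc
    simp only [map_add, map_smul, smul_eq_mul, a10, a11, a20, a22, mul_zero, zero_add, add_zero,
      map_zero] at e1 e2
    have c2 : c 2 = 0 := (mul_eq_zero.1 e1).resolve_right hf1u.ne'
    have c1 : c 1 = 0 := (mul_eq_zero.1 e2).resolve_right hf2u.ne'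
    rw [c2, c1, zero_smul, zero_smul, add_zero, add_zero] at hc
    have c0 : c 0 = 0 := (smul_eq_zero.1 hc).resolve_right hw0
    intro i
    fin_cases i
    · exact c0
    · exact c1
    · exact c2
  have hcard : Fintype.card (Fin 3) = finrank ℝ (ℂ × ℝ) := by
    rw [finrank_CR, Fintype.card_fin]
  set bs := basisOfLinearIndependentOfCardEqFinrank hli hcard with hbs
  have hb : ⇑bs = ![w0, u1, u2] := coe_basisOfLinearIndependentOfCardEqFinrank hli hcard
  set s := A.filter fun H => H ≠ H1 ∧ H ≠ H2 with hs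
  have ms : ∀ H, H ∈ s ↔ H ∈ A ∧ H ≠ H1 ∧ H ≠ H2 := fun H => by rw [hs, Finset.mem_filter]
  have hgs : ∀ H ∈ s, LinearMap.ker (g H) = H ∧
      (0 < g H w0 ∨ (g H w0 = 0 ∧ 0 < g H u1 ∧ 0 < g H u2)) := fun H hH =>
    hg H ((ms H).1 hH).1 ((ms H).1 hH).2.1 ((ms H).1 hH).2.2
  have hne : ∀ H ∈ s, ∀ H' ∈ s, H ≠ H' → ¬ ∃ c : ℝ, g H' w0 = c * g H w0 ∧
      g H' u1 = c * g H u1 ∧ g H' u2 = c * g H u2 := by
    rintro H hH H' hH' hn ⟨c, e0, e1, e2⟩
    have h3 : g H' = c • g H := by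
      refine bs.ext fun i => ?_
      rw [hb, LinearMap.smul_apply, smul_eq_mul]
      fin_cases i
      · exact e0
      · exact e1
      · exact e2
    have h4 : H ≤ H' := by
      intro x hx
      rw [← (hgs H hH).1, LinearMap.mem_ker] at hx
      rw [← (hgs H' hH').1, LinearMap.mem_ker, h3, LinearMap.smul_apply, hx, smul_zero]
    exact hn (Submodule.eq_of_le_of_finrank_eq h4
      (by rw [hA H ((ms H).1 hH).1, hA H' ((ms H').1 hH').1]))
  have hor : ∀ H ∈ s, g H u1 ≤ 0 → 0 < g H u2 := by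
    intro H hH hq
    obtain ⟨hHA, hn1, hn2⟩ := (ms H).1 hH
    have hp : 0 < g H w0 := by
      rcases (hgs H hH).2 with h | h
      · exact h
      · exact absurd h.2.1 (not_lt.2 hq)
    exact hno H hHA hn1 hn2 hp hq
  have hor' : ∀ H ∈ s, g H u2 ≤ 0 → 0 < g H u1 := by
    intro H hH hq
    by_contra h3
    exact absurd (hor H hH (not_lt.1 h3)) (not_lt.2 hq)
  obtain ⟨H3, hH3, hq3, a, b, c, hb3, hc3, hz3, hp3⟩ := third_wall s (fun H => g H w0)
    (fun H => g H u1) (fun H => g H u2) (fun H hH => (hgs H hH).2)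
    (by
      obtain ⟨H, hH, n1, n2, hq⟩ := e1
      exact ⟨H, (ms H).2 ⟨hH, n1, n2⟩, hq⟩) hor hne
  obtain ⟨H4, hH4, hq4, a', b', c', hb4, hc4, hz4, hp4⟩ := third_wall s (fun H => g H w0)
    (fun H => g H u2) (fun H => g H u1)
    (fun H hH => (hgs H hH).2.imp id fun h => ⟨h.1, h.2.2, h.2.1⟩)
    (by
      obtain ⟨H, hH, n1, n2, hq⟩ := e2
      exact ⟨H, (ms H).2 ⟨hH, n1, n2⟩, hq⟩) hor'
    (fun i hi j hj hij ⟨c, k0, k1, k2⟩ => hne i hi j hj hij ⟨c, k0, k2, k1⟩)
  have hn34 : H3 ≠ H4 := by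
    rintro rfl
    exact absurd (hor _ hH3 hq3) (not_lt.2 hq4)
  have hev : ∀ᶠ ε : ℝ in nhdsWithin 0 (Set.Ioi 0), 0 < ε ∧ ∀ H ∈ s,
      0 < g H w0 + ε * (g H u1 + g H u2) ∧ 0 < g H w0 + ε * g H u1 ∧
        0 < g H w0 + ε * g H u2 := by
    refine Filter.Eventually.and self_mem_nhdsWithin ?_
    rw [Filter.eventually_all_finset]
    intro H hH
    refine (ev_pos ?_).and ((ev_pos ?_).and (ev_pos ?_))
    · exact (hgs H hH).2.imp id fun h => ⟨h.1, add_pos h.2.1 h.2.2⟩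
    · exact (hgs H hH).2.imp id fun h => ⟨h.1, h.2.1⟩
    · exact (hgs H hH).2.imp id fun h => ⟨h.1, h.2.2⟩
  obtain ⟨ε, hε, hεs⟩ := hev.exists
  obtain ⟨h3A, h31, h32⟩ := (ms H3).1 hH3
  obtain ⟨h4A, h41, h42⟩ := (ms H4).1 hH4
  have gx : ∀ H ∈ s, 0 < g H (w0 + ε • u1 + ε • u2) := fun H hH => by
    have := (hεs H hH).1
    simp only [map_add, map_smul, smul_eq_mul]
    linarith
  have f1x : f1 (w0 + ε • u1 + ε • u2) = ε * f1 u2 := by
    simp only [map_add, map_smul, smul_eq_mul, a10, a11]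
    ring
  have f2x : f2 (w0 + ε • u1 + ε • u2) = ε * f2 u1 := by
    simp only [map_add, map_smul, smul_eq_mul, a20, a22]
    ring
  have hx : ∀ H ∈ A, w0 + ε • u1 + ε • u2 ∉ H := by
    intro H hH hm
    by_cases n1 : H = H1
    · rw [n1] at hm
      have := z1 _ hm
      rw [f1x] at this
      exact (mul_pos hε hf1u).ne' this
    by_cases n2 : H = H2
    · rw [n2] at hm
      have := z2 _ hm
      rw [f2x] at this
      exact (mul_pos hε hf2u).ne' this
    have hHs : H ∈ s := (ms H).2 ⟨hH, n1, n2⟩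
    have h5 : w0 + ε • u1 + ε • u2 ∈ LinearMap.ker (g H) := by
      rw [(hgs H hHs).1]
      exact hm
    exact (gx H hHs).ne' h5
  -- the general step
  have step : ∀ y : ℂ × ℝ, ∀ H : Submodule ℝ (ℂ × ℝ), (H ≠ H1 → 0 < f1 y) → (H ≠ H2 → 0 < f2 y) →
      (∀ H' ∈ s, H' ≠ H → 0 < g H' y) → ∀ H' ∈ A, H' ≠ H →
      ∃ f : (ℂ × ℝ) →ₗ[ℝ] ℝ, LinearMap.ker f = H' ∧ 0 < f (w0 + ε • u1 + ε • u2) * f y := by
    intro y H k1 k2 k3 H' hH' hn
    by_cases n1 : H' = H1
    · refine ⟨f1, by rw [hf1, n1], ?_⟩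
      rw [f1x]
      exact mul_pos (mul_pos hε hf1u) (k1 fun h => hn (by rw [n1, h]))
    by_cases n2 : H' = H2
    · refine ⟨f2, by rw [hf2, n2], ?_⟩
      rw [f2x]
      exact mul_pos (mul_pos hε hf2u) (k2 fun h => hn (by rw [n2, h]))
    have hHs : H' ∈ s := (ms H').2 ⟨hH', n1, n2⟩
    exact ⟨g H', (hgs H' hHs).1, mul_pos (gx H' hHs) (k3 H' hHs hn)⟩
  have hW : ({H1, H2, H3, H4} : Finset (Submodule ℝ (ℂ × ℝ))).card = 4 := by
    rw [Finset.card_insert_of_notMem, Finset.card_insert_of_notMem, Finset.card_insert_of_notMem,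
      Finset.card_singleton]
    · rw [Finset.mem_singleton]
      exact hn34
    · rw [Finset.mem_insert, Finset.mem_singleton, not_or]
      exact ⟨h32.symm, h42.symm⟩
    · rw [Finset.mem_insert, Finset.mem_insert, Finset.mem_singleton, not_or, not_or]
      exact ⟨hH12, h31.symm, h41.symm⟩
  have hfin := walls_le_three hA hS hx {H1, H2, H3, H4} (by
    intro H hH
    simp only [Finset.mem_insert, Finset.mem_singleton] at hH
    rcases hH with rfl | rfl | rfl | rfl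
    · exact h1
    · exact h2
    · exact h3A
    · exact h4A) (by
    intro H hH
    simp only [Finset.mem_insert, Finset.mem_singleton] at hH
    rcases hH with h | h | h | h
    · rw [h]
      refine ⟨w0 + ε • u1, H1.add_mem hw1 (H1.smul_mem _ hu11), step _ _ ?_ ?_ ?_⟩
      · exact fun hn => absurd rfl hn
      · intro _
        simp only [map_add, map_smul, smul_eq_mul, a20, zero_add]
        exact mul_pos hε hf2u
      · intro H' hH' _
        simp only [map_add, map_smul, smul_eq_mul]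
        exact (hεs H' hH').2.1
    · rw [h]
      refine ⟨w0 + ε • u2, H2.add_mem hw2 (H2.smul_mem _ hu22), step _ _ ?_ ?_ ?_⟩
      · intro _
        simp only [map_add, map_smul, smul_eq_mul, a10, zero_add]
        exact mul_pos hε hf1u
      · exact fun hn => absurd rfl hn
      · intro H' hH' _
        simp only [map_add, map_smul, smul_eq_mul]
        exact (hεs H' hH').2.2
    · rw [h]
      have e3 : ∀ H', g H' (a • w0 + b • u1 + c • u2) = a * g H' w0 + b * g H' u1 + c * g H' u2 :=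
        fun H' => by simp only [map_add, map_smul, smul_eq_mul]
      refine ⟨a • w0 + b • u1 + c • u2, ?_, step _ _ ?_ ?_ ?_⟩
      · have h5 : a • w0 + b • u1 + c • u2 ∈ LinearMap.ker (g H3) := by
          rw [LinearMap.mem_ker, e3]
          exact hz3
        rw [(hgs H3 hH3).1] at h5
        exact h5
      · intro _
        simp only [map_add, map_smul, smul_eq_mul, a10, a11, mul_zero, zero_add]
        exact mul_pos hc3 hf1u
      · intro _
        simp only [map_add, map_smul, smul_eq_mul, a20, a22, mul_zero, zero_add, add_zero]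
        exact mul_pos hb3 hf2u
      · intro H' hH' hn
        rw [e3]
        exact hp3 H' hH' hn
    · rw [h]
      have e4 : ∀ H', g H' (a' • w0 + b' • u2 + c' • u1) =
          a' * g H' w0 + b' * g H' u2 + c' * g H' u1 :=
        fun H' => by simp only [map_add, map_smul, smul_eq_mul]
      refine ⟨a' • w0 + b' • u2 + c' • u1, ?_, step _ _ ?_ ?_ ?_⟩
      · have h5 : a' • w0 + b' • u2 + c' • u1 ∈ LinearMap.ker (g H4) := by
          rw [LinearMap.mem_ker, e4]
          exact hz4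
        rw [(hgs H4 hH4).1] at h5
        exact h5
      · intro _
        simp only [map_add, map_smul, smul_eq_mul, a10, a11, mul_zero, zero_add, add_zero]
        exact mul_pos hb4 hf1u
      · intro _
        simp only [map_add, map_smul, smul_eq_mul, a20, a22, mul_zero, zero_add]
        exact mul_pos hc4 hf2u
      · intro H' hH' hn
        rw [e4]
        exact hp4 H' hH' hn)
  rw [hW] at hfin
  omega

end Pool.Agent.SimplC
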