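import Pool.Agent.SimplC.Dfc

set_option autoImplicit false

/-! # Growth at one scale gives a finite subgroup (CON_Proof.md, 3.2, 3.4)

Let `r = P.card`, `S m' = {g ∈ Γp : dfc P g ≤ m'}`. For `5 m' < r` every finite subset of `S m'` has at most
`r² / (r - 5 m') ≤ r²` elements (`hb`), so `S m'` is finite (`Set.finite_of_forall_...`, or: an infinite set contains finite
subsets with `r² + 1` elements, `Set.Infinite.exists_subset_card_eq`), and `|S m'| (r - 5 m') ≤ r²`.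
`S a * S b ⊆ S (a + b)`, `S a` is closed under inverses and contains `1` (`dfc_mul`, `dfc_inv`, `dfc_one`).
(1) `|I| ≤ 2 |S (2 m)|`: let `J` be the larger one of `{g ∈ I : g ∈ Γp}`, `{g ∈ I : g ∉ Γp}`, not empty (`I` is not empty by
`hbig`), `j₀ ∈ J`: `j₀⁻¹ * j ∈ Γp` for `j ∈ J` (`hΓ` in the second case) with defect at most `2 m`.
(2) `|S (5 k)| < 2 |S k|` for `k = 2 m` or `k = 10 m`: otherwise `|S (50 m)| ≥ 2 |S (10 m)| ≥ 4 |S (2 m)| ≥ 2 |I|` and
`2 |I| (r - 250 m) ≤ |S (50 m)| (r - 250 m) ≤ r²`, contradicting `hbig`.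
(3) `S (4 k) ⊆ S (2 k)`: for `w ∈ S (4 k)` the sets `w S k` and `S k` are subsets of `S (5 k)` with `|S k|` elements, so they
meet: `w a = b`, `w = b a⁻¹ ∈ S (2 k)`. So `S (2 k)` is closed under products (`S (2 k) S (2 k) ⊆ S (4 k)`): `H`. It is finite
(`10 k ≤ 100 m < r`) and `|H| (r - 100 m) ≤ |H| (r - 10 k) ≤ r²`. -/

namespace Pool.Agent.SimplC

/-- the elements of small defect -/
private def gS {Γ X : Type} [Group Γ] [MulAction Γ X] (Γp : Subgroup Γ) (P : Finset X) (a : ℕ) :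
    Set Γ := {g | g ∈ Γp ∧ dfc P g ≤ a}

private theorem gS_fin {Γ X : Type} [Group Γ] [MulAction Γ X] {Γp : Subgroup Γ} {P : Finset X}
    (hb : ∀ (m' : ℕ) (G : Finset Γ), (∀ g ∈ G, g ∈ Γp ∧ dfc P g ≤ m') →
      (G.card : ℤ) * ((P.card : ℤ) - 5 * m') ≤ (P.card : ℤ) ^ 2) {a : ℕ} (ha : 5 * a < P.card) :
    (gS Γp P a).Finite ∧
      ((gS Γp P a).ncard : ℤ) * ((P.card : ℤ) - 5 * a) ≤ (P.card : ℤ) ^ 2 := by
  have ha' : (1 : ℤ) ≤ (P.card : ℤ) - 5 * a := by omega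
  have hfin : (gS Γp P a).Finite := by
    by_contra hinf
    obtain ⟨t, ht, htc⟩ := Set.Infinite.exists_subset_card_eq hinf (P.card ^ 2 + 1)
    have h1 := hb a t fun g hg => ht hg
    rw [htc] at h1
    push_cast at h1
    nlinarith
  refine ⟨hfin, ?_⟩
  have h1 := hb a hfin.toFinset fun g hg => hfin.mem_toFinset.1 hg
  rwa [← Set.ncard_eq_toFinset_card _ hfin] at h1

private theorem gS_mul {Γ X : Type} [Group Γ] [MulAction Γ X] {Γp : Subgroup Γ} {P : Finset X}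
    {a b : ℕ} {g h : Γ} (hg : g ∈ gS Γp P a) (hh : h ∈ gS Γp P b) : g * h ∈ gS Γp P (a + b) :=
  ⟨Γp.mul_mem hg.1 hh.1, (dfc_mul P g h).trans (add_le_add hg.2 hh.2)⟩

private theorem gS_inv {Γ X : Type} [Group Γ] [MulAction Γ X] {Γp : Subgroup Γ} {P : Finset X}
    {a : ℕ} {g : Γ} (hg : g ∈ gS Γp P a) : g⁻¹ ∈ gS Γp P a :=
  ⟨Γp.inv_mem hg.1, by rw [dfc_inv]; exact hg.2⟩

private theorem gS_mono {Γ X : Type} [Group Γ] [MulAction Γ X] {Γp : Subgroup Γ} {P : Finset X}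
    {a b : ℕ} (hab : a ≤ b) : gS Γp P a ⊆ gS Γp P b := fun _ hg => ⟨hg.1, hg.2.trans hab⟩

private theorem gS_part {Γ X : Type} [Group Γ] [MulAction Γ X] {Γp : Subgroup Γ} {P : Finset X}
    {m : ℕ} (hfin : (gS Γp P (2 * m)).Finite) (J : Finset Γ) (hJ : ∀ g ∈ J, dfc P g ≤ m)
    (hJ' : ∀ g ∈ J, ∀ h ∈ J, g⁻¹ * h ∈ Γp) : J.card ≤ (gS Γp P (2 * m)).ncard := by
  rcases J.eq_empty_or_nonempty with rfl | ⟨j, hj⟩
  · simp
  rw [Set.ncard_eq_toFinset_card _ hfin]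
  refine Finset.card_le_card_of_injOn (fun g => j⁻¹ * g) (fun g hg => ?_) fun g _ h _ he => ?_
  · rw [Set.Finite.coe_toFinset]
    refine ⟨hJ' j hj g hg, (dfc_mul P j⁻¹ g).trans ?_⟩
    rw [dfc_inv, two_mul]
    exact add_le_add (hJ j hj) (hJ g hg)
  · exact mul_left_cancel he

theorem grow {Γ X : Type} [Group Γ] [MulAction Γ X] (Γp : Subgroup Γ)
    (hΓ : ∀ g h : Γ, g ∉ Γp → h ∉ Γp → g⁻¹ * h ∈ Γp) (P : Finset X)
    (hb : ∀ (m' : ℕ) (G : Finset Γ), (∀ g ∈ G, g ∈ Γp ∧ dfc P g ≤ m') →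
      (G.card : ℤ) * ((P.card : ℤ) - 5 * m') ≤ (P.card : ℤ) ^ 2)
    (m : ℕ) (hm : 250 * m < P.card) (I : Finset Γ) (hI : ∀ g ∈ I, dfc P g ≤ m)
    (hbig : (P.card : ℤ) ^ 2 < 2 * I.card * ((P.card : ℤ) - 250 * m)) :
    ∃ (H : Subgroup Γ) (k : ℕ), (k = 2 * m ∨ k = 10 * m) ∧
      (∀ g, g ∈ H ↔ g ∈ Γp ∧ dfc P g ≤ 2 * k) ∧ (∀ g ∈ Γp, dfc P g ≤ 4 * k → g ∈ H) ∧
      Finite H ∧ (Nat.card H : ℤ) * ((P.card : ℤ) - 100 * m) ≤ (P.card : ℤ) ^ 2 := by
  classical
  have hm' : (1 : ℤ) ≤ (P.card : ℤ) - 250 * m := by omega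
  have f2 := gS_fin hb (a := 2 * m) (by omega)
  have f10 := gS_fin hb (a := 10 * m) (by omega)
  have f50 := gS_fin hb (a := 50 * m) (by omega)
  -- step one
  have s1 : I.card ≤ 2 * (gS Γp P (2 * m)).ncard := by
    have h1 : (I.filter fun g => g ∈ Γp).card ≤ (gS Γp P (2 * m)).ncard :=
      gS_part f2.1 _ (fun g hg => hI g (Finset.mem_filter.1 hg).1) fun g hg h hh =>
        Γp.mul_mem (Γp.inv_mem (Finset.mem_filter.1 hg).2) (Finset.mem_filter.1 hh).2
    have h2 : (I.filter fun g => ¬ g ∈ Γp).card ≤ (gS Γp P (2 * m)).ncard :=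
      gS_part f2.1 _ (fun g hg => hI g (Finset.mem_filter.1 hg).1) fun g hg h hh =>
        hΓ g h (Finset.mem_filter.1 hg).2 (Finset.mem_filter.1 hh).2
    have h3 := Finset.card_filter_add_card_filter_not (s := I) (fun g => g ∈ Γp)
    omega
  -- step two
  obtain ⟨k, hk, hlt⟩ : ∃ k : ℕ, (k = 2 * m ∨ k = 10 * m) ∧
      (gS Γp P (5 * k)).ncard < 2 * (gS Γp P k).ncard := by
    by_contra hcon
    push Not at hcon
    have h1 := hcon (2 * m) (Or.inl rfl)
    have h2 := hcon (10 * m) (Or.inr rfl)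
    rw [show 5 * (2 * m) = 10 * m by ring] at h1
    rw [show 5 * (10 * m) = 50 * m by ring] at h2
    have h3 := f50.2
    have h4 : 2 * I.card ≤ (gS Γp P (50 * m)).ncard := by omega
    have h5 : (2 * (I.card : ℤ)) ≤ ((gS Γp P (50 * m)).ncard : ℤ) := by exact_mod_cast h4
    have h6 : (P.card : ℤ) - 5 * ((50 * m : ℕ) : ℤ) = (P.card : ℤ) - 250 * m := by
      push_cast
      ring
    rw [h6] at h3
    have h7 := mul_le_mul_of_nonneg_right h5 (le_trans zero_le_one hm')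
    linarith
  have hk10 : k ≤ 10 * m := by omega
  have f5k := gS_fin hb (a := 5 * k) (by omega)
  have fk := gS_fin hb (a := k) (by omega)
  have f2k := gS_fin hb (a := 2 * k) (by omega)
  -- step three
  have s3 : ∀ w ∈ gS Γp P (4 * k), w ∈ gS Γp P (2 * k) := by
    intro w hw
    have h1 : ¬ Disjoint ((fun g => w * g) '' gS Γp P k) (gS Γp P k) := by
      intro hdis
      have h2 : ((fun g => w * g) '' gS Γp P k ∪ gS Γp P k).ncard =
          ((fun g => w * g) '' gS Γp P k).ncard + (gS Γp P k).ncard :=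
        Set.ncard_union_eq hdis (fk.1.image _) fk.1
      have h3 : ((fun g => w * g) '' gS Γp P k).ncard = (gS Γp P k).ncard :=
        Set.ncard_image_of_injective _ (mul_right_injective w)
      have h4 : (fun g => w * g) '' gS Γp P k ∪ gS Γp P k ⊆ gS Γp P (5 * k) := by
        rintro x (⟨g, hg, rfl⟩ | hx)
        · have h5 := gS_mul hw hg
          rwa [show 4 * k + k = 5 * k by ring] at h5
        · exact gS_mono (by omega) hx
      have h5 := Set.ncard_le_ncard h4 f5k.1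
      omega
    obtain ⟨x, ⟨a, ha, hxa⟩, hx⟩ := Set.not_disjoint_iff.1 h1
    have hxa' : w * a = x := hxa
    have h2 : w = x * a⁻¹ := by rw [← hxa', mul_inv_cancel_right]
    have h3 := gS_mul hx (gS_inv ha)
    rw [← h2, ← two_mul] at h3
    exact h3
  let H : Subgroup Γ :=
    { carrier := gS Γp P (2 * k)
      mul_mem' := fun {a b} ha hb' => s3 _ (by
        have h1 := gS_mul ha hb'
        rwa [show 2 * k + 2 * k = 4 * k by ring] at h1)
      one_mem' := ⟨Γp.one_mem, by rw [dfc_one]; exact Nat.zero_le _⟩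
      inv_mem' := fun {a} ha => gS_inv ha }
  have hHc : (H : Set Γ) = gS Γp P (2 * k) := rfl
  refine ⟨H, k, hk, fun g => Iff.rfl, fun g hg hd => s3 g ⟨hg, hd⟩, ?_, ?_⟩
  · exact f2k.1.to_subtype
  · have h1 : Nat.card H = (gS Γp P (2 * k)).ncard := by
      rw [← hHc]
      exact Nat.card_coe_set_eq (H : Set Γ)
    rw [h1]
    have h2 := f2k.2
    have h3 : ((P.card : ℤ) - 100 * m) ≤ (P.card : ℤ) - 5 * ((2 * k : ℕ) : ℤ) := by
      push_cast
      have : (k : ℤ) ≤ 10 * m := by exact_mod_cast hk10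
      linarith
    have h4 := mul_le_mul_of_nonneg_left h3
      (Int.natCast_nonneg (gS Γp P (2 * k)).ncard)
    exact h4.trans h2

end Pool.Agent.SimplC
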