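import Pool.Agent.SimplC.Defs

set_option autoImplicit false

/-! # Lines and involutions (CON_Proof.md, 2.4)

`isRef_inj`: if both `l` and `l'` are the fixed space of `g`, or both are `{x : g x = -x}`, they are equal. If
`x ∈ l ↔ g x = x` and `x ∈ l' ↔ g x = -x` then `l ⊓ l' = 0` (`x = -x`), impossible for two planes in a space of dimension
three (`finrank_CR`, `Submodule.finrank_sup_add_finrank_inf_eq`).
`dfc_ref`: `dd P l` is the number of the pairs `(w, w') ∈ P²`, `w ≠ w'` with `tang 1 w ⊓ tang 1 w' ≤ l`; for such a pair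
`g • w = w'` (`IsRef`), so `(w, w') ↦ w` is injective on these pairs with values in `{w ∈ P : g • w ∈ P}`, and
`dfc P g = P.card - |{w ∈ P : g • w ∈ P}|`. -/

namespace Pool.Agent.SimplC

open Complex Module ComplexConjugate Pool.Agent.Simpl

private theorem mixed {l l' : Submodule ℝ (ℂ × ℝ)} (hl : finrank ℝ l = 2)
    (hl' : finrank ℝ l' = 2) {g : Lor} (h : ∀ x, x ∈ l ↔ g.1 x = x)
    (h' : ∀ x, x ∈ l' ↔ g.1 x = -x) : False := by
  have h1 : l ⊓ l' = ⊥ := by
    rw [eq_bot_iff]
    intro x hx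
    have h2 := (h x).1 hx.1
    have h3 := (h' x).1 hx.2
    rw [h2] at h3
    rw [Submodule.mem_bot]
    exact self_eq_neg.1 h3
  have h2 := Submodule.finrank_sup_add_finrank_inf_eq l l'
  rw [h1, finrank_bot, hl, hl'] at h2
  have h3 := Submodule.finrank_le (l ⊔ l')
  rw [finrank_CR] at h3
  omega

theorem isRef_inj {l l' : Submodule ℝ (ℂ × ℝ)} (hl : finrank ℝ l = 2) (hl' : finrank ℝ l' = 2)
    {g : Lor} (h : IsRef l g) (h' : IsRef l' g) : l = l' := by
  rcases h.2.2 with h1 | h1 <;> rcases h'.2.2 with h2 | h2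
  · exact SetLike.ext fun x => (h1 x).trans (h2 x).symm
  · exact (mixed hl hl' h1 h2).elim
  · exact (mixed hl' hl h2 h1).elim
  · exact SetLike.ext fun x => (h1 x).trans (h2 x).symm

theorem dfc_ref {P : Finset Circle} {l : Submodule ℝ (ℂ × ℝ)} {g : Lor} (h : IsRef l g) :
    dfc P g + dd P l ≤ P.card := by
  classical
  have h1 : (P.filter fun p => g • p ∈ P).card + (P.filter fun p => g • p ∉ P).card = P.card :=
    Finset.card_filter_add_card_filter_not _
  have h2 : (P.offDiag.filter fun x => tang 1 x.1 ⊓ tang 1 x.2 ≤ l).card ≤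
      (P.filter fun p => g • p ∈ P).card := by
    refine Finset.card_le_card_of_injOn (fun x => x.1) ?_ ?_
    · intro x hx
      have hx' := Finset.mem_filter.1 (Finset.mem_coe.1 hx)
      have h3 := Finset.mem_offDiag.1 hx'.1
      refine Finset.mem_coe.2 (Finset.mem_filter.2 ⟨h3.1, ?_⟩)
      rw [h.2.1 x.1 x.2 h3.2.2 hx'.2]
      exact h3.2.1
    · intro x hx y hy hxy
      have hx' := Finset.mem_filter.1 (Finset.mem_coe.1 hx)
      have hy' := Finset.mem_filter.1 (Finset.mem_coe.1 hy)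
      have h3 := h.2.1 x.1 x.2 (Finset.mem_offDiag.1 hx'.1).2.2 hx'.2
      have h4 := h.2.1 y.1 y.2 (Finset.mem_offDiag.1 hy'.1).2.2 hy'.2
      change x.1 = y.1 at hxy
      rw [hxy] at h3
      exact Prod.ext hxy (h3.symm.trans h4)
  have e1 : dfc P g = (P.filter fun p => g • p ∉ P).card := by
    unfold dfc
    congr
  have e2 : dd P l = (P.offDiag.filter fun x => tang 1 x.1 ⊓ tang 1 x.2 ≤ l).card := by
    unfold dd
    congr
  omega

end Pool.Agent.SimplC
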