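import Pool.Agent.SimplC.IneqR
import Pool.Agent.SimplC.RefInj

set_option autoImplicit false

/-! # Nearly all lines have small defect (CON_Proof.md, 1.6, 4.1)

Let `n = A.card`, `r = P.card`, `y = (oth A).card`. `A` is the disjoint union of `oth A` and the image of `P` under
`w ↦ tang 1 w` (injective, `tang_inj`; `Tan A P`), so `n = r + y`.
`hc`: `r ≥ (1/2 - 10⁻⁷) n`, so `n ≤ r (2 + 5 / 10⁷)` (`(1/2 - 10⁻⁷) (2 + 5 / 10⁷) = 1 + 2.5 / 10⁷ - 2 / 10⁷ - ... ≥ 1`),
`y ≤ r + 5 r / 10⁷`, and `r ≥ 4.9 · 10⁸`.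
`ineq`: `4 (r - 2) (r - 3) ≤ ∑ (2 r + 2 dd P l) = 4 r y - 2 ∑ (r - dd P l)` (`dd P l ≤ r` for `l ∈ oth A`: by `dfc_ref` and
`exists_ref`, or: for given `w` at most one `w'`; if you prefer, use integers `r - dd P l` and only the lower bound
`r - dd P l ≥ 0` from `dfc_ref`; the hypothesis `href` gives an involution for each `l`). So
`∑ (r - dd P l) ≤ 2 r y - 2 (r - 2) (r - 3) = 2 r (y - r + 5) - 12 ≤ 2 r (5 r / 10⁷ + 5) ≤ 1.1 · 10⁻⁶ r²` (as
`10 ≤ 10⁻⁷ r`).
Since all the terms are `≥ 0`: `y - r + 5 > 0`, i.e. `r ≤ y + 5`. Let `L = {l ∈ oth A : 1000 (r - dd P l) ≤ r}`. For `l ∉ L`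
`r - dd P l > r / 1000`, so `|oth A \ L| · r / 1000 ≤ 1.1 · 10⁻⁶ r²`, `|oth A \ L| ≤ 1.1 · 10⁻³ r`, and
`|L| ≥ y - 0.0011 r ≥ r - 5 - 0.0011 r ≥ 0.998 r`. For `l ∈ L` and `IsRef l g`: `dfc P g ≤ r - dd P l ≤ r / 1000` (`dfc_ref`). -/

namespace Pool.Agent.SimplC

open Complex Module ComplexConjugate Pool.Agent.Simpl

theorem card_oth {A : Finset (Submodule ℝ (ℂ × ℝ))} {P : Finset Circle} (hT : Tan A P) :
    A.card = P.card + (oth A).card := by
  classical
  have h1 : A.card = (A.filter fun l => ∀ w : Circle, l ≠ tang 1 w).card +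
      (A.filter fun l => ¬ ∀ w : Circle, l ≠ tang 1 w).card :=
    (Finset.card_filter_add_card_filter_not _).symm
  have h2 : (A.filter fun l => ¬ ∀ w : Circle, l ≠ tang 1 w) = P.image (tang 1) := by
    ext l
    rw [Finset.mem_filter, Finset.mem_image]
    constructor
    · rintro ⟨hl, hl'⟩
      push Not at hl'
      obtain ⟨w, rfl⟩ := hl'
      exact ⟨w, (hT w).1 hl, rfl⟩
    · rintro ⟨w, hw, rfl⟩
      exact ⟨(hT w).2 hw, fun h => h w rfl⟩
  have h3 : (P.image (tang 1)).card = P.card :=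
    Finset.card_image_of_injective _ fun w w' h => (tang_inj one_pos one_pos h).2
  have h4 : (oth A).card = (A.filter fun l => ∀ w : Circle, l ≠ tang 1 w).card := by
    unfold oth
    congr 1
  rw [h1, h2, h3, h4, add_comm]

theorem many_ref {A : Finset (Submodule ℝ (ℂ × ℝ))} (hA : ∀ H ∈ A, finrank ℝ H = 2)
    (hS : IsSimplicial A) {P : Finset Circle} (hT : Tan A P) (hn : 10 ^ 9 ≤ A.card)
    (hc : (1 / 2 - 1 / 10 ^ 7 : ℝ) * A.card ≤ P.card)
    (href : ∀ l ∈ oth A, ∃ g : Lor, IsRef l g) :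
    ∃ L ⊆ oth A, 998 * P.card ≤ 1000 * L.card ∧
      ∀ l ∈ L, ∀ g : Lor, IsRef l g → dfc P g ≤ P.card / 1000 := by
  classical
  set r : ℕ := P.card with hr
  set y : ℕ := (oth A).card with hy
  have hcard : (A.card : ℝ) = r + y := by
    rw [card_oth hT]
    push_cast
    rfl
  have hn' : (10 : ℝ) ^ 9 ≤ r + y := by
    rw [← hcard]
    exact_mod_cast hn
  rw [hcard] at hc
  have hy0 : (0 : ℝ) ≤ y := Nat.cast_nonneg _
  have hr0 : (0 : ℝ) ≤ r := Nat.cast_nonneg _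
  have hy1 : (y : ℝ) ≤ r + 5 / 10 ^ 7 * r := by
    by_contra h
    rw [not_le] at h
    nlinarith
  have hr1 : (499000000 : ℝ) ≤ r := by
    nlinarith
  have hr2 : 499000000 ≤ r := by exact_mod_cast hr1
  -- the defects
  have hdd : ∀ l ∈ oth A, dd P l ≤ r := by
    intro l hl
    obtain ⟨g, hg⟩ := href l hl
    have := dfc_ref (P := P) hg
    omega
  have hI := ineq hA hS hT (by omega)
  have hI' : 4 * (((r : ℝ) - 2) * (r - 3)) ≤ ∑ l ∈ oth A, (2 * (r : ℝ) + 2 * dd P l) := by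
    have h1 : ((4 * ((r - 2) * (r - 3)) : ℕ) : ℝ) ≤
        ((∑ l ∈ oth A, (2 * r + 2 * dd P l) : ℕ) : ℝ) := by exact_mod_cast hI
    rw [Nat.cast_mul, Nat.cast_mul, Nat.cast_sub (by omega), Nat.cast_sub (by omega)] at h1
    push_cast at h1
    exact h1
  have hsum : ∑ l ∈ oth A, (2 * (r : ℝ) + 2 * dd P l) =
      4 * r * y - 2 * ∑ l ∈ oth A, ((r : ℝ) - dd P l) := by
    rw [Finset.mul_sum]
    have h1 : (4 * (r : ℝ) * y) = ∑ l ∈ oth A, 4 * (r : ℝ) := by
      rw [Finset.sum_const, nsmul_eq_mul, ← hy]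
      ring
    rw [h1, ← Finset.sum_sub_distrib]
    refine Finset.sum_congr rfl fun l _ => ?_
    ring
  set S : ℝ := ∑ l ∈ oth A, ((r : ℝ) - dd P l) with hS'
  have hterm : ∀ l ∈ oth A, (0 : ℝ) ≤ (r : ℝ) - dd P l := by
    intro l hl
    have : ((dd P l : ℕ) : ℝ) ≤ r := by exact_mod_cast hdd l hl
    linarith
  have hS0 : 0 ≤ S := Finset.sum_nonneg hterm
  have hS1 : S ≤ 2 * r * (y - r + 5) - 12 := by
    rw [hsum] at hI'
    nlinarith
  have hS2 : S ≤ 11 / 10 ^ 7 * r ^ 2 := by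
    have h1 : 2 * (r : ℝ) * (y - r + 5) ≤ 2 * r * (5 / 10 ^ 7 * r + 5) :=
      mul_le_mul_of_nonneg_left (by linarith) (by positivity)
    nlinarith
  have hyr : (r : ℝ) ≤ y + 5 := by
    by_contra h
    rw [not_le] at h
    have h1 : 2 * (r : ℝ) * (y - r + 5) ≤ 0 :=
      mul_nonpos_of_nonneg_of_nonpos (by positivity) (by linarith)
    linarith
  -- the lines with small defect
  set L : Finset (Submodule ℝ (ℂ × ℝ)) := (oth A).filter fun l => 1000 * (r - dd P l) ≤ r with hL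
  have hsplit : (oth A).card = L.card + ((oth A).filter fun l => ¬ 1000 * (r - dd P l) ≤ r).card :=
    (Finset.card_filter_add_card_filter_not _).symm
  set N : Finset (Submodule ℝ (ℂ × ℝ)) := (oth A).filter fun l => ¬ 1000 * (r - dd P l) ≤ r with hN
  have hNS : (N.card : ℝ) * (r / 1000) ≤ S := by
    have h1 : ∑ l ∈ N, (r : ℝ) / 1000 ≤ ∑ l ∈ N, ((r : ℝ) - dd P l) := by
      refine Finset.sum_le_sum fun l hl => ?_
      rw [hN, Finset.mem_filter, not_le] at hl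
      have h2 := hdd l hl.1
      have h3 : ((r : ℕ) : ℝ) < ((1000 * (r - dd P l) : ℕ) : ℝ) := by exact_mod_cast hl.2
      rw [Nat.cast_mul, Nat.cast_sub h2] at h3
      push_cast at h3
      linarith
    have h4 : ∑ l ∈ N, ((r : ℝ) - dd P l) ≤ S :=
      Finset.sum_le_sum_of_subset_of_nonneg (Finset.filter_subset _ _) fun l hl _ => hterm l hl
    rw [Finset.sum_const, nsmul_eq_mul] at h1
    linarith
  have hN1 : (N.card : ℝ) ≤ 11 / 10 ^ 4 * r := by
    have h1 : (N.card : ℝ) * (r / 1000) ≤ (11 / 10 ^ 4 * r) * (r / 1000) := by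
      refine hNS.trans (hS2.trans (le_of_eq ?_))
      ring
    exact le_of_mul_le_mul_right h1 (by linarith)
  refine ⟨L, Finset.filter_subset _ _, ?_, ?_⟩
  · have h1 : (y : ℝ) = L.card + N.card := by
      rw [hy, hsplit]
      push_cast
      rfl
    have h2 : (998 * r : ℝ) ≤ 1000 * L.card := by
      linarith
    exact_mod_cast h2
  · intro l hl g hg
    rw [hL, Finset.mem_filter] at hl
    have h1 := dfc_ref (P := P) hg
    rw [Nat.le_div_iff_mul_le (by norm_num)]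
    have h2 := hl.2
    have h3 : dfc P g ≤ r - dd P l := by omega
    calc dfc P g * 1000 ≤ (r - dd P l) * 1000 := Nat.mul_le_mul_right _ h3
      _ = 1000 * (r - dd P l) := Nat.mul_comm _ _
      _ ≤ r := h2

end Pool.Agent.SimplC
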