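import Pool.Agent.SimplC.RotL
import Pool.Agent.SimplV.MapS

set_option autoImplicit false

/-! # Transport of an arrangement by an element of the Lorentz group (CON_Proof.md, 2.1)

`map_tang`: for `g ∈ Lor`: `x ∈ g (tang 1 w) ↔ g⁻¹ x ∈ tang 1 w ↔ bf (g⁻¹ x) (nul w) = 0 ↔ bf x (g (nul w)) = 0 ↔
bf x (nul (g • w)) = 0` (`mem_tang_iff`, `Lor_bf`, `smul_spec`: `g (nul w) = c • nul (g • w)`, `c ≠ 0`).
`tan_map`: `tang 1 w ∈ A.image (map g) ↔ tang 1 (g⁻¹ • w) ∈ A` (`map g` is injective, `map_inj`; `map_tang` for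
`g⁻¹ • w`), i.e. `g⁻¹ • w ∈ P`, i.e. `w ∈ P.image (g • ·)`.
`hyp_map`: `isArrangement_map`, `isSimplicial_map` (for `g.toContinuousLinearEquiv`), cardinalities by injectivity. -/

namespace Pool.Agent.SimplC

open Complex Module ComplexConjugate Classical Pool.Agent.Simpl Pool.Agent.SimplV

/-- The hypotheses of the theorem. -/
structure Hyp9 (A : Finset (Submodule ℝ (ℂ × ℝ))) (P : Finset Circle) : Prop where
  arr : IsArrangement A
  spl : IsSimplicial A
  tan : Tan A P
  card : 10 ^ 9 ≤ A.card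
  many : (1 / 2 - 1 / 10 ^ 7 : ℝ) * A.card ≤ P.card

theorem map_tang (g : Lor) (w : Circle) :
    (tang 1 w).map g.1.toLinearMap = tang 1 (g • w) := by
  obtain ⟨c, hc, h1⟩ := smul_spec g w
  have h2 : ∀ y, bf y (nul w) = c * bf (g.1 y) (nul (g • w)) := by
    intro y
    rw [← bf_smul_right, ← h1, Lor_bf]
  ext x
  rw [Submodule.mem_map, mem_tang_iff]
  constructor
  · rintro ⟨y, hy, rfl⟩
    rw [mem_tang_iff, h2] at hy
    exact (mul_eq_zero.1 hy).resolve_left hc.ne'
  · intro hx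
    have h3 : g.1 (g.1.symm x) = x := g.1.apply_symm_apply x
    refine ⟨g.1.symm x, ?_, h3⟩
    rw [mem_tang_iff, h2, h3, hx, mul_zero]

theorem tan_map {A : Finset (Submodule ℝ (ℂ × ℝ))} {P : Finset Circle} (hT : Tan A P) (g : Lor) :
    Tan (A.image (Submodule.map g.1.toLinearMap)) (P.image fun w => g • w) := by
  intro w
  have h1 : (tang 1 (g⁻¹ • w)).map g.1.toLinearMap = tang 1 w := by
    rw [map_tang, smul_inv_smul]
  rw [Finset.mem_image, Finset.mem_image]
  constructor
  · rintro ⟨H, hH, h2⟩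
    rw [← h1] at h2
    have h3 := map_inj g.1 h2
    rw [h3] at hH
    exact ⟨g⁻¹ • w, (hT _).1 hH, smul_inv_smul g w⟩
  · rintro ⟨u, hu, rfl⟩
    exact ⟨tang 1 u, (hT u).2 hu, map_tang g u⟩

theorem hyp_map {A : Finset (Submodule ℝ (ℂ × ℝ))} {P : Finset Circle} (h : Hyp9 A P)
    (g : Lor) : Hyp9 (A.image (Submodule.map g.1.toLinearMap)) (P.image fun w => g • w) := by
  have h1 : (A.image (Submodule.map g.1.toLinearMap)).card = A.card :=
    Finset.card_image_of_injective _ (map_inj g.1)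
  have h2 : (P.image fun w => g • w).card = P.card :=
    Finset.card_image_of_injective _ (MulAction.injective g)
  refine ⟨isArrangement_map A g.1 h.arr, isSimplicial_map A g.1.toContinuousLinearEquiv h.spl,
    tan_map h.tan g, ?_, ?_⟩
  · rw [h1]
    exact h.card
  · rw [h1, h2]
    exact h.many

end Pool.Agent.SimplC
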