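import Pool.Agent.SimplC.Rfl

set_option autoImplicit false

/-! # The involution of a line (CON_Proof.md, 2.4)

(1) `l = {x : bf x c = 0}` for some `c ≠ 0`: `l` has dimension two in a space of dimension three (`finrank_CR`), so it is the
kernel of a functional `f ≠ 0` (`ker_fn`-like argument, or `Submodule.exists_le_ker_of_lt_top` and dimensions), and
`f (z, t) = bf (z, t) c` with `c = (f (1, 0) + f (i, 0) i, -f (0, 1))`.
(2) `bf c c ≠ 0`: otherwise `c.2 ≠ 0` (else `c = 0`), and `c` or `-c` is `t • nul w`, `t > 0` (`exists_nul`), so `l = tang 1 w`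
(`mem_tang_iff`), excluded.
(3) If `bf c c > 0` take `g` from `refl_pos`, `g x = x - (2 bf x c / bf c c) • c`; if `bf c c < 0` take `g` from `refl_neg`.
`g (g x) = x`: compute. `x ∈ l ↔ bf x c = 0 ↔ g x = x` resp. `↔ g x = -x` (as `c ≠ 0`).
(4) Let `w ≠ w'`, `tang 1 w ⊓ tang 1 w' ≤ l`. Then `c = a • nul w + b • nul w'` for real `a, b`: the functionals `bf · (nul w)`,
`bf · (nul w')` are linearly independent and `bf · c` vanishes on the intersection of their kernels (for instance
`mem_span_of_iInf_ker_le_ker`, or by the non-degeneracy of `bf`). `bf (nul w) (nul w) = 0 = bf (nul w') (nul w')`,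
`κ = bf (nul w) (nul w') ≠ 0` (`bf_nul_ne`): `bf c c = 2 a b κ`, so `a, b ≠ 0`, `bf (nul w) c = b κ`, and
`nul w - (2 b κ / (2 a b κ)) • c = nul w - a⁻¹ • (a • nul w + b • nul w') = -(b / a) • nul w'`. So `g (nul w)` is a multiple of `nul w'`:
`g • w = w'` (`smul_unique`). -/

namespace Pool.Agent.SimplC

open Complex Module ComplexConjugate Pool.Agent.Simpl

/-- A plane is the orthogonal space of a vector. -/
private theorem exists_nrm {l : Submodule ℝ (ℂ × ℝ)} (hl : finrank ℝ l = 2) :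
    ∃ c : ℂ × ℝ, c ≠ 0 ∧ ∀ x, x ∈ l ↔ bf x c = 0 := by
  have hlt : l < ⊤ := by
    rw [lt_top_iff_ne_top]
    rintro rfl
    rw [finrank_top, finrank_CR] at hl
    omega
  obtain ⟨f, hf, hle⟩ := Submodule.exists_le_ker_of_lt_top l hlt
  have hk : finrank ℝ (LinearMap.ker f) = 2 := by
    have h1 := Module.Dual.finrank_ker_add_one_of_ne_zero hf
    rw [finrank_CR] at h1
    omega
  have he : l = LinearMap.ker f := Submodule.eq_of_le_of_finrank_eq hle (by rw [hl, hk])
  have hfb : ∀ x : ℂ × ℝ, f x = bf x (⟨f (1, 0), f (Complex.I, 0)⟩, -f (0, 1)) := by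
    rintro ⟨z, t⟩
    have h1 : ((z, t) : ℂ × ℝ) = z.re • ((1, 0) : ℂ × ℝ) + z.im • ((Complex.I, 0) : ℂ × ℝ) +
        t • ((0, 1) : ℂ × ℝ) := by
      refine Prod.ext ?_ ?_
      · simp only [Prod.smul_mk, Prod.mk_add_mk, Complex.real_smul, mul_one, mul_zero, add_zero]
        exact (Complex.re_add_im z).symm
      · simp
    conv_lhs => rw [h1]
    rw [map_add, map_add, map_smul, map_smul, map_smul, bf_def]
    simp only [smul_eq_mul]
    ring
  refine ⟨(⟨f (1, 0), f (Complex.I, 0)⟩, -f (0, 1)), fun h0 => hf ?_, fun x => ?_⟩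
  · refine LinearMap.ext fun x => ?_
    rw [hfb, h0, bf_def]
    simp
  · rw [he, LinearMap.mem_ker, hfb]

private theorem null_fst {x : ℂ × ℝ} (h : bf x x = 0) (h2 : x.2 = 0) : x = 0 := by
  rw [bf_def, h2] at h
  have h5 : x.1.re = 0 := by nlinarith [sq_nonneg x.1.re, sq_nonneg x.1.im]
  have h6 : x.1.im = 0 := by nlinarith [sq_nonneg x.1.re, sq_nonneg x.1.im]
  exact Prod.ext (Complex.ext h5 h6) h2

/-- A nonzero null vector is a multiple of some `nul w`. -/
private theorem null_eq {x : ℂ × ℝ} (h : bf x x = 0) (h0 : x ≠ 0) :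
    ∃ (t : ℝ) (w : Circle), t ≠ 0 ∧ x = t • nul w := by
  rcases lt_trichotomy 0 x.2 with h2 | h2 | h2
  · obtain ⟨w, hw⟩ := exists_nul h h2
    exact ⟨x.2, w, h2.ne', hw⟩
  · exact absurd (null_fst h h2.symm) h0
  · obtain ⟨w, hw⟩ := exists_nul (x := -x) (by
      rw [bf_neg_left, bf_neg_right, h, neg_zero, neg_zero]) (by
      rw [Prod.snd_neg]
      linarith)
    refine ⟨x.2, w, h2.ne, ?_⟩
    have h3 : x = -((-x).2 • nul w) := by rw [← hw, neg_neg]
    rw [Prod.snd_neg, neg_smul, neg_neg] at h3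
    exact h3

/-- The decomposition of the normal vector. -/
private theorem exists_dec {l : Submodule ℝ (ℂ × ℝ)} {c : ℂ × ℝ}
    (hc : ∀ x, x ∈ l ↔ bf x c = 0) {w w' : Circle} (hw : w ≠ w')
    (hle : tang 1 w ⊓ tang 1 w' ≤ l) : ∃ a b : ℝ, c = a • nul w + b • nul w' := by
  have hk : bf (nul w) (nul w') ≠ 0 := (bf_nul_ne hw).ne
  have hk' : bf (nul w') (nul w) = bf (nul w) (nul w') := bf_comm _ _
  obtain ⟨κ, hκ⟩ : ∃ κ, κ = bf (nul w) (nul w') := ⟨_, rfl⟩
  rw [← hκ] at hk hk'
  obtain ⟨a, ha⟩ : ∃ a, a = bf c (nul w') / κ := ⟨_, rfl⟩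
  obtain ⟨b, hb⟩ : ∃ b, b = bf c (nul w) / κ := ⟨_, rfl⟩
  have ha' : a * κ = bf c (nul w') := by rw [ha, div_mul_cancel₀ _ hk]
  have hb' : b * κ = bf c (nul w) := by rw [hb, div_mul_cancel₀ _ hk]
  refine ⟨a, b, ?_⟩
  obtain ⟨y, hy⟩ : ∃ y, y = c - a • nul w - b • nul w' := ⟨_, rfl⟩
  have h1 : bf y (nul w) = 0 := by
    rw [hy, bf_sub_left, bf_sub_left, bf_smul_left, bf_smul_left, bf_nul_nul, hk', ← hb']
    ring
  have h2 : bf y (nul w') = 0 := by
    rw [hy, bf_sub_left, bf_sub_left, bf_smul_left, bf_smul_left, bf_nul_nul, ← hκ, ← ha']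
    ring
  have h3 : bf y c = 0 := (hc y).1 (hle ⟨mem_tang_iff.2 h1, mem_tang_iff.2 h2⟩)
  have h4 : bf y y = 0 := by
    have h5 : bf y y = bf y (c - a • nul w - b • nul w') := by rw [← hy]
    rw [h5, bf_sub_right, bf_sub_right, bf_smul_right, bf_smul_right, h1, h2, h3]
    ring
  have h5 : y = 0 := by
    by_contra h0
    obtain ⟨t, v, ht, hv⟩ := null_eq h4 h0
    rw [hv, bf_smul_left] at h1 h2
    have h6 : v = w := by
      by_contra h7
      exact mul_ne_zero ht (bf_nul_ne h7).ne h1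
    have h7 : v = w' := by
      by_contra h8
      exact mul_ne_zero ht (bf_nul_ne h8).ne h2
    exact hw (h6.symm.trans h7)
  rw [h5] at hy
  have h6 : c = (c - a • nul w - b • nul w') + (a • nul w + b • nul w') := by abel
  rw [h6, ← hy, zero_add]

theorem exists_ref {l : Submodule ℝ (ℂ × ℝ)} (hl : finrank ℝ l = 2) (hnt : ∀ w, l ≠ tang 1 w) :
    ∃ g : Lor, IsRef l g := by
  obtain ⟨c, hc0, hc⟩ := exists_nrm hl
  have hcc : bf c c ≠ 0 := by
    intro h
    obtain ⟨t, w, ht, hw⟩ := null_eq h hc0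
    refine hnt w (Submodule.ext fun x => ?_)
    rw [hc, mem_tang_iff, hw, bf_smul_right, mul_eq_zero]
    constructor
    · rintro (h1 | h1)
      · exact absurd h1 ht
      · exact h1
    · exact Or.inr
  -- the image of a point of the circle
  have key : ∀ w w' : Circle, w ≠ w' → tang 1 w ⊓ tang 1 w' ≤ l →
      ∃ r : ℝ, nul w - (2 * bf (nul w) c / bf c c) • c = r • nul w' := by
    intro w w' hw hle
    obtain ⟨a, b, hab⟩ := exists_dec hc hw hle
    have hk' : bf (nul w') (nul w) = bf (nul w) (nul w') := bf_comm _ _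
    have h1 : bf (nul w) c = b * bf (nul w) (nul w') := by
      rw [hab, bf_add_right, bf_smul_right, bf_smul_right, bf_nul_nul]
      ring
    have h2 : bf (nul w') c = a * bf (nul w) (nul w') := by
      rw [hab, bf_add_right, bf_smul_right, bf_smul_right, bf_nul_nul, hk']
      ring
    have h3 : bf c c = 2 * a * b * bf (nul w) (nul w') := by
      have h0 : bf c c = bf (a • nul w + b • nul w') c := by rw [← hab]
      rw [h0, bf_add_left, bf_smul_left, bf_smul_left, h1, h2]
      ring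
    have ha : a ≠ 0 := by
      rintro rfl
      apply hcc
      rw [h3]
      ring
    have hb : b ≠ 0 := by
      rintro rfl
      apply hcc
      rw [h3]
      ring
    have hk : bf (nul w) (nul w') ≠ 0 := (bf_nul_ne hw).ne
    have h4 : 2 * bf (nul w) c / bf c c = a⁻¹ := by
      rw [h1, h3]
      field_simp
    refine ⟨-(b / a), ?_⟩
    rw [h4]
    conv_lhs => rw [hab]
    rw [smul_add, smul_smul, smul_smul, inv_mul_cancel₀ ha, one_smul, sub_add_eq_sub_sub, sub_self,
      zero_sub, neg_smul, div_eq_inv_mul]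
  have hz : ∀ x, (2 * bf x c / bf c c) • c = 0 ↔ x ∈ l := by
    intro x
    rw [hc, smul_eq_zero, or_iff_left hc0, div_eq_zero_iff, or_iff_left hcc, mul_eq_zero,
      or_iff_right (two_ne_zero' ℝ)]
  rcases lt_or_gt_of_ne hcc with hn | hp
  · obtain ⟨g, hg⟩ := refl_neg hn
    refine ⟨g, fun x => ?_, fun w w' hw hle => ?_, Or.inr fun x => ?_⟩
    · have h1 : bf (g.1 x) c = bf x c := by
        rw [hg, bf_sub_left, bf_smul_left, div_mul_cancel₀ _ hcc]
        ring
      rw [hg (g.1 x), h1, hg x]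
      abel
    · obtain ⟨r, hr⟩ := key w w' hw hle
      refine smul_unique g (c := -r) ?_
      rw [hg, neg_smul, ← hr]
      abel
    · rw [← hz x, hg]
      constructor
      · intro h
        rw [h, zero_sub]
      · intro h
        have h2 : (2 * bf x c / bf c c) • c =
            ((2 * bf x c / bf c c) • c - x) + x := by abel
        rw [h2, h, neg_add_cancel]
  · obtain ⟨g, hg⟩ := refl_pos hp
    refine ⟨g, fun x => ?_, fun w w' hw hle => ?_, Or.inl fun x => ?_⟩
    · have h1 : bf (g.1 x) c = -bf x c := by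
        rw [hg, bf_sub_left, bf_smul_left, div_mul_cancel₀ _ hcc]
        ring
      rw [hg (g.1 x), h1, hg x, mul_neg, neg_div, neg_smul]
      abel
    · obtain ⟨r, hr⟩ := key w w' hw hle
      refine smul_unique g (c := r) ?_
      rw [hg, hr]
    · rw [← hz x, hg]
      constructor
      · intro h
        rw [h, sub_zero]
      · intro h
        have h2 : (2 * bf x c / bf c c) • c =
            x - (x - (2 * bf x c / bf c c) • c) := by abel
        rw [h2, h, sub_self]

end Pool.Agent.SimplC
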