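import Pool.Agent.SimplC.CountL
import Pool.Agent.SimplC.Grow
import Pool.Agent.SimplC.Many
import Pool.Agent.SimplC.MapL
import Pool.Agent.SimplC.RefEx
import Pool.Agent.SimplC.FinL

set_option autoImplicit false

/-! # The group of rotations (CON_Proof.md, 4.1, 4.2)

Let `r = P.card ≥ 10⁸`, `m = r / 1000` (natural division; `m ≤ r / 1000 < m + 1`). `many_ref` (`href` from `exists_ref`; the
planes of `A` have dimension two) gives `L`; choose for each `l ∈ L` an involution `g_l` with `IsRef l g_l`; the map `l ↦ g_l` is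
injective (`isRef_inj`); let `I` be its image: `|I| = |L| ≥ 0.998 r`, `dfc P g ≤ m` for `g ∈ I`. `grow` with `Γ = Lor`, `X = Circle`,
`Γp = LorP`, `hΓ` = `neg_mul_neg_mem`, `hb` = `count_lor`; `250 m < r`;
`2 |I| (r - 250 m) ≥ 2 · 0.998 r · 0.75 r = 1.497 r² > r²`. We get `H` and `k`. `fin_rot` for `H` gives `e` with
`g ∈ H ↔ ∃ w, w ^ N = 1 ∧ e * g * e⁻¹ = rotL w`, `N = Nat.card H`.
Let `A' = A.image (map e)`, `P' = P.image (e • ·)`: `hyp_map`. `P'.card = r`. `dfc_conj`: `dfc P' (e * g * e⁻¹) = dfc P g`. So for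
`w ^ N = 1`: `rotL w = e * g * e⁻¹` with `g = e⁻¹ * rotL w * e ∈ H`, `dfc P' (rotL w) = dfc P g ≤ 2 k`; and for `g' ∈ LorP` with
`dfc P' g' ≤ 4 k`: `g = e⁻¹ * g' * e ∈ LorP` has `dfc P g ≤ 4 k`, so `g ∈ H` and `g' = rotL w`, `w ^ N = 1`. -/

namespace Pool.Agent.SimplC

open Complex Module ComplexConjugate Classical Pool.Agent.Simpl Pool.Agent.SimplV

theorem exists_rotations {A : Finset (Submodule ℝ (ℂ × ℝ))} {P : Finset Circle}
    (h : Hyp9 A P) : ∃ (e : Lor) (N k : ℕ), 0 < N ∧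
      (k = 2 * (P.card / 1000) ∨ k = 10 * (P.card / 1000)) ∧
      (N : ℤ) * ((P.card : ℤ) - 100 * (P.card / 1000 : ℕ)) ≤ (P.card : ℤ) ^ 2 ∧
      (∀ w : Circle, w ^ N = 1 → dfc (P.image fun w => e • w) (rotL w) ≤ 2 * k) ∧
      (∀ g ∈ LorP, dfc (P.image fun w => e • w) g ≤ 4 * k →
        ∃ w : Circle, w ^ N = 1 ∧ g = rotL w) := by
  have hA : ∀ H ∈ A, finrank ℝ H = 2 := h.arr.1
  have hoth : ∀ l ∈ oth A, l ∈ A ∧ ∀ w : Circle, l ≠ tang 1 w := by
    intro l hl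
    unfold oth at hl
    exact Finset.mem_filter.1 hl
  have href : ∀ l ∈ oth A, ∃ g : Lor, IsRef l g := fun l hl =>
    exists_ref (hA l (hoth l hl).1) (hoth l hl).2
  have hr : 10 ^ 8 ≤ P.card := by
    have h1 := h.many
    have h2 : (10 ^ 9 : ℝ) ≤ A.card := by exact_mod_cast h.card
    have h3 : (10 ^ 8 : ℝ) ≤ P.card := by
      generalize (A.card : ℝ) = a at h1 h2
      generalize (P.card : ℝ) = r at h1 ⊢
      norm_num at h1 h2 ⊢
      linarith
    exact_mod_cast h3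
  obtain ⟨L, hLo, hLc, hL⟩ := many_ref hA h.spl h.tan h.card h.many href
  let G : Submodule ℝ (ℂ × ℝ) → Lor := fun l => if hl : l ∈ oth A then (href l hl).choose else 1
  have hG : ∀ l ∈ oth A, IsRef l (G l) := by
    intro l hl
    have e : G l = (href l hl).choose := dif_pos hl
    rw [e]
    exact (href l hl).choose_spec
  have hinj : Set.InjOn G (L : Set (Submodule ℝ (ℂ × ℝ))) := by
    intro l hl l' hl' e
    have h1 := hLo hl
    have h2 := hLo hl'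
    have h3 := hG l h1
    rw [e] at h3
    exact isRef_inj (hA l (hoth l h1).1) (hA l' (hoth l' h2).1) h3 (hG l' h2)
  have hcard : (L.image G).card = L.card := Finset.card_image_of_injOn hinj
  have hbig : (P.card : ℤ) ^ 2 <
      2 * (L.image G).card * ((P.card : ℤ) - 250 * (P.card / 1000 : ℕ)) := by
    rw [hcard]
    have h1 : 998 * (P.card : ℤ) ≤ 1000 * (L.card : ℤ) := by exact_mod_cast hLc
    have h2 : 1000 * ((P.card / 1000 : ℕ) : ℤ) ≤ (P.card : ℤ) := by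
      have := Nat.mul_div_le P.card 1000
      exact_mod_cast this
    have h3 : (10 : ℤ) ^ 8 ≤ (P.card : ℤ) := by exact_mod_cast hr
    generalize (P.card : ℤ) = r at h1 h2 h3 ⊢
    generalize ((P.card / 1000 : ℕ) : ℤ) = m at h2 ⊢
    generalize (L.card : ℤ) = a at h1 ⊢
    have hr0 : 0 < r := by
      have : (0 : ℤ) < 10 ^ 8 := by norm_num
      linarith
    have h4 : 3 * r ≤ 4 * (r - 250 * m) := by linarith
    have h5 : 998 * r * (3 * r) ≤ 1000 * a * (4 * (r - 250 * m)) := by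
      apply mul_le_mul h1 h4 (by positivity)
      linarith
    have h6 : 0 < r * r := mul_pos hr0 hr0
    nlinarith
  obtain ⟨H, k, hk, hH, hH4, hfin, hHc⟩ := grow LorP (fun g g' hg hg' => neg_mul_neg_mem hg hg') P
    (fun m' G' hG' => count_lor (by omega) m' G' hG') (P.card / 1000) (by omega) (L.image G)
    (by
      intro g hg
      obtain ⟨l, hl, rfl⟩ := Finset.mem_image.1 hg
      exact hL l hl _ (hG l (hLo hl))) hbig
  obtain ⟨e, he⟩ := fin_rot H (fun g hg => ((hH g).1 hg).1) hfin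
  have hc : ∀ g : Lor, e * (e⁻¹ * g * e) * e⁻¹ = g := fun g => by group
  refine ⟨e, Nat.card H, k, Nat.card_pos, hk, hHc, ?_, ?_⟩
  · intro w hw
    have h1 : e⁻¹ * rotL w * e ∈ H := (he _).2 ⟨w, hw, hc _⟩
    have h2 := ((hH _).1 h1).2
    have h3 := dfc_conj P e (e⁻¹ * rotL w * e)
    rw [hc] at h3
    rw [h3]
    exact h2
  · intro g hg hgk
    have h3 := dfc_conj P e (e⁻¹ * g * e)
    rw [hc] at h3
    rw [h3] at hgk
    have h4 : e⁻¹ * g * e ∈ LorP := by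
      rw [mem_LorP] at hg ⊢
      have e1 : (e.1 : (ℂ × ℝ) →ₗ[ℝ] (ℂ × ℝ)) ∘ₗ ((e⁻¹ * g * e).1 : (ℂ × ℝ) →ₗ[ℝ] (ℂ × ℝ)) =
          (g.1 : (ℂ × ℝ) →ₗ[ℝ] (ℂ × ℝ)) ∘ₗ (e.1 : (ℂ × ℝ) →ₗ[ℝ] (ℂ × ℝ)) := by
        have h5 : e * (e⁻¹ * g * e) = g * e := by group
        exact congrArg (fun k : Lor => (k.1 : (ℂ × ℝ) →ₗ[ℝ] (ℂ × ℝ))) h5
      have h6 := congrArg LinearMap.det e1
      rw [LinearMap.det_comp, LinearMap.det_comp, mul_comm] at h6
      have h7 : LinearMap.det (e.1 : (ℂ × ℝ) →ₗ[ℝ] (ℂ × ℝ)) ≠ 0 :=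
        (LinearEquiv.isUnit_det' e.1).ne_zero
      rw [mul_right_cancel₀ h7 h6]
      exact hg
    have h8 := hH4 _ h4 hgk
    obtain ⟨w, hw, hw'⟩ := (he _).1 h8
    rw [hc] at hw'
    exact ⟨w, hw, hw'⟩

end Pool.Agent.SimplC
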