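import Pool.Agent.SimplC.Serve
import Pool.Agent.SimplC.Cnt
import Pool.Agent.SimplC.FlagCard

set_option autoImplicit false

/-! # The inequality in the chart (CON_Proof.md, 1.5)

`r = P.card`. Let `T = P.image (fun w => w.im / (1 - w.re))`: as `1 ∉ P`, `par` gives a bijection of `T` with `P` (`exists_par`,
`par_inj`; or take `T` = the image of `P` under a choice of parameters), so `T.card = r`; let
`t i = (T.orderEmbOfFin rfl ⟨i, _⟩ : ℝ)` for `i < r` and `t i = 0` for `i ≥ r`. Then `t` is strictly increasing on the indices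
less than `r` and `w ∈ P` iff `w = par (t i)` for some `i < r`; `hT` of `serve` follows from `Tan A P`.
For `l ∈ oth A` let `S l` be the set of the flags `x ∈ flags r` with
`Serves (fun i j => fn l (vv (t i) (t j))) x.1 x.2.1 x.2.2.1 x.2.2.2`. By `serve` `flags r` is the union of the `S l`, so
`4 (r - 2) (r - 3) ≤ |flags r| ≤ ∑ |S l|` (`le_card_flags`, `Finset.card_biUnion_le`). By `lin_vv`
`fn l (vv (t i) (t j)) = phi (fn l (1, 1)) (fn l (I, 0)) (fn l (-1, 1)) t i j`, and `disc_ne` (`ker (fn l) = l` by `ker_fn`,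
`l ∈ oth A`) gives the hypothesis `hd` of `card_served`; let `Z` be the set of the pairs `(i, j)`, `i, j < r`, `i ≠ j`, with
`fn l (vv (t i) (t j)) = 0`. Then `vv (t i) (t j) ∈ l` and by `inf_le` `tang 1 (par (t i)) ⊓ tang 1 (par (t j)) ≤ l`; the map
`(i, j) ↦ (par (t i), par (t j))` is injective on `Z` with values in the set counted by `dd P l`, so `Z.card ≤ dd P l`. -/

namespace Pool.Agent.SimplC

open Complex Module ComplexConjugate Pool.Agent.Simpl

/-- the parameters of the points of `P` -/
private theorem exists_t {P : Finset Circle} (h1 : (1 : Circle) ∉ P) :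
    ∃ t : ℕ → ℝ, (∀ i j, i < j → j < P.card → t i < t j) ∧
      ∀ w, w ∈ P ↔ ∃ i < P.card, par (t i) = w := by
  classical
  have hex : ∀ w : Circle, ∃ a : ℝ, w ≠ 1 → par a = w := by
    intro w
    by_cases h : w = 1
    · exact ⟨0, fun h' => absurd h h'⟩
    · obtain ⟨a, ha⟩ := exists_par h
      exact ⟨a, fun _ => ha⟩
  choose pr hpr using hex
  have hpr' : ∀ w ∈ P, par (pr w) = w := fun w hw => hpr w (fun h => h1 (h ▸ hw))
  have hinj : Set.InjOn pr P := by
    intro w hw w' hw' h
    rw [← hpr' w hw, ← hpr' w' hw', h]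
  set T : Finset ℝ := P.image pr with hTdef
  have hcard : T.card = P.card := Finset.card_image_of_injOn hinj
  refine ⟨fun i => if h : i < P.card then T.orderEmbOfFin hcard ⟨i, h⟩ else 0, ?_, ?_⟩
  · intro i j hij hj
    have hi : i < P.card := hij.trans hj
    simp only [hi, hj, dif_pos]
    exact (T.orderEmbOfFin hcard).strictMono hij
  · intro w
    constructor
    · intro hw
      have h2 : pr w ∈ T := Finset.mem_image_of_mem pr hw
      have h3 : pr w ∈ Set.range (T.orderEmbOfFin hcard) := by
        rw [Finset.range_orderEmbOfFin]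
        exact h2
      obtain ⟨⟨i, hi⟩, h4⟩ := h3
      refine ⟨i, hi, ?_⟩
      simp only [hi, dif_pos]
      rw [h4]
      exact hpr' w hw
    · rintro ⟨i, hi, h2⟩
      simp only [hi, dif_pos] at h2
      have h3 : T.orderEmbOfFin hcard ⟨i, hi⟩ ∈ T := Finset.orderEmbOfFin_mem T hcard _
      obtain ⟨w', hw', h4⟩ := Finset.mem_image.1 h3
      rw [← h4, hpr' w' hw'] at h2
      rw [← h2]
      exact hw'

theorem ineq_chart {A : Finset (Submodule ℝ (ℂ × ℝ))} (hA : ∀ H ∈ A, finrank ℝ H = 2)
    (hS : IsSimplicial A) {P : Finset Circle} (hT : Tan A P) (h1 : (1 : Circle) ∉ P)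
    (hr : 4 ≤ P.card) :
    4 * ((P.card - 2) * (P.card - 3)) ≤ ∑ l ∈ oth A, (2 * P.card + 2 * dd P l) := by
  classical
  obtain ⟨t, ht, htP⟩ := exists_t h1
  have hT' : ∀ w, tang 1 w ∈ A ↔ ∃ i < P.card, par (t i) = w := fun w => (hT w).trans (htP w)
  have htinj : ∀ i j, i < P.card → j < P.card → t i = t j → i = j := by
    intro i j hi hj h
    rcases lt_trichotomy i j with h2 | h2 | h2
    · exact absurd h (ht i j h2 hj).ne
    · exact h2
    · exact absurd h (ht j i h2 hi).ne'
  let S : Submodule ℝ (ℂ × ℝ) → Finset (ℕ × ℕ × ℕ × ℕ) := fun l => (flags P.card).filter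
    fun x => Serves (fun i j => fn l (vv (t i) (t j))) x.1 x.2.1 x.2.2.1 x.2.2.2
  have hcov : flags P.card ⊆ (oth A).biUnion S := by
    intro x hx
    have hx' := hx
    simp only [flags, Finset.mem_filter, Finset.mem_product, Finset.mem_range] at hx'
    obtain ⟨⟨ha, ha', hb, hb'⟩, hf⟩ := hx'
    obtain ⟨l, hl, hserve⟩ := serve hA hS ht hT' hf ha ha' hb hb'
    rw [Finset.mem_biUnion]
    exact ⟨l, hl, Finset.mem_filter.2 ⟨hx, hserve⟩⟩
  have hSl : ∀ l ∈ oth A, (S l).card ≤ 2 * P.card + 2 * dd P l := by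
    intro l hl
    have hl' : l ∈ A ∧ ∀ w : Circle, l ≠ tang 1 w := by
      simpa [oth] using hl
    have hfr := hA l hl'.1
    have hker : LinearMap.ker (fn l) = l := ker_fn (by rw [hfr, finrank_CR])
    have hf0 : fn l ≠ 0 := by
      intro h0
      rw [h0, LinearMap.ker_zero] at hker
      rw [← hker, finrank_top, finrank_CR] at hfr
      omega
    have hd := disc_ne hf0 (fun w => by rw [hker]; exact hl'.2 w)
    have hphi : ∀ i j, fn l (vv (t i) (t j)) =
        phi (fn l (1, 1)) (fn l (I, 0)) (fn l (-1, 1)) t i j := by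
      intro i j
      rw [lin_vv]
      rfl
    let Z : Finset (ℕ × ℕ) := (Finset.range P.card ×ˢ Finset.range P.card).filter
      fun p => p.1 ≠ p.2 ∧ fn l (vv (t p.1) (t p.2)) = 0
    have hZ : Z.card ≤ dd P l := by
      unfold dd
      refine Finset.card_le_card_of_injOn (fun p => (par (t p.1), par (t p.2))) ?_ ?_
      · intro p hp
        have hp' : p ∈ Z := hp
        simp only [Z, Finset.mem_filter, Finset.mem_product, Finset.mem_range] at hp'
        obtain ⟨⟨hi, hj⟩, hne, h0⟩ := hp'
        have htne : t p.1 ≠ t p.2 := fun h => hne (htinj _ _ hi hj h)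
        have hmem : vv (t p.1) (t p.2) ∈ l := by
          rw [← hker]
          exact h0
        simp only [Finset.coe_filter, Finset.mem_offDiag, Set.mem_ofPred_eq]
        exact ⟨⟨(htP _).2 ⟨_, hi, rfl⟩, (htP _).2 ⟨_, hj, rfl⟩,
          fun h => htne (par_inj h)⟩, inf_le htne hmem⟩
      · intro p hp p' hp' h
        have hp1 : p ∈ Z := hp
        have hp2 : p' ∈ Z := hp'
        simp only [Z, Finset.mem_filter, Finset.mem_product, Finset.mem_range] at hp1 hp2
        have h2 := Prod.mk.inj h
        exact Prod.ext (htinj _ _ hp1.1.1 hp2.1.1 (par_inj h2.1))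
          (htinj _ _ hp1.1.2 hp2.1.2 (par_inj h2.2))
    refine (card_served hd ht (S l) (Finset.filter_subset _ _) ?_ Z ?_).trans (by omega)
    · intro x hx
      have h2 := (Finset.mem_filter.1 hx).2
      simp only [hphi] at h2
      exact h2
    · intro i j hi hj hij h0
      rw [← hphi] at h0
      simp only [Z, Finset.mem_filter, Finset.mem_product, Finset.mem_range]
      exact ⟨⟨hi, hj⟩, hij, h0⟩
  calc 4 * ((P.card - 2) * (P.card - 3)) ≤ (flags P.card).card :=
        le_card_flags P.card (by omega)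
    _ ≤ ((oth A).biUnion S).card := Finset.card_le_card hcov
    _ ≤ ∑ l ∈ oth A, (S l).card := Finset.card_biUnion_le
    _ ≤ ∑ l ∈ oth A, (2 * P.card + 2 * dd P l) := Finset.sum_le_sum hSl

end Pool.Agent.SimplC
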