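import Pool.Agent.SimplC.Ineq
import Pool.Agent.SimplV.MapS

set_option autoImplicit false

/-! # The inequality (CON_Proof.md, Theorem 1)

`Circle` is infinite, so there is `u : Circle`, `u ∉ P`. Let `e = rot u⁻¹`, `A' = A.image (map e)`, `P' = P.image (u⁻¹ * ·)`.
`map_rot_tang` (`Simpl/PBasic.lean`): `(tang 1 w).map e = tang 1 (u⁻¹ * w)`, and `map e` is injective (`map_inj` in
`SimplV/MapS.lean`), so `Tan A' P'`; `1 ∉ P'`; `P'.card = P.card`; the planes of `A'` have dimension two
(`LinearEquiv.finrank_map_eq`); `A'` is simplicial (`isSimplicial_map` with `e.toContinuousLinearEquiv`);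
`oth A' = (oth A).image (map e)` and `dd P' (l.map e) = dd P l` (`map_le`, `map` commutes with `⊓`:
`Submodule.map_inf`). `ineq_chart` for `A'`. -/

namespace Pool.Agent.SimplC

open Complex Module ComplexConjugate Pool.Agent.Simpl Pool.Agent.SimplV

private theorem ineqR_exists (P : Finset Circle) : ∃ u : Circle, u ∉ P := by
  have h1 : Function.Injective fun n : ℕ => Circle.exp (1 / ((n : ℝ) + 1)) := by
    intro m n h
    have key : ∀ k : ℕ, ((Circle.exp (1 / ((k : ℝ) + 1)) : Circle) : ℂ).arg =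
        1 / ((k : ℝ) + 1) := by
      intro k
      have h3 : (0 : ℝ) < 1 / ((k : ℝ) + 1) := by positivity
      have h4 : 1 / ((k : ℝ) + 1) ≤ 1 := by
        rw [div_le_one (by positivity)]
        have : (0 : ℝ) ≤ (k : ℝ) := Nat.cast_nonneg k
        linarith
      exact Circle.arg_exp (by linarith [Real.pi_pos]) (by linarith [Real.pi_gt_three])
    have h2 := key m
    have h3 := key n
    have h4 : (Circle.exp (1 / ((m : ℝ) + 1)) : Circle) = Circle.exp (1 / ((n : ℝ) + 1)) := h
    rw [h4, h3] at h2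
    have h5 : (m : ℝ) + 1 = (n : ℝ) + 1 := by
      have h6 := congrArg (fun x : ℝ => x⁻¹) h2
      simp only [one_div, inv_inv] at h6
      exact h6.symm
    exact_mod_cast (add_right_cancel h5)
  have h2 : Infinite Circle := Infinite.of_injective _ h1
  exact Infinite.exists_notMem_finset P

private theorem ineqR_dd (u : Circle) (P : Finset Circle) (l : Submodule ℝ (ℂ × ℝ))
    (P' : Finset Circle) (hP' : ∀ w, w ∈ P' ↔ u * w ∈ P) :
    dd P' (l.map (rot u⁻¹).toLinearMap) = dd P l := by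
  classical
  have hle : ∀ v w : Circle, (tang 1 (u⁻¹ * v) ⊓ tang 1 (u⁻¹ * w) ≤ l.map (rot u⁻¹).toLinearMap ↔
      tang 1 v ⊓ tang 1 w ≤ l) := by
    intro v w
    rw [← map_rot_tang, ← map_rot_tang, ← Submodule.map_inf _ (rot u⁻¹).injective, map_le]
  symm
  unfold dd
  refine Finset.card_bij (fun x _ => (u⁻¹ * x.1, u⁻¹ * x.2)) ?_ ?_ ?_
  · intro x hx
    rw [Finset.mem_filter, Finset.mem_offDiag] at hx ⊢
    refine ⟨⟨(hP' _).2 ?_, (hP' _).2 ?_, ?_⟩, (hle _ _).2 hx.2⟩
    · rw [mul_inv_cancel_left]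
      exact hx.1.1
    · rw [mul_inv_cancel_left]
      exact hx.1.2.1
    · intro h
      exact hx.1.2.2 (mul_left_cancel h)
  · intro x _ y _ hxy
    have h1 := congrArg Prod.fst hxy
    have h2 := congrArg Prod.snd hxy
    exact Prod.ext (mul_left_cancel h1) (mul_left_cancel h2)
  · intro y hy
    rw [Finset.mem_filter, Finset.mem_offDiag] at hy
    have e1 : u⁻¹ * (u * y.1) = y.1 := inv_mul_cancel_left _ _
    have e2 : u⁻¹ * (u * y.2) = y.2 := inv_mul_cancel_left _ _
    refine ⟨(u * y.1, u * y.2), ?_, ?_⟩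
    · rw [Finset.mem_filter, Finset.mem_offDiag]
      refine ⟨⟨(hP' _).1 hy.1.1, (hP' _).1 hy.1.2.1, ?_⟩, ?_⟩
      · intro h
        exact hy.1.2.2 (mul_left_cancel h)
      · rw [← hle]
        change tang 1 (u⁻¹ * (u * y.1)) ⊓ tang 1 (u⁻¹ * (u * y.2)) ≤ _
        rw [e1, e2]
        exact hy.2
    · exact Prod.ext e1 e2

theorem ineq {A : Finset (Submodule ℝ (ℂ × ℝ))} (hA : ∀ H ∈ A, finrank ℝ H = 2)
    (hS : IsSimplicial A) {P : Finset Circle} (hT : Tan A P) (hr : 4 ≤ P.card) :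
    4 * ((P.card - 2) * (P.card - 3)) ≤ ∑ l ∈ oth A, (2 * P.card + 2 * dd P l) := by
  classical
  obtain ⟨u, hu⟩ := ineqR_exists P
  have hmt : ∀ w : Circle, (tang 1 (u * w)).map (rot u⁻¹).toLinearMap = tang 1 w := by
    intro w
    rw [map_rot_tang, inv_mul_cancel_left]
  have hP' : ∀ w, w ∈ P.image (fun v => u⁻¹ * v) ↔ u * w ∈ P := by
    intro w
    rw [Finset.mem_image]
    constructor
    · rintro ⟨v, hv, rfl⟩
      rw [mul_inv_cancel_left]
      exact hv
    · intro h
      exact ⟨u * w, h, inv_mul_cancel_left _ _⟩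
  have hcard : (P.image (fun v => u⁻¹ * v)).card = P.card :=
    Finset.card_image_of_injective _ (mul_right_injective u⁻¹)
  have hmem : ∀ w : Circle,
      tang 1 w ∈ A.image (Submodule.map (rot u⁻¹).toLinearMap) ↔ tang 1 (u * w) ∈ A := by
    intro w
    rw [Finset.mem_image]
    constructor
    · rintro ⟨H, hH, hHw⟩
      rw [← hmt w] at hHw
      rw [← map_inj _ hHw]
      exact hH
    · intro h
      exact ⟨_, h, hmt w⟩
  have hA' : ∀ H ∈ A.image (Submodule.map (rot u⁻¹).toLinearMap), finrank ℝ H = 2 := by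
    intro H hH
    obtain ⟨G, hG, rfl⟩ := Finset.mem_image.1 hH
    rw [← hA G hG]
    exact LinearEquiv.finrank_map_eq (rot u⁻¹) G
  have hS2 : IsSimplicial (A.image (Submodule.map (rot u⁻¹).toLinearMap)) :=
    isSimplicial_map A (rot u⁻¹).toContinuousLinearEquiv hS
  have hT2 : Tan (A.image (Submodule.map (rot u⁻¹).toLinearMap))
      (P.image (fun v => u⁻¹ * v)) := by
    intro w
    rw [hmem, hP']
    exact hT (u * w)
  have h1 : (1 : Circle) ∉ P.image (fun v => u⁻¹ * v) := by
    rw [hP', mul_one]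
    exact hu
  have key := ineq_chart hA' hS2 hT2 h1 (by rw [hcard]; exact hr)
  rw [hcard] at key
  have hoth : oth (A.image (Submodule.map (rot u⁻¹).toLinearMap)) =
      (oth A).image (Submodule.map (rot u⁻¹).toLinearMap) := by
    ext H
    unfold oth
    simp only [Finset.mem_filter, Finset.mem_image]
    constructor
    · rintro ⟨⟨G, hG, rfl⟩, h2⟩
      refine ⟨G, ⟨hG, fun w hw => h2 (u⁻¹ * w) ?_⟩, rfl⟩
      rw [hw, map_rot_tang]
    · rintro ⟨G, ⟨hG, h2⟩, rfl⟩
      refine ⟨⟨G, hG, rfl⟩, fun w hw => h2 (u * w) ?_⟩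
      rw [← hmt w] at hw
      exact map_inj _ hw
  rw [hoth, Finset.sum_image fun x _ y _ h => map_inj _ h] at key
  refine key.trans (le_of_eq (Finset.sum_congr rfl fun l _ => ?_))
  rw [ineqR_dd u P l _ hP']

end Pool.Agent.SimplC
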