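import Pool.Agent.SimplC.Many
import Pool.Agent.SimplV.Stab

set_option autoImplicit false

/-! # Nearly regular arrangements (CON_Proof.md, 4.7)

`mem_polReg` (`SimplV/Rts.lean`), `stability` (`SimplV/Stab.lean`). Let `r = P.card`, `n = A.card`. The number of the elements of
`polReg N` which are not in `A` is at most `(N - |P ∩ μ|) + (N - |S|)` (`μ = {w : w ^ N = 1}` has `N` elements;
`tang 1 w ∈ A` for `w ∈ P ∩ μ`, `ax s ∈ A` for `s ∈ S`, `S ⊆ μ`), at most `0.03 N + N - 0.996 r ≤ 0.03 N + N - 0.996 · 0.89 N ≤ 0.15 N`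
(`hN'`: `r ≥ 0.89 N`). `A \ polReg N`: `A` contains the `|P ∩ μ| + |S|` different planes `tang 1 w`, `w ∈ P ∩ μ`, `ax s`, `s ∈ S`
(`tang_ne_ax`, `tang_inj`, `ax_inj`) of `polReg N`, so
`|A \ polReg N| ≤ n - 0.97 N - 0.996 r ≤ 2.000001 r - 0.97 · 0.99 r - 0.996 r ≤ 0.05 r ≤ 0.06 N` (`hn`, `h2`). `N ≥ 0.99 r ≥ 500`
(`hr`). `stability`. -/

namespace Pool.Agent.SimplC

open Complex Module ComplexConjugate Classical Pool.Agent.Simpl Pool.Agent.SimplV

theorem near {A : Finset (Submodule ℝ (ℂ × ℝ))} (hA : ∀ H ∈ A, finrank ℝ H = 2) (hM : Mel A)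
    {P : Finset Circle} (hT : Tan A P) {N : ℕ} (hr : 1000 ≤ P.card)
    (hn : (A.card : ℝ) ≤ (2 + 1 / 10 ^ 6) * P.card)
    (h1 : 97 * N ≤ 100 * (P.filter fun p => p ^ N = 1).card) (h2 : 990 * P.card ≤ 1000 * N)
    (hN' : 890 * N ≤ 1000 * P.card) (S : Finset Circle) (hS : ∀ s ∈ S, s ^ N = 1)
    (hSA : ∀ s ∈ S, ax s ∈ A) (hSc : 996 * P.card ≤ 1000 * S.card) :
    A = polReg N ∨ (Even N ∧ A = insert infl (polReg N)) := by
  have hN : 0 < N := by omega
  have hSr : S ⊆ rts N := fun s hs => (mem_rts hN s).2 (hS s hs)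
  have hPr : (P.filter fun p => p ^ N = 1) ⊆ rts N := fun p hp =>
    (mem_rts hN p).2 (Finset.mem_filter.1 hp).2
  have hSle : S.card ≤ N := (Finset.card_le_card hSr).trans_eq card_rts
  have hPle : (P.filter fun p => p ^ N = 1).card ≤ N :=
    (Finset.card_le_card hPr).trans_eq card_rts
  have hnat : 1000000 * A.card ≤ 2000001 * P.card := by
    have h3 : (1000000 : ℝ) * A.card ≤ 2000001 * P.card := by
      nlinarith [hn]
    exact_mod_cast h3
  have hd := card_polReg_sdiff hN A
  have hd1 : ((rts N).filter fun w => tang 1 w ∉ A).card ≤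
      N - (P.filter fun p => p ^ N = 1).card := by
    have h4 : ((rts N).filter fun w => tang 1 w ∉ A) ⊆
        rts N \ (P.filter fun p => p ^ N = 1) := by
      intro w hw
      rw [Finset.mem_filter] at hw
      rw [Finset.mem_sdiff]
      refine ⟨hw.1, fun h5 => hw.2 ((hT w).2 (Finset.mem_filter.1 h5).1)⟩
    refine (Finset.card_le_card h4).trans ?_
    rw [Finset.card_sdiff_of_subset hPr, card_rts]
  have hd2 : ((rts N).filter fun w => ax w ∉ A).card ≤ N - S.card := by
    have h4 : ((rts N).filter fun w => ax w ∉ A) ⊆ rts N \ S := by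
      intro w hw
      rw [Finset.mem_filter] at hw
      rw [Finset.mem_sdiff]
      exact ⟨hw.1, fun h5 => hw.2 (hSA w h5)⟩
    refine (Finset.card_le_card h4).trans ?_
    rw [Finset.card_sdiff_of_subset hSr, card_rts]
  have hB : (P.filter fun p => p ^ N = 1).card + S.card ≤ (A ∩ polReg N).card := by
    have hdis : Disjoint ((P.filter fun p => p ^ N = 1).image (tang 1)) (S.image ax) := by
      rw [Finset.disjoint_left]
      intro L hL hL'
      obtain ⟨w, -, rfl⟩ := Finset.mem_image.1 hL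
      obtain ⟨s, -, h3⟩ := Finset.mem_image.1 hL'
      exact tang_ne_ax one_pos h3.symm
    have hsub : (P.filter fun p => p ^ N = 1).image (tang 1) ∪ S.image ax ⊆ A ∩ polReg N := by
      intro L hL
      rw [Finset.mem_inter, mem_polReg hN]
      rcases Finset.mem_union.1 hL with h | h
      · obtain ⟨w, hw, rfl⟩ := Finset.mem_image.1 h
        rw [Finset.mem_filter] at hw
        exact ⟨(hT w).2 hw.1, Or.inl ⟨w, hw.2, rfl⟩⟩
      · obtain ⟨s, hs, rfl⟩ := Finset.mem_image.1 h
        exact ⟨hSA s hs, Or.inr ⟨s, hS s hs, rfl⟩⟩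
    have hc := Finset.card_le_card hsub
    rw [Finset.card_union_of_disjoint hdis,
      Finset.card_image_of_injective _ fun a b h => (tang_inj one_pos one_pos h).2,
      Finset.card_image_of_injective _ fun a b h => ax_inj h] at hc
    exact hc
  have hA2 := Finset.card_sdiff_add_card_inter A (polReg N)
  refine stability (by omega) hA hM ?_ ?_
  · omega
  · omega

end Pool.Agent.SimplC
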