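import Pool.Agent.SimplC.RotL
import Pool.Agent.SimplV.Rts

set_option autoImplicit false

/-! # A set nearly invariant under the roots of unity is nearly one coset (CON_Proof.md, 4.5)

Count the pairs `(w, p)`, `w ^ N = 1`, `p ∈ P`, `w * p ∈ P`: for each `w` (there are `N` of them: `Circle.exp (2 π k / N)`, `k < N`;
`rootsOfUnity`, or `card_rts`-like lemmas in `Pool/Agent/SimplV/Rts.lean`) at least `P.card - D`; on the other hand
`(w, p) ↦ (p, w * p)` is an injective map into the pairs `(p, q) ∈ P²` with `p ^ N = q ^ N`. So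
`N (P.card - D) ≤ ∑ p ∈ P, |{q ∈ P : q ^ N = p ^ N}| ≤ P.card * max`. -/

namespace Pool.Agent.SimplC

open Complex Module ComplexConjugate Classical Pool.Agent.Simpl

theorem orbit {P : Finset Circle} (hP : P.Nonempty) {N : ℕ} (hN : 0 < N) (D : ℕ)
    (h : ∀ w : Circle, w ^ N = 1 → dfc P (rotL w) ≤ D) :
    ∃ u ∈ P, (N : ℤ) * ((P.card : ℤ) - D) ≤
      P.card * ((P.filter fun p => p ^ N = u ^ N).card : ℤ) := by
  obtain ⟨u, hu, hmax⟩ := Finset.exists_max_image P
    (fun u => (P.filter fun p => p ^ N = u ^ N).card) hP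
  refine ⟨u, hu, ?_⟩
  obtain ⟨R, hR⟩ : ∃ R, R = SimplV.rts N := ⟨_, rfl⟩
  have hRc : R.card = N := by rw [hR, SimplV.card_rts]
  have hRm : ∀ w ∈ R, w ^ N = 1 := fun w hw => (SimplV.mem_rts hN w).1 (hR ▸ hw)
  -- many pairs
  have h1 : ∀ w ∈ R, (P.card : ℤ) - D ≤ ((P.filter fun p => w * p ∈ P).card : ℤ) := by
    intro w hw
    have h2 := h w (hRm w hw)
    have h3 : dfc P (rotL w) = (P.filter fun p => ¬ w * p ∈ P).card := by
      unfold dfc
      congr 1
      ext p
      simp only [Finset.mem_filter, rotL_smul]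
    have h4 := Finset.card_filter_add_card_filter_not (s := P) (fun p => w * p ∈ P)
    rw [h3] at h2
    omega
  -- not too many pairs
  have h5 : ∀ p ∈ P, (R.filter fun w => w * p ∈ P).card ≤
      (P.filter fun q => q ^ N = u ^ N).card := by
    intro p hp
    refine le_trans ?_ (hmax p hp)
    refine Finset.card_le_card_of_injOn (fun w => w * p) (fun w hw => ?_)
      (fun a _ b _ hab => mul_right_cancel hab)
    have hw' := Finset.mem_filter.1 (Finset.mem_coe.1 hw)
    refine Finset.mem_coe.2 (Finset.mem_filter.2 ⟨hw'.2, ?_⟩)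
    rw [mul_pow, hRm w hw'.1, one_mul]
  have h6 : ∑ w ∈ R, (P.filter fun p => w * p ∈ P).card =
      ∑ p ∈ P, (R.filter fun w => w * p ∈ P).card := by
    simp only [Finset.card_filter]
    exact Finset.sum_comm
  have h7 : ∑ w ∈ R, ((P.card : ℤ) - D) ≤
      ∑ w ∈ R, ((P.filter fun p => w * p ∈ P).card : ℤ) := Finset.sum_le_sum h1
  have h8 : ∑ p ∈ P, (R.filter fun w => w * p ∈ P).card ≤
      ∑ _p ∈ P, (P.filter fun q => q ^ N = u ^ N).card := Finset.sum_le_sum h5
  rw [Finset.sum_const, hRc, nsmul_eq_mul] at h7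
  rw [Finset.sum_const, smul_eq_mul, ← h6] at h8
  refine h7.trans ?_
  exact_mod_cast h8

end Pool.Agent.SimplC
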