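import Pool.Agent.SimplC.Defs

set_option autoImplicit false

/-! # The axes are axes of the polygon (CON_Proof.md, 4.6)

Let `μ = {p : p ^ N = 1}`, `Q = P ∩ μ`, `R = P \ μ`: `|R| = P.card - |Q| ≤ P.card - 0.97 N ≤ 0.04 P.card`. Suppose `s ^ N ≠ 1`. For `p ∈ Q`
`(s * p⁻¹) ^ N = s ^ N ≠ 1`, so if `s * p⁻¹ ∈ P` then `s * p⁻¹ ∈ R`; `p ↦ s * p⁻¹` is injective, so at most `|R|` of the `p ∈ Q`
satisfy `s * p⁻¹ ∈ P`, and at most `P.card / 1000` do not. So `0.97 N ≤ |Q| ≤ |R| + P.card / 1000 ≤ 0.041 P.card`, but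
`N ≥ 0.99 P.card`, a contradiction (`P.card > 0`). -/

namespace Pool.Agent.SimplC

open Classical

theorem sin_pow {P : Finset Circle} (hP : P.Nonempty) {N : ℕ}
    (h1 : 97 * N ≤ 100 * (P.filter fun p => p ^ N = 1).card) (h2 : 990 * P.card ≤ 1000 * N)
    {s : Circle} (hs : 1000 * (P.filter fun p => s * p⁻¹ ∉ P).card ≤ P.card) : s ^ N = 1 := by
  by_contra hsN
  have hsplit := Finset.card_filter_add_card_filter_not (s := P) (fun p : Circle => p ^ N = 1)
  have hQ : (P.filter fun p => p ^ N = 1).card ≤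
      (P.filter fun p => ¬ p ^ N = 1).card + (P.filter fun p => s * p⁻¹ ∉ P).card := by
    have h3 := Finset.card_filter_add_card_filter_not (s := P.filter fun p => p ^ N = 1)
      (fun p : Circle => s * p⁻¹ ∈ P)
    have h4 : ((P.filter fun p => p ^ N = 1).filter fun p => s * p⁻¹ ∈ P).card ≤
        (P.filter fun p => ¬ p ^ N = 1).card := by
      apply Finset.card_le_card_of_injOn (fun p => s * p⁻¹)
      · intro p hp
        have hp' := Finset.mem_filter.1 (Finset.mem_coe.1 hp)
        have hp1 := Finset.mem_filter.1 hp'.1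
        refine Finset.mem_coe.2 (Finset.mem_filter.2 ⟨hp'.2, fun h => hsN ?_⟩)
        rw [mul_pow, inv_pow, hp1.2, inv_one, mul_one] at h
        exact h
      · intro p _ q _ h
        exact inv_injective (mul_left_cancel h)
    have h5 : ((P.filter fun p => p ^ N = 1).filter fun p => ¬ s * p⁻¹ ∈ P).card ≤
        (P.filter fun p => s * p⁻¹ ∉ P).card := by
      apply Finset.card_le_card
      intro p hp
      have hp' := Finset.mem_filter.1 hp
      exact Finset.mem_filter.2 ⟨(Finset.mem_filter.1 hp'.1).1, hp'.2⟩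
    omega
  have hpos : 0 < P.card := hP.card_pos
  omega

end Pool.Agent.SimplC
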