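import Pool.Agent.SimplC.RotL
import Pool.Agent.SimplC.Boost

set_option autoImplicit false

/-! # The normaliser of a group of rotations (CON_Proof.md, 2.8)

Let `w = Circle.exp (2 π / N)`: `w ^ N = 1`, `w ≠ 1` (`N ≥ 2`). `g * rotL w * g⁻¹ = rotL w'`; `w'
≠ 1` (`w' = 1` would give `rotL w = 1 =
rotL 1`, `rotL_inj`). Let `(z, t) = g (0, 1)`; `rotL w' (z, t) = g (rotL w (0, 1)) = g (0, 1) =
(z, t)`, so `w' z = z`, `z = 0`.
`bf (g e₀) (g e₀) = -1` gives `t² = 1`, and `t > 0` (`height_pos`), so `t = 1`. -/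

namespace Pool.Agent.SimplC

open Complex Module ComplexConjugate Pool.Agent.Simpl

private theorem exists_root {N : ℕ} (hN : 2 ≤ N) : ∃ w : Circle, w ^ N = 1 ∧ w ≠ 1 := by
  have hp := Complex.isPrimitiveRoot_exp N (by omega)
  have hc : ((Circle.exp (2 * Real.pi / N) : Circle) : ℂ) =
      Complex.exp (2 * Real.pi * I / N) := by
    rw [Circle.coe_exp]
    push_cast
    ring_nf
  refine ⟨Circle.exp (2 * Real.pi / N), ?_, fun h => ?_⟩
  · refine Circle.ext ?_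
    rw [Circle.coe_pow, hc, hp.pow_eq_one, Circle.coe_one]
  · have h1 : Complex.exp (2 * Real.pi * I / N) = 1 := by
      rw [← hc, h, Circle.coe_one]
    have h2 := hp.dvd_of_pow_eq_one 1 (by rw [pow_one, h1])
    have h3 := Nat.le_of_dvd one_pos h2
    omega

theorem norm_fix {N : ℕ} (hN : 2 ≤ N) {g : Lor}
    (h : ∀ w : Circle, w ^ N = 1 → ∃ w' : Circle, g * rotL w * g⁻¹ = rotL w') :
    g.1 ((0 : ℂ), (1 : ℝ)) = (0, 1) := by
  obtain ⟨w, hw, hw1⟩ := exists_root hN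
  obtain ⟨w', hw'⟩ := h w hw
  have h1 : w' ≠ 1 := by
    rintro rfl
    rw [rotL_one, mul_inv_eq_one] at hw'
    have h2 : rotL w = rotL 1 := by
      rw [rotL_one]
      exact mul_eq_left.1 hw'
    exact hw1 (rotL_inj h2)
  have h2 : g * rotL w = rotL w' * g := by
    rw [← hw']
    group
  have h3 : g.1 ((rotL w).1 ((0 : ℂ), (1 : ℝ))) = (rotL w').1 (g.1 ((0 : ℂ), (1 : ℝ))) :=
    congrArg (fun k : Lor => k.1 ((0 : ℂ), (1 : ℝ))) h2
  rw [rotL_apply, rotL_apply, mul_zero] at h3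
  have h4 := congrArg Prod.fst h3
  have h5 : (g.1 ((0 : ℂ), (1 : ℝ))).1 = 0 := by
    have h6 : ((w' : ℂ) - 1) * (g.1 ((0 : ℂ), (1 : ℝ))).1 = 0 := by
      rw [sub_mul, one_mul, sub_eq_zero]
      exact h4.symm
    rcases mul_eq_zero.1 h6 with h7 | h7
    · exact absurd (Circle.ext (by rw [Circle.coe_one]; exact sub_eq_zero.1 h7)) h1
    · exact h7
  have h6 := Lor_bf g ((0 : ℂ), (1 : ℝ)) ((0 : ℂ), (1 : ℝ))
  rw [bf_def, bf_def, h5] at h6
  simp only [Complex.zero_re, Complex.zero_im] at h6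
  have h7 := height_pos g
  refine Prod.ext h5 ?_
  change (g.1 ((0 : ℂ), (1 : ℝ))).2 = 1
  nlinarith

end Pool.Agent.SimplC
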