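import Pool.Agent.SimplC.Orr

set_option autoImplicit false

/-! # The Lorentz group and the orientation (CON_Proof.md, 2.2)

Let `D (a, b, c) = Re a.1 * (Im b.1 * c.2 - Im c.1 * b.2) - Im a.1 * (Re b.1 * c.2 - Re c.1 * b.2) +
a.2 * (Re b.1 * Im c.1 - Im b.1 * Re c.1)` be the determinant of three vectors of `ℂ × ℝ`; for a linear map `g`:
`D (g a, g b, g c) = det g * D (a, b, c)` (`Basis.det_comp` for a basis `B` of `ℂ × ℝ` with `B.det ![a, b, c] = D (a, b, c)`; for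
instance the basis coming from `Complex.basisOneI.prod (Basis.singleton _ ℝ)` reindexed to `Fin 3`; or: both sides are
alternating trilinear in `(a, b, c)`, so it is enough to know it on the standard basis, where it is the formula for
`det` of the matrix of `g`). `D (nul x, nul y, nul z) = orr x y z`. For `g ∈ Lor` let
`g (nul x) = λ • nul (g • x)`, `λ > 0`, etc. (`smul_spec`): `λ μ ν orr (g • x) (g • y) (g • z) = det g * orr x y z`. -/

namespace Pool.Agent.SimplC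

open Complex Module ComplexConjugate Pool.Agent.Simpl

private noncomputable def B3 : Basis (Fin 3) ℝ (ℂ × ℝ) :=
  (Complex.basisOneI.prod (Basis.singleton (Fin 1) ℝ)).reindex finSumFinEquiv

private theorem B3_zero (v : ℂ × ℝ) : B3.repr v 0 = v.1.re := by
  have e : (finSumFinEquiv (m := 2) (n := 1)).symm 0 = Sum.inl 0 := rfl
  rw [B3, Basis.repr_reindex_apply, e, Basis.prod_repr_inl, Complex.coe_basisOneI_repr]
  rfl

private theorem B3_one (v : ℂ × ℝ) : B3.repr v 1 = v.1.im := by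
  have e : (finSumFinEquiv (m := 2) (n := 1)).symm 1 = Sum.inl 1 := rfl
  rw [B3, Basis.repr_reindex_apply, e, Basis.prod_repr_inl, Complex.coe_basisOneI_repr]
  rfl

private theorem B3_two (v : ℂ × ℝ) : B3.repr v 2 = v.2 := by
  have e : (finSumFinEquiv (m := 2) (n := 1)).symm 2 = Sum.inr 0 := rfl
  rw [B3, Basis.repr_reindex_apply, e, Basis.prod_repr_inr, Basis.singleton_repr]

private theorem B3_det (a b c : ℂ × ℝ) : B3.det ![a, b, c] =
    a.1.re * (b.1.im * c.2 - c.1.im * b.2) - a.1.im * (b.1.re * c.2 - c.1.re * b.2) +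
      a.2 * (b.1.re * c.1.im - b.1.im * c.1.re) := by
  rw [Basis.det_apply, Matrix.det_fin_three]
  simp only [Basis.toMatrix_apply, B3_zero, B3_one, B3_two, Matrix.cons_val]
  ring

private theorem B3_orr (x y z : Circle) : B3.det ![nul x, nul y, nul z] = orr x y z := by
  rw [B3_det, orr]
  simp only [nul_fst, nul_snd, Complex.add_im, Complex.mul_im, Complex.conj_re, Complex.conj_im]
  ring

theorem orr_smul (g : Lor) (x y z : Circle) : ∃ c : ℝ, 0 < c ∧
    c * orr (g • x) (g • y) (g • z) =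
      LinearMap.det (g.1 : (ℂ × ℝ) →ₗ[ℝ] (ℂ × ℝ)) * orr x y z := by
  obtain ⟨r, hr, h1⟩ := smul_spec g x
  obtain ⟨s, hs, h2⟩ := smul_spec g y
  obtain ⟨t, ht, h3⟩ := smul_spec g z
  refine ⟨r * s * t, by positivity, ?_⟩
  rw [← B3_orr x y z, ← Basis.det_comp]
  have e : (g.1 : (ℂ × ℝ) →ₗ[ℝ] (ℂ × ℝ)) ∘ ![nul x, nul y, nul z] =
      ![r • nul (g • x), s • nul (g • y), t • nul (g • z)] := by
    funext i
    fin_cases i
    · exact h1
    · exact h2
    · exact h3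
  rw [e, ← B3_orr, B3_det, B3_det]
  simp only [Prod.smul_fst, Prod.smul_snd, Complex.smul_re, Complex.smul_im, smul_eq_mul]
  ring

theorem cyc_smul {g : Lor} (hg : g ∈ LorP) {x y z : Circle} (h : cyc x y z) :
    cyc (g • x) (g • y) (g • z) := by
  obtain ⟨c, hc, h1⟩ := orr_smul g x y z
  have h2 : 0 < c * orr (g • x) (g • y) (g • z) := by
    rw [h1]
    exact mul_pos hg h
  exact (mul_pos_iff_of_pos_left hc).1 h2

theorem cyc_smul_neg {g : Lor} (hg : g ∉ LorP) {x y z : Circle} (h : cyc x y z) :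
    ¬ cyc (g • x) (g • y) (g • z) := by
  intro h3
  obtain ⟨c, hc, h1⟩ := orr_smul g x y z
  have h2 : 0 < c * orr (g • x) (g • y) (g • z) := mul_pos hc h3
  rw [h1] at h2
  exact hg ((pos_iff_pos_of_mul_pos h2).2 h)

theorem neg_mul_neg_mem {g h : Lor} (hg : g ∉ LorP) (hh : h ∉ LorP) : g⁻¹ * h ∈ LorP := by
  have h1 : ∀ k : Lor, k ∉ LorP → LinearMap.det (k.1 : (ℂ × ℝ) →ₗ[ℝ] (ℂ × ℝ)) < 0 := by
    intro k hk
    have h2 : LinearMap.det (k.1 : (ℂ × ℝ) →ₗ[ℝ] (ℂ × ℝ)) ≠ 0 :=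
      (LinearEquiv.isUnit_det' k.1).ne_zero
    exact lt_of_le_of_ne (not_lt.1 hk) h2
  have e : (g.1 : (ℂ × ℝ) →ₗ[ℝ] (ℂ × ℝ)) ∘ₗ ((g⁻¹ * h).1 : (ℂ × ℝ) →ₗ[ℝ] (ℂ × ℝ)) =
      (h.1 : (ℂ × ℝ) →ₗ[ℝ] (ℂ × ℝ)) := by
    have h3 : g * (g⁻¹ * h) = h := by group
    exact congrArg (fun k : Lor => (k.1 : (ℂ × ℝ) →ₗ[ℝ] (ℂ × ℝ))) h3
  have h4 := congrArg LinearMap.det e
  rw [LinearMap.det_comp] at h4
  have h5 := h1 g hg
  have h6 := h1 h hh
  rw [mem_LorP]
  by_contra h7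
  rw [not_lt] at h7
  have h8 := mul_nonneg_of_nonpos_of_nonpos h5.le h7
  rw [h4] at h8
  linarith

end Pool.Agent.SimplC
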