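import Pool.Agent.SimplC.RotL
import Pool.Agent.SimplC.Ori

set_option autoImplicit false

/-! # The stabiliser of the centre (CON_Proof.md, 2.6)

Let `e₀ = (0, 1)`, `g e₀ = e₀`. `bf (g (z, 0)) e₀ = bf (z, 0) e₀ = 0`, so `g (z, 0) = (h z, 0)` with `h : ℂ → ℂ` linear over `ℝ` and
`|h z|² = bf (g (z, 0)) (g (z, 0)) = |z|²`: `h` is a linear isometry of `ℂ`, and `g (z, t) = (h z, t)`. By
`linear_isometry_complex` (Mathlib) `h z = w z` for all `z`, or `h z = s (conj z)` for all `z`, with `w, s` on the circle.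
If `h z = w z` then `g = rotL w ∈ LorP` (`rotL_mem`). If `h z = s (conj z)`: `g (nul x) = (s (conj x), 1) = nul (s * x⁻¹)`, so
`g • x = s * x⁻¹` (`smul_unique`) and `orr (s x⁻¹) (s y⁻¹) (s z⁻¹) = Im (x conj y + y conj z + z conj x) = -orr x y z`, so by
`exists_cyc` and `cyc_smul` `g ∉ LorP` (if `g ∈ LorP` and `cyc x y z` then `0 < orr (g • x) (g • y) (g • z) = -orr x y z < 0`).
`stab_rot`: `g ∈ LorP` excludes the second case, `stab_refl`: `g ∉ LorP` excludes the first. -/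

namespace Pool.Agent.SimplC

open Complex Module ComplexConjugate Pool.Agent.Simpl

private theorem stab_bf {g : Lor} (h : g.1 ((0 : ℂ), (1 : ℝ)) = (0, 1)) (z : ℂ) :
    (g.1 (z, (0 : ℝ))).2 = 0 := by
  have h1 := Lor_bf g (z, (0 : ℝ)) ((0 : ℂ), (1 : ℝ))
  rw [h, bf_def, bf_def] at h1
  simpa using h1

private theorem stab_apply {g : Lor} (h : g.1 ((0 : ℂ), (1 : ℝ)) = (0, 1)) (x : ℂ × ℝ) :
    g.1 x = ((g.1 (x.1, (0 : ℝ))).1, x.2) := by
  have h1 : x = (x.1, (0 : ℝ)) + x.2 • ((0 : ℂ), (1 : ℝ)) := by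
    refine Prod.ext ?_ ?_
    · simp
    · simp
  have h2 : g.1 x = g.1 (x.1, (0 : ℝ)) + x.2 • ((0 : ℂ), (1 : ℝ)) := by
    conv_lhs => rw [h1, map_add, map_smul, h]
  rw [h2]
  refine Prod.ext ?_ ?_
  · simp
  · simp [stab_bf h]

private theorem stab_norm {g : Lor} (h : g.1 ((0 : ℂ), (1 : ℝ)) = (0, 1)) (z : ℂ) :
    ‖(g.1 (z, (0 : ℝ))).1‖ = ‖z‖ := by
  have h1 := Lor_bf g (z, (0 : ℝ)) (z, (0 : ℝ))
  have h2 := stab_bf h z
  rw [bf_def, bf_def, h2] at h1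
  rw [Complex.norm_def, Complex.norm_def, Complex.normSq_apply, Complex.normSq_apply]
  congr 1
  simpa using h1

private theorem stab_aux {g : Lor} (h : g.1 ((0 : ℂ), (1 : ℝ)) = (0, 1)) :
    (∃ w : Circle, g = rotL w) ∨
      ∃ s : Circle, ∀ x : ℂ × ℝ, g.1 x = ((s : ℂ) * conj x.1, x.2) := by
  let f : ℂ →ₗᵢ[ℝ] ℂ :=
    { toLinearMap := LinearMap.fst ℝ ℂ ℝ ∘ₗ (g.1 : (ℂ × ℝ) →ₗ[ℝ] (ℂ × ℝ)) ∘ₗ
        LinearMap.inl ℝ ℂ ℝ
      norm_map' := fun z => stab_norm h z }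
  obtain ⟨a, ha⟩ := linear_isometry_complex (f.toLinearIsometryEquiv rfl)
  have hf : ∀ z : ℂ, (g.1 (z, (0 : ℝ))).1 = (f.toLinearIsometryEquiv rfl) z := fun z => rfl
  rcases ha with ha | ha
  · left
    refine ⟨a, Subtype.ext (LinearEquiv.ext fun x => ?_)⟩
    rw [stab_apply h x, rotL_apply, hf, ha, rotation_apply]
  · right
    refine ⟨a, fun x => ?_⟩
    rw [stab_apply h x, hf, ha]
    rfl

private theorem orr_conj (s x y z : Circle) :
    orr (s * x⁻¹) (s * y⁻¹) (s * z⁻¹) = -orr x y z := by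
  have hs := circle_sq s
  unfold orr
  simp only [Circle.coe_mul, Circle.coe_inv_eq_conj, map_mul, Complex.conj_conj]
  simp only [Complex.add_im, Complex.mul_im, Complex.mul_re, Complex.conj_re, Complex.conj_im]
  linear_combination (-((x : ℂ).re * (y : ℂ).im - (x : ℂ).im * (y : ℂ).re +
    ((y : ℂ).re * (z : ℂ).im - (y : ℂ).im * (z : ℂ).re) +
    ((z : ℂ).re * (x : ℂ).im - (z : ℂ).im * (x : ℂ).re))) * hs

private theorem refl_notMem {g : Lor} {s : Circle}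
    (h : ∀ x : ℂ × ℝ, g.1 x = ((s : ℂ) * conj x.1, x.2)) : g ∉ LorP := by
  intro hg
  have h1 : ∀ u : Circle, g • u = s * u⁻¹ := by
    intro u
    refine smul_unique g (c := 1) ?_
    rw [one_smul, h]
    refine Prod.ext ?_ rfl
    rw [nul_fst, nul_fst, Circle.coe_mul, Circle.coe_inv_eq_conj]
  obtain ⟨x, y, z, hc⟩ := exists_cyc
  have h2 := cyc_smul hg hc
  rw [h1, h1, h1] at h2
  have h3 : 0 < orr (s * x⁻¹) (s * y⁻¹) (s * z⁻¹) := h2
  have h4 : 0 < orr x y z := hc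
  rw [orr_conj] at h3
  linarith

theorem stab_rot {g : Lor} (hg : g ∈ LorP) (h : g.1 ((0 : ℂ), (1 : ℝ)) = (0, 1)) :
    ∃ w : Circle, g = rotL w := by
  rcases stab_aux h with h1 | ⟨s, hs⟩
  · exact h1
  · exact absurd hg (refl_notMem hs)

theorem stab_refl {g : Lor} (hg : g ∉ LorP) (h : g.1 ((0 : ℂ), (1 : ℝ)) = (0, 1)) :
    ∃ s : Circle, ∀ x : ℂ × ℝ, g.1 x = ((s : ℂ) * conj x.1, x.2) := by
  rcases stab_aux h with ⟨w, rfl⟩ | h1
  · exact absurd (rotL_mem w) hg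
  · exact h1

end Pool.Agent.SimplC
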