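import Pool.Agent.SimplC.Many
import Pool.Agent.SimplC.MapL
import Pool.Agent.SimplC.RefEx
import Pool.Agent.SimplC.NormL
import Pool.Agent.SimplC.StabL
import Pool.Agent.SimplC.Dfc

set_option autoImplicit false

/-! # Nearly all lines are axes (CON_Proof.md, 4.3, 4.4)

`r = P.card`, `m = r / 1000` (natural division), `m ≥ 10⁵ - 1 > 0` etc. `many_ref` (`href` = `exists_ref`) gives `L ⊆ oth A`, `|L| ≥ 0.998 r`; for
`l ∈ L` choose `g_l` with `IsRef l g_l`: `dfc P g_l ≤ m`, `l ↦ g_l` injective on `L` (`isRef_inj`).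
(1) At most one `l ∈ L` has `g_l ∈ LorP`: `dfc ≤ m ≤ 4 k`, so `g_l = rotL w` (`hH'`), `g_l² = 1`, `w² = 1`, and `w ≠ 1` (for
`g_l = 1` both alternatives of `IsRef` are impossible: `x ∈ l ↔ x = x` gives `l = ⊤`, `x ∈ l ↔ x = -x` gives `l = ⊥`, but
`finrank l = 2`), so `w = -1`, `g_l = rotL (-1)`; by `isRef_inj` `l` is unique.
(2) So `L⁻ = {l ∈ L : g_l ∉ LorP}` has at least `0.998 r - 1 ≥ 0.997 r` elements. Fix `l₀ ∈ L⁻`, `g₀ = g_(l₀)`. For `l ∈ L⁻`
`g₀⁻¹ * g_l ∈ LorP` (`neg_mul_neg_mem`) with defect `≤ 2 m ≤ 4 k` (`dfc_mul`, `dfc_inv`), so it is `rotL w_l` with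
`w_l ^ N = 1` (`hH'`), and `l ↦ w_l` is injective: `0.997 r ≤ |L⁻| ≤ N` (at most `N` solutions of `w ^ N = 1` in `Circle`).
In particular `N ≥ 2`.
(3) For `l ∈ L⁻`, `g = g_l` and `w ^ N = 1`: `g * rotL w * g⁻¹ ∈ LorP` (positive determinant) and its defect is at most
`2 m + 2 k ≤ 4 k` (`hH`, `dfc_mul`, `dfc_inv`), so it is `rotL w'` (`hH'`). `norm_fix`: `g (0, 1) = (0, 1)`, and `stab_refl`:
`g x = (s_l * conj x.1, x.2)`. The fixed space of `g` is `ax s_l`; `{x : g x = -x}` consists of vectors `(z, 0)` with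
`s_l conj z = -z`, it has dimension `≤ 1`, so it is not `l`; by `IsRef` `l` is the fixed space: `l = ax s_l`.
Let `S = {s_l : l ∈ L⁻}`; `l ↦ s_l` is injective as `l = ax s_l`. `g_l • p = s_l * p⁻¹` (`smul_unique`:
`g (nul p) = (s conj p, 1) = nul (s * p⁻¹)`), so `|{p ∈ P : s * p⁻¹ ∉ P}| = dfc P g_l ≤ m` for `s = s_l`. -/

namespace Pool.Agent.SimplC

open Complex Module ComplexConjugate Classical Pool.Agent.Simpl Pool.Agent.SimplV

private theorem not_ref_one {l : Submodule ℝ (ℂ × ℝ)} (hl : finrank ℝ l = 2) {g : Lor}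
    (h : IsRef l g) (h1 : ∀ x, g.1 x = x) : False := by
  rcases h.2.2 with h2 | h2
  · have h3 : l = ⊤ := by
      rw [eq_top_iff]
      intro x _
      exact (h2 x).2 (h1 x)
    rw [h3, finrank_top, finrank_CR] at hl
    omega
  · have h3 : l = ⊥ := by
      rw [eq_bot_iff]
      intro x hx
      have h4 := (h2 x).1 hx
      rw [h1 x, self_eq_neg] at h4
      exact h4
    rw [h3, finrank_bot] at hl
    omega

private theorem ref_rot {l : Submodule ℝ (ℂ × ℝ)} (hl : finrank ℝ l = 2) {g : Lor}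
    (h : IsRef l g) {w : Circle} (hw : g = rotL w) : (w : ℂ) = -1 := by
  have h1 := h.1 ((1 : ℂ), (0 : ℝ))
  rw [hw, rotL_apply, rotL_apply] at h1
  have h2 := congrArg Prod.fst h1
  simp only [mul_one] at h2
  rcases mul_self_eq_one_iff.1 h2 with h3 | h3
  · exfalso
    refine not_ref_one hl h fun x => ?_
    rw [hw, rotL_apply, h3, one_mul]
  · exact h3

private theorem ref_ax {l : Submodule ℝ (ℂ × ℝ)} (hl : finrank ℝ l = 2) {g : Lor}
    (h : IsRef l g) {s : Circle} (hs : ∀ x : ℂ × ℝ, g.1 x = ((s : ℂ) * conj x.1, x.2)) :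
    l = ax s := by
  rcases h.2.2 with h2 | h2
  · ext x
    rw [h2 x, hs x, mem_ax]
    constructor
    · intro h3
      exact (congrArg Prod.fst h3).symm
    · intro h3
      exact Prod.ext h3.symm rfl
  · exfalso
    have h3 : l ≤ infl := by
      intro x hx
      have h4 := (h2 x).1 hx
      rw [hs x] at h4
      have h5 := congrArg Prod.snd h4
      rw [mem_infl]
      simp only [Prod.snd_neg] at h5
      linarith
    have h4 : l = infl := Submodule.eq_of_le_of_finrank_eq h3 (by rw [hl, finrank_infl])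
    have h5 := (h2 ((1 : ℂ), (0 : ℝ))).1 (by rw [h4, mem_infl])
    have h6 := (h2 (Complex.I, (0 : ℝ))).1 (by rw [h4, mem_infl])
    rw [hs] at h5 h6
    have h7 := congrArg Prod.fst h5
    have h8 := congrArg Prod.fst h6
    simp only [map_one, mul_one, Prod.fst_neg, Complex.conj_I] at h7 h8
    rw [h7] at h8
    have h9 := congrArg Complex.im h8
    simp at h9
    linarith

private theorem smul_of_refl {g : Lor} {s : Circle}
    (hs : ∀ x : ℂ × ℝ, g.1 x = ((s : ℂ) * conj x.1, x.2)) (p : Circle) : g • p = s * p⁻¹ := by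
  refine smul_unique g (c := 1) ?_
  rw [one_smul, hs]
  refine Prod.ext ?_ rfl
  rw [nul_fst, nul_fst, Circle.coe_mul, Circle.coe_inv_eq_conj]

private theorem card_roots {N : ℕ} (hN : 0 < N) {α : Type*} (T : Finset α) (f : α → Circle)
    (hf : ∀ a ∈ T, f a ^ N = 1) (hinj : ∀ a ∈ T, ∀ b ∈ T, f a = f b → a = b) : T.card ≤ N := by
  have h1 : T.card ≤ (Polynomial.nthRoots N (1 : ℂ)).toFinset.card := by
    refine Finset.card_le_card_of_injOn (fun a => (f a : ℂ)) (fun a ha => ?_) ?_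
    · rw [Finset.mem_coe, Multiset.mem_toFinset, Polynomial.mem_nthRoots hN]
      have h2 := congrArg (fun w : Circle => (w : ℂ)) (hf a ha)
      simpa using h2
    · intro a ha b hb hab
      exact hinj a ha b hb (Circle.ext hab)
  exact h1.trans ((Multiset.toFinset_card_le _).trans (Polynomial.card_nthRoots _ _))

theorem axes {A : Finset (Submodule ℝ (ℂ × ℝ))} {P : Finset Circle} (h : Hyp9 A P) {N k : ℕ}
    (hN : 0 < N) (hk : k = 2 * (P.card / 1000) ∨ k = 10 * (P.card / 1000))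
    (hH : ∀ w : Circle, w ^ N = 1 → dfc P (rotL w) ≤ 2 * k)
    (hH' : ∀ g ∈ LorP, dfc P g ≤ 4 * k → ∃ w : Circle, w ^ N = 1 ∧ g = rotL w) :
    997 * P.card ≤ 1000 * N ∧ ∃ S : Finset Circle, (∀ s ∈ S, ax s ∈ A) ∧
      997 * P.card ≤ 1000 * S.card ∧
      ∀ s ∈ S, 1000 * (P.filter fun p => s * p⁻¹ ∉ P).card ≤ P.card := by
  have hr : 4 * 10 ^ 8 ≤ P.card := by
    have h1 : (10 : ℝ) ^ 9 ≤ A.card := by exact_mod_cast h.card
    have h2 := h.many
    have h3 : (4 * 10 ^ 8 : ℝ) ≤ P.card := by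
      refine le_trans ?_ h2
      refine le_trans ?_ (mul_le_mul_of_nonneg_left h1 (by norm_num))
      norm_num
    exact_mod_cast h3
  have hm0 : 1 ≤ P.card / 1000 := by omega
  obtain ⟨L, hLA, hLc, hLd⟩ := many_ref (fun H hH => h.arr.1 H hH) h.spl h.tan h.card h.many
    (fun l hl => by
      unfold oth at hl
      rw [Finset.mem_filter] at hl
      exact exists_ref (h.arr.1 l hl.1) hl.2)
  have hLA' : ∀ l ∈ L, l ∈ A := by
    intro l hl
    have h1 := hLA hl
    unfold oth at h1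
    exact (Finset.mem_filter.1 h1).1
  have hfin : ∀ l ∈ L, finrank ℝ l = 2 := fun l hl => h.arr.1 l (hLA' l hl)
  have hex : ∀ l : Submodule ℝ (ℂ × ℝ), ∃ g : Lor, l ∈ L → IsRef l g := by
    intro l
    by_cases hl : l ∈ L
    · have h1 := hLA hl
      unfold oth at h1
      rw [Finset.mem_filter] at h1
      obtain ⟨g, hg⟩ := exists_ref (h.arr.1 l h1.1) h1.2
      exact ⟨g, fun _ => hg⟩
    · exact ⟨1, fun h1 => (hl h1).elim⟩
  choose G hG using hex
  have hd : ∀ l ∈ L, dfc P (G l) ≤ P.card / 1000 := fun l hl => hLd l hl _ (hG l hl)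
  have hinj : ∀ l ∈ L, ∀ l' ∈ L, G l = G l' → l = l' := by
    intro l hl l' hl' he
    refine isRef_inj (hfin l hl) (hfin l' hl') (hG l hl) ?_
    rw [he]
    exact hG l' hl'
  have hk2 : 2 * (P.card / 1000) ≤ k := by
    rcases hk with hk | hk <;> omega
  -- (1)
  have h1 : (L.filter fun l => G l ∈ LorP).card ≤ 1 := by
    rw [Finset.card_le_one]
    have hw : ∀ l ∈ L.filter (fun l => G l ∈ LorP), ∃ w : Circle, (w : ℂ) = -1 ∧ G l = rotL w := by
      intro l hl
      rw [Finset.mem_filter] at hl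
      obtain ⟨w, -, hw⟩ := hH' (G l) hl.2 ((hd l hl.1).trans (by omega))
      exact ⟨w, ref_rot (hfin l hl.1) (hG l hl.1) hw, hw⟩
    intro l hl l' hl'
    obtain ⟨w, hw1, hw2⟩ := hw l hl
    obtain ⟨w', hw1', hw2'⟩ := hw l' hl'
    rw [Finset.mem_filter] at hl hl'
    refine hinj l hl.1 l' hl'.1 ?_
    rw [hw2, hw2', Circle.ext (hw1.trans hw1'.symm)]
  have h2 : (L.filter fun l => G l ∈ LorP).card + (L.filter fun l => G l ∉ LorP).card = L.card :=
    Finset.card_filter_add_card_filter_not _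
  have h3 : 997 * P.card ≤ 1000 * (L.filter fun l => G l ∉ LorP).card := by omega
  have hne : 0 < (L.filter fun l => G l ∉ LorP).card := by omega
  obtain ⟨l₀, hl₀⟩ := Finset.card_pos.1 hne
  rw [Finset.mem_filter] at hl₀
  -- (2)
  have hw : ∀ l : Submodule ℝ (ℂ × ℝ), ∃ w : Circle, l ∈ L.filter (fun l => G l ∉ LorP) →
      w ^ N = 1 ∧ (G l₀)⁻¹ * G l = rotL w := by
    intro l
    by_cases hl : l ∈ L.filter (fun l => G l ∉ LorP)
    · have hl' := hl
      rw [Finset.mem_filter] at hl'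
      have h4 : dfc P ((G l₀)⁻¹ * G l) ≤ 4 * k := by
        refine (dfc_mul P _ _).trans ?_
        rw [dfc_inv]
        have h5 := hd l₀ hl₀.1
        have h6 := hd l hl'.1
        omega
      obtain ⟨w, hw1, hw2⟩ := hH' _ (neg_mul_neg_mem hl₀.2 hl'.2) h4
      exact ⟨w, fun _ => ⟨hw1, hw2⟩⟩
    · exact ⟨1, fun h4 => (hl h4).elim⟩
  choose W hW using hw
  have hN1 : (L.filter fun l => G l ∉ LorP).card ≤ N := by
    refine card_roots hN _ W (fun l hl => (hW l hl).1) ?_
    intro l hl l' hl' he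
    have h4 := (hW l hl).2
    have h5 := (hW l' hl').2
    rw [he, ← h5] at h4
    rw [Finset.mem_filter] at hl hl'
    exact hinj l hl.1 l' hl'.1 (mul_left_cancel h4)
  have hN2 : 2 ≤ N := by omega
  -- (3)
  have hs : ∀ l : Submodule ℝ (ℂ × ℝ), ∃ s : Circle, l ∈ L.filter (fun l => G l ∉ LorP) →
      ∀ x : ℂ × ℝ, (G l).1 x = ((s : ℂ) * conj x.1, x.2) := by
    intro l
    by_cases hl : l ∈ L.filter (fun l => G l ∉ LorP)
    · have hl' := hl
      rw [Finset.mem_filter] at hl'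
      have h4 : (G l).1 ((0 : ℂ), (1 : ℝ)) = (0, 1) := by
        refine norm_fix hN2 fun w hwN => ?_
        have h5 : (G l)⁻¹ ∉ LorP := fun h6 => hl'.2 (by
          have h7 := LorP.inv_mem h6
          rwa [inv_inv] at h7)
        have h6 : rotL w * (G l)⁻¹ ∉ LorP := fun h7 => h5 (by
          have h8 := LorP.mul_mem (LorP.inv_mem (rotL_mem w)) h7
          rwa [inv_mul_cancel_left] at h8)
        have h7 := neg_mul_neg_mem h5 h6
        rw [inv_inv, ← mul_assoc] at h7
        have h8 : dfc P (G l * rotL w * (G l)⁻¹) ≤ 4 * k := by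
          refine (dfc_mul P _ _).trans ?_
          rw [dfc_inv]
          have h9 := dfc_mul P (G l) (rotL w)
          have h10 := hd l hl'.1
          have h11 := hH w hwN
          omega
        obtain ⟨w', -, hw'⟩ := hH' _ h7 h8
        exact ⟨w', hw'⟩
      obtain ⟨s, hs⟩ := stab_refl hl'.2 h4
      exact ⟨s, fun _ => hs⟩
    · exact ⟨1, fun h4 => (hl h4).elim⟩
  choose s hs using hs
  have hax : ∀ l ∈ L.filter (fun l => G l ∉ LorP), l = ax (s l) := by
    intro l hl
    have hl' := (Finset.mem_filter.1 hl).1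
    exact ref_ax (hfin l hl') (hG l hl') (hs l hl)
  refine ⟨by omega, (L.filter fun l => G l ∉ LorP).image s, ?_, ?_, ?_⟩
  · intro t ht
    obtain ⟨l, hl, rfl⟩ := Finset.mem_image.1 ht
    rw [← hax l hl]
    exact hLA' l (Finset.mem_filter.1 hl).1
  · rw [Finset.card_image_of_injOn]
    · exact h3
    · intro l hl l' hl' he
      rw [hax l hl, hax l' hl', he]
  · intro t ht
    obtain ⟨l, hl, rfl⟩ := Finset.mem_image.1 ht
    have h4 : (P.filter fun p => s l * p⁻¹ ∉ P).card = dfc P (G l) := by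
      unfold dfc
      congr 1
      ext p
      rw [Finset.mem_filter, Finset.mem_filter, smul_of_refl (hs l hl) p]
    have h5 := hd l (Finset.mem_filter.1 hl).1
    rw [h4]
    omega

end Pool.Agent.SimplC
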