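import Pool.Agent.SimplC.GrowL
import Pool.Agent.SimplC.Struct
import Pool.Agent.SimplC.Orbit
import Pool.Agent.SimplC.Sin
import Pool.Agent.SimplC.Near

set_option autoImplicit false

/-! # The theorem in `ℂ × ℝ` (CON_Proof.md, 4)

`exists_rotations` gives `e`, `N`, `k`; replace `A`, `P` by `A₁ = A.image (map e)`, `P₁ = P.image (e • ·)` (`hyp_map`;
`P₁.card = P.card = r`). `axes` for `A₁`: `997 r ≤ 1000 N`, `S`. `N (r - 100 m) ≤ r²`, `m ≤ r / 1000`, so `N · 0.9 r ≤ r²`,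
`N ≤ r / 0.9`. `orbit` with `D = 2 k ≤ 20 m ≤ 0.02 r`: `u ∈ P₁` with `r · |{p ∈ P₁ : p ^ N = u ^ N}| ≥ N · 0.98 r`, so this number is
`≥ 0.98 N`. Let `e' = rotL u⁻¹`, `A₂ = A₁.image (map e')`, `P₂ = P₁.image (u⁻¹ * ·)` (`rotL_smul`), `S₂ = S.image (u⁻¹ ^ 2 * ·)`
(`map_rot_ax`: `(ax s).map (rot w) = ax (w ^ 2 * s)`, so `ax s ∈ A₂` for `s ∈ S₂`). `p ∈ P₂`, `p ^ N = 1` iff `p = u⁻¹ q` with `q ∈ P₁`,
`q ^ N = u ^ N`: at least `0.98 N` elements. For `s = u⁻² s'`, `s' ∈ S` the map `q ↦ u⁻¹ q` is a bijection from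
`{q ∈ P₁ : s' q⁻¹ ∉ P₁}` to `{p ∈ P₂ : s p⁻¹ ∉ P₂}` (`s (u⁻¹ q)⁻¹ = u⁻¹ (s' q⁻¹)`), so `sin_pow` gives `s ^ N = 1` for all `s ∈ S₂`.
`near` for `A₂`, `P₂`, `N`, `S₂`: `Mel A₂` by `melchior` (`finrank_CR`); `A.card ≤ (2 + 10⁻⁶) r` from `(1/2 - 10⁻⁷) A.card ≤ r`;
`h2`: `990 r ≤ 997 r ≤ 1000 N`; `hN'`: `890 N ≤ 1000 r`. The isomorphism is `e` followed by `e'` (`image_trans`). -/

namespace Pool.Agent.SimplC

open Complex Module ComplexConjugate Classical Pool.Agent.Simpl Pool.Agent.SimplV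

/-- The second half: the arrangement is already in the good position, up to a rotation. -/
private theorem main_aux {A : Finset (Submodule ℝ (ℂ × ℝ))} {P : Finset Circle} (h : Hyp9 A P)
    {N k : ℕ} (hN : 0 < N) (hk : k = 2 * (P.card / 1000) ∨ k = 10 * (P.card / 1000))
    (hNr : (N : ℤ) * ((P.card : ℤ) - 100 * (P.card / 1000 : ℕ)) ≤ (P.card : ℤ) ^ 2)
    (hH : ∀ w : Circle, w ^ N = 1 → dfc P (rotL w) ≤ 2 * k)
    (hH' : ∀ g ∈ LorP, dfc P g ≤ 4 * k → ∃ w : Circle, w ^ N = 1 ∧ g = rotL w) :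
    ∃ u : Circle, 3 ≤ N ∧
      (A.image (Submodule.map (rotL u).1.toLinearMap) = polReg N ∨
        (Even N ∧ A.image (Submodule.map (rotL u).1.toLinearMap) = insert infl (polReg N))) := by
  have hn : (A.card : ℝ) ≤ (2 + 1 / 10 ^ 6) * P.card := by
    have h1 := h.many
    have h2 : (0 : ℝ) ≤ A.card := Nat.cast_nonneg _
    norm_num at h1 ⊢
    linarith
  have hr : 1000 ≤ P.card := by
    have h1 := h.many
    have h2 : (1000000000 : ℝ) ≤ (A.card : ℝ) := by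
      have := h.card
      norm_num at this
      exact_mod_cast this
    have h4 : (4 / 10 : ℝ) * A.card ≤ P.card := by
      refine le_trans ?_ h1
      refine mul_le_mul_of_nonneg_right (by norm_num) (Nat.cast_nonneg _)
    have h3 : (1000 : ℝ) ≤ P.card := by linarith
    exact_mod_cast h3
  have hP : P.Nonempty := Finset.card_pos.1 (by omega)
  obtain ⟨hN1, S, hSA, hSc, hSd⟩ := axes h hN hk hH hH'
  have hm : 1000 * (P.card / 1000) ≤ P.card := Nat.mul_div_le _ _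
  have hrZ : (0 : ℤ) < P.card := by
    have : 0 < P.card := by omega
    exact_mod_cast this
  have hmZ : (1000 : ℤ) * ((P.card / 1000 : ℕ) : ℤ) ≤ P.card := by exact_mod_cast hm
  have hNZ : (0 : ℤ) < N := by exact_mod_cast hN
  have hN' : 890 * N ≤ 1000 * P.card := by
    have h1 : (9 : ℤ) * N * P.card ≤ 10 * P.card * P.card := by nlinarith
    have h2 : (9 : ℤ) * N ≤ 10 * P.card := le_of_mul_le_mul_right h1 hrZ
    have h3 : 9 * N ≤ 10 * P.card := by exact_mod_cast h2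
    omega
  obtain ⟨u, huP, hu⟩ := orbit hP hN (2 * k) hH
  have hkm : 2 * k ≤ 20 * (P.card / 1000) := by
    rcases hk with hk | hk <;> omega
  have hkZ : ((2 * k : ℕ) : ℤ) * 50 ≤ P.card := by
    have h1 : 2 * k * 50 ≤ P.card := by omega
    exact_mod_cast h1
  have hF : 97 * N ≤ 100 * (P.filter fun p => p ^ N = u ^ N).card := by
    have h1 : (98 : ℤ) * N * P.card ≤
        100 * ((P.filter fun p => p ^ N = u ^ N).card : ℤ) * P.card := by nlinarith
    have h2 := le_of_mul_le_mul_right h1 hrZ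
    have h3 : 98 * N ≤ 100 * (P.filter fun p => p ^ N = u ^ N).card := by exact_mod_cast h2
    omega
  set A₂ := A.image (Submodule.map (rotL u⁻¹).1.toLinearMap) with hA₂
  set P₂ := P.image (fun w => rotL u⁻¹ • w) with hP₂
  have hh2 : Hyp9 A₂ P₂ := hyp_map h (rotL u⁻¹)
  have hinj : Function.Injective (fun w : Circle => rotL u⁻¹ • w) := MulAction.injective _
  have hPc : P₂.card = P.card := Finset.card_image_of_injective _ hinj
  have hAc : A₂.card ≤ A.card := Finset.card_image_le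
  have hmem : ∀ q : Circle, u⁻¹ * q ∈ P₂ ↔ q ∈ P := by
    intro q
    rw [hP₂, Finset.mem_image]
    constructor
    · rintro ⟨w, hw, hwq⟩
      rw [rotL_smul] at hwq
      rwa [← mul_left_cancel hwq]
    · intro hq
      exact ⟨q, hq, rotL_smul _ _⟩
  have hF2 : 97 * N ≤ 100 * (P₂.filter fun p => p ^ N = 1).card := by
    refine hF.trans (Nat.mul_le_mul_left _ ?_)
    rw [← Finset.card_image_of_injective (P.filter fun p => p ^ N = u ^ N)
      (mul_right_injective u⁻¹)]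
    refine Finset.card_le_card fun x hx => ?_
    rw [Finset.mem_image] at hx
    obtain ⟨q, hq, rfl⟩ := hx
    rw [Finset.mem_filter] at hq ⊢
    refine ⟨(hmem q).2 hq.1, ?_⟩
    rw [mul_pow, hq.2, inv_pow, inv_mul_cancel]
  refine ⟨u⁻¹, by omega, ?_⟩
  refine near (A := A₂) (fun H hH => hh2.arr.1 H hH) (melchior finrank_CR A₂ hh2.arr hh2.spl)
    (P := P₂) hh2.tan (N := N) (by omega) ?_ hF2 (by omega) (by omega)
    (S.image fun s => u⁻¹ ^ 2 * s) (fun s hs => ?_) (fun s hs => ?_) ?_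
  · rw [hPc]
    exact le_trans (by exact_mod_cast hAc) hn
  · rw [Finset.mem_image] at hs
    obtain ⟨s', hs', rfl⟩ := hs
    refine sin_pow (P := P₂) (hP.image _) hF2 (by omega) ?_
    rw [hPc]
    refine le_trans (Nat.mul_le_mul_left _ ?_) (hSd s' hs')
    rw [← Finset.card_image_of_injective (P.filter fun p => s' * p⁻¹ ∉ P)
      (mul_right_injective u⁻¹)]
    refine Finset.card_le_card fun x hx => ?_
    rw [Finset.mem_filter, hP₂, Finset.mem_image] at hx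
    obtain ⟨⟨q, hq, rfl⟩, hx2⟩ := hx
    rw [Finset.mem_image]
    refine ⟨q, Finset.mem_filter.2 ⟨hq, fun hc => hx2 ?_⟩, (rotL_smul _ _).symm⟩
    have e1 : u⁻¹ ^ 2 * s' * (rotL u⁻¹ • q)⁻¹ = u⁻¹ * (s' * q⁻¹) := by
      rw [rotL_smul, mul_inv_rev, inv_inv, pow_two]
      calc u⁻¹ * u⁻¹ * s' * (q⁻¹ * u) = u⁻¹ * (s' * q⁻¹) * (u⁻¹ * u) := by ac_rfl
        _ = _ := by rw [inv_mul_cancel, mul_one]
    rw [e1]
    exact (hmem _).2 hc
  · rw [Finset.mem_image] at hs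
    obtain ⟨s', hs', rfl⟩ := hs
    rw [← map_rot_ax, hA₂]
    exact Finset.mem_image.2 ⟨ax s', hSA s' hs', rfl⟩
  · rw [Finset.card_image_of_injective _ (mul_right_injective (u⁻¹ ^ 2))]
    omega

theorem main {A : Finset (Submodule ℝ (ℂ × ℝ))} {P : Finset Circle} (h : Hyp9 A P) :
    ∃ (N : ℕ) (e : (ℂ × ℝ) ≃ₗ[ℝ] (ℂ × ℝ)), 3 ≤ N ∧
      (A.image (Submodule.map e.toLinearMap) = polReg N ∨
        (Even N ∧ A.image (Submodule.map e.toLinearMap) = insert infl (polReg N))) := by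
  obtain ⟨e, N, k, hN, hk, hNr, hH, hH'⟩ := exists_rotations h
  have hc : (P.image fun w => e • w).card = P.card :=
    Finset.card_image_of_injective _ (MulAction.injective _)
  obtain ⟨u, h3, h4⟩ := main_aux (hyp_map h e) hN (by rwa [hc]) (by rwa [hc]) hH hH'
  refine ⟨N, e.1.trans (rotL u).1, h3, ?_⟩
  rw [image_trans]
  exact h4

end Pool.Agent.SimplC
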