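import Pool.Agent.SimplC.CycDefs

set_option autoImplicit false

/-! # The next point of a finite subset of a cyclic order (CON_Proof.md, 3.1)

First: `c x y z` implies that `x, y, z` are different: `c x y x` gives by `rot` `c y x x`, then `asymm` (`¬ c y x x`); `c x x z`
gives `c x z x` by `rot`, then `c z x x`... again `asymm` for the triple with two equal last entries: from
`c x y y` `asymm` gives `¬ c x y y`; by `rot` every triple with two equal entries is of this form.
Let `p ∈ P`. The relation `x < y :↔ c p x y` on `P \ {p}` is transitive and irreflexive, and total (`total`), `P \ {p}` is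
finite and not empty, so it has a least element `nx p` (e.g. `Finset.exists_minimal` for the preorder, or
induction on finite sets): for `x ∈ P`, `x ≠ p`, `x ≠ nx p`: `c p (nx p) x`, so `¬ c p x (nx p)`; for `x = p` or `x = nx p` not
`c p x (nx p)`, by the first remark. For `p ∉ P` put `nx p = p`.
`uniq`: let `q ∈ P`, `q ≠ p` with `¬ c p x q` for all `x ∈ P`, and `q ≠ nx p`. By `total` `c p q (nx p)` or `c p (nx p) q`:
both are excluded.
`inj`: `nx p = nx p' = q`, `p ≠ p'` (both in `P`): by `total` for `p, p', q` (all different) `c p p' q` (excluded, property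
of `q = nx p`) or `c p q p'`, so by `rot` `c q p' p` and `c p' p q`, excluded (property of `q = nx p'`).
`two`: suppose `nx (nx p) = p`, `q = nx p`. There is a third point `x ∈ P` (`3 ≤ P.card`). `total`: `c p x q` (excluded) or
`c p q x`, so by `rot` `c q x p = c q x (nx q)`, excluded. -/

namespace Pool.Agent.SimplC

theorem exists_next {X : Type} {c : X → X → X → Prop} (hc : CycOrd c) (P : Finset X)
    (hP : 3 ≤ P.card) : ∃ nx : X → X,
      (∀ p ∈ P, nx p ∈ P ∧ nx p ≠ p ∧ ∀ x ∈ P, ¬ c p x (nx p)) ∧
      (∀ p ∈ P, ∀ q ∈ P, q ≠ p → (∀ x ∈ P, ¬ c p x q) → q = nx p) ∧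
      (∀ p ∈ P, ∀ q ∈ P, nx p = nx q → p = q) ∧ (∀ p ∈ P, nx (nx p) ≠ p) := by
  classical
  have d23 : ∀ x y z, c x y z → y ≠ z := by
    rintro x y z h rfl
    exact hc.asymm _ _ _ h h
  have d13 : ∀ x y z, c x y z → x ≠ z := by
    intro x y z h hxz
    exact d23 y z x (hc.rot _ _ _ h) hxz.symm
  have d12 : ∀ x y z, c x y z → x ≠ y := fun x y z h => by
    have h1 := hc.rot _ _ _ (hc.rot _ _ _ h)
    exact d23 z x y h1
  -- the next point
  have ex : ∀ p ∈ P, ∃ q ∈ P, q ≠ p ∧ ∀ x ∈ P, ¬ c p x q := by
    intro p hp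
    have hne : (P.erase p).Nonempty := by
      rw [← Finset.card_pos, Finset.card_erase_of_mem hp]
      omega
    have key : ∀ S : Finset X, S.Nonempty → (∀ x ∈ S, x ≠ p) →
        ∃ q ∈ S, ∀ x ∈ S, ¬ c p x q := by
      intro S hS
      induction hS using Finset.Nonempty.cons_induction with
      | singleton a =>
        intro _
        refine ⟨a, by simp, fun x hx h => ?_⟩
        rw [Finset.mem_singleton] at hx
        subst hx
        exact d23 _ _ _ h rfl
      | cons a s ha hs ih =>
        intro hS'
        obtain ⟨q, hq, hq'⟩ := ih fun x hx => hS' x (Finset.mem_cons.2 (Or.inr hx))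
        by_cases h : c p a q
        · refine ⟨a, Finset.mem_cons_self a s, fun x hx hxa => ?_⟩
          rcases Finset.mem_cons.1 hx with rfl | hx
          · exact d23 _ _ _ hxa rfl
          · exact hq' x hx (hc.trans _ _ _ _ hxa h)
        · refine ⟨q, Finset.mem_cons.2 (Or.inr hq), fun x hx hxq => ?_⟩
          rcases Finset.mem_cons.1 hx with rfl | hx
          · exact h hxq
          · exact hq' x hx hxq
    obtain ⟨q, hq, hq'⟩ := key _ hne fun x hx => (Finset.mem_erase.1 hx).1
    obtain ⟨hqp, hqP⟩ := Finset.mem_erase.1 hq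
    refine ⟨q, hqP, hqp, fun x hx h => ?_⟩
    by_cases hxp : x = p
    · exact d12 _ _ _ h hxp.symm
    · exact hq' x (Finset.mem_erase.2 ⟨hxp, hx⟩) h
  choose! nx h1 h2 h3 using ex
  refine ⟨nx, fun p hp => ⟨h1 p hp, h2 p hp, h3 p hp⟩, ?_, ?_, ?_⟩
  · intro p hp q hq hqp hx
    by_contra hne
    rcases hc.total (x := p) (y := q) (z := nx p) hqp.symm hne (h2 p hp) with h | h
    · exact h3 p hp q hq h
    · exact hx (nx p) (h1 p hp) h
  · intro p hp p' hp' he
    by_contra hne
    have hq1 : p' ≠ nx p := by
      rw [he]; exact (h2 p' hp').symm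
    rcases hc.total (x := p) (y := p') (z := nx p) hne hq1 (h2 p hp) with h | h
    · exact h3 p hp p' hp' h
    · have h4 := hc.rot _ _ _ (hc.rot _ _ _ h)
      rw [he] at h4
      exact h3 p' hp' p hp h4
  · intro p hp he
    obtain ⟨x, hx, hxp, hxq⟩ : ∃ x ∈ P, x ≠ p ∧ x ≠ nx p := by
      by_contra hcon
      push Not at hcon
      have h4 : P ⊆ {p, nx p} := by
        intro x hx
        rw [Finset.mem_insert, Finset.mem_singleton]
        by_cases hxp : x = p
        · exact Or.inl hxp
        · exact Or.inr (hcon x hx hxp)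
      have h5 := (Finset.card_le_card h4).trans Finset.card_le_two
      omega
    rcases hc.total (x := p) (y := x) (z := nx p) hxp.symm hxq (h2 p hp) with h | h
    · exact h3 p hp x hx h
    · have h4 := hc.rot _ _ _ h
      have h5 := h3 (nx p) (h1 p hp) x hx
      rw [he] at h5
      exact h5 h4

end Pool.Agent.SimplC
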