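import Pool.Agent.SimplC.Defs
import Pool.Agent.SimplC.CycDefs

set_option autoImplicit false

/-! # The cyclic order of the circle (CON_Proof.md, 2.2)

`orr x y z = orr y z x` (the same sum), `orr x z y = -orr x y z` (`Im (conj x * z) = -Im (conj z * x)`), so `rot` and `asymm`.
Put `f x y = Im (conj x * y) = x.re * y.im - x.im * y.re` and `g x y = Re (conj x * y) = x.re * y.re + x.im * y.im`. For a point
`p` of the circle let `X = conj p * x`, `Y = conj p * y` (points of the circle); then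
`orr p x y = Im X - Im Y + Im (conj X * Y) = (1 - Re X) (1 - Re Y) (s X - s Y)` with `s X = Im X / (1 - Re X)`
(for `X, Y ≠ 1`, i.e. `x, y ≠ p`; then `Re X < 1`): indeed `Im (conj X Y) = Re X Im Y - Im X Re Y` and
`(1 - Re Y) Im X - (1 - Re X) Im Y = Im X - Im Y + Re X Im Y - Re Y Im X`. If `X = 1` or `Y = 1` then `orr p x y = 0`.
So `cyc p x y ↔ x ≠ p ∧ y ≠ p ∧ s Y < s X`: this gives `trans`; and `s` is injective on the circle without `1`
(`Re X = (s² - 1) / (s² + 1)`, `Im X = 2 s / (s² + 1)`), so for `p, x, y` different `s X ≠ s Y`: `total`. -/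

namespace Pool.Agent.SimplC

open Complex Module ComplexConjugate Pool.Agent.Simpl

private theorem orr_eq (x y z : Circle) : orr x y z =
    ((x : ℂ).re * (y : ℂ).im - (x : ℂ).im * (y : ℂ).re) +
    ((y : ℂ).re * (z : ℂ).im - (y : ℂ).im * (z : ℂ).re) +
    ((z : ℂ).re * (x : ℂ).im - (z : ℂ).im * (x : ℂ).re) := by
  unfold orr
  rw [Complex.add_im, Complex.add_im, Complex.mul_im, Complex.mul_im, Complex.mul_im,
    Complex.conj_re, Complex.conj_im, Complex.conj_re, Complex.conj_im, Complex.conj_re,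
    Complex.conj_im]
  ring

private theorem orr_rot (x y z : Circle) : orr x y z = orr y z x := by
  rw [orr_eq, orr_eq]
  ring

private theorem orr_swap (x y z : Circle) : orr x z y = -orr x y z := by
  rw [orr_eq, orr_eq]
  ring

/-- a point of the circle different from `p`: `1 - Re (conj p * x) > 0` -/
private theorem pos_of_ne {p x : Circle} (h : p ≠ x) :
    0 < 1 - ((p : ℂ).re * (x : ℂ).re + (p : ℂ).im * (x : ℂ).im) := by
  have h1 := circle_sq p
  have h2 := circle_sq x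
  have h3 : 1 - ((p : ℂ).re * (x : ℂ).re + (p : ℂ).im * (x : ℂ).im) =
      (((p : ℂ).re - (x : ℂ).re) ^ 2 + ((p : ℂ).im - (x : ℂ).im) ^ 2) / 2 := by
    linear_combination (-1 / 2 : ℝ) * h1 + (-1 / 2 : ℝ) * h2
  rw [h3]
  by_contra hc
  have h4 : ((p : ℂ).re - (x : ℂ).re) ^ 2 + ((p : ℂ).im - (x : ℂ).im) ^ 2 ≤ 0 := by linarith
  have h5 : (p : ℂ).re - (x : ℂ).re = 0 := by
    nlinarith [sq_nonneg ((p : ℂ).re - (x : ℂ).re), sq_nonneg ((p : ℂ).im - (x : ℂ).im)]
  have h6 : (p : ℂ).im - (x : ℂ).im = 0 := by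
    nlinarith [sq_nonneg ((p : ℂ).re - (x : ℂ).re), sq_nonneg ((p : ℂ).im - (x : ℂ).im)]
  exact h (Circle.ext (Complex.ext (sub_eq_zero.1 h5) (sub_eq_zero.1 h6)))

/-- the slope of `x` seen from `p` -/
private noncomputable def sl (p x : Circle) : ℝ :=
  ((p : ℂ).re * (x : ℂ).im - (p : ℂ).im * (x : ℂ).re) /
    (1 - ((p : ℂ).re * (x : ℂ).re + (p : ℂ).im * (x : ℂ).im))

private theorem orr_sl {p x y : Circle} (hx : p ≠ x) (hy : p ≠ y) : orr p x y =
    (1 - ((p : ℂ).re * (x : ℂ).re + (p : ℂ).im * (x : ℂ).im)) *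
    (1 - ((p : ℂ).re * (y : ℂ).re + (p : ℂ).im * (y : ℂ).im)) * (sl p x - sl p y) := by
  have h1 := pos_of_ne hx
  have h2 := pos_of_ne hy
  have h3 : (1 - ((p : ℂ).re * (x : ℂ).re + (p : ℂ).im * (x : ℂ).im)) * sl p x =
      (p : ℂ).re * (x : ℂ).im - (p : ℂ).im * (x : ℂ).re := by
    unfold sl
    rw [mul_div_cancel₀ _ h1.ne']
  have h4 : (1 - ((p : ℂ).re * (y : ℂ).re + (p : ℂ).im * (y : ℂ).im)) * sl p y =
      (p : ℂ).re * (y : ℂ).im - (p : ℂ).im * (y : ℂ).re := by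
    unfold sl
    rw [mul_div_cancel₀ _ h2.ne']
  have h5 : (1 - ((p : ℂ).re * (x : ℂ).re + (p : ℂ).im * (x : ℂ).im)) *
      (1 - ((p : ℂ).re * (y : ℂ).re + (p : ℂ).im * (y : ℂ).im)) * (sl p x - sl p y) =
      (1 - ((p : ℂ).re * (y : ℂ).re + (p : ℂ).im * (y : ℂ).im)) *
        ((1 - ((p : ℂ).re * (x : ℂ).re + (p : ℂ).im * (x : ℂ).im)) * sl p x) -
      (1 - ((p : ℂ).re * (x : ℂ).re + (p : ℂ).im * (x : ℂ).im)) *
        ((1 - ((p : ℂ).re * (y : ℂ).re + (p : ℂ).im * (y : ℂ).im)) * sl p y) := by ring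
  rw [h5, h3, h4, orr_eq]
  linear_combination (-((x : ℂ).re * (y : ℂ).im - (x : ℂ).im * (y : ℂ).re)) * circle_sq p

private theorem orr_self_left (p y : Circle) : orr p p y = 0 := by
  rw [orr_eq]
  ring

private theorem orr_self_right (p x : Circle) : orr p x p = 0 := by
  rw [orr_eq]
  ring

private theorem cyc_iff {p x y : Circle} : cyc p x y ↔ p ≠ x ∧ p ≠ y ∧ sl p y < sl p x := by
  unfold cyc
  constructor
  · intro h
    have hx : p ≠ x := by
      rintro rfl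
      rw [orr_self_left] at h
      exact lt_irrefl _ h
    have hy : p ≠ y := by
      rintro rfl
      rw [orr_self_right] at h
      exact lt_irrefl _ h
    refine ⟨hx, hy, ?_⟩
    rw [orr_sl hx hy] at h
    have h1 := mul_pos (pos_of_ne hx) (pos_of_ne hy)
    have h2 := (mul_pos_iff_of_pos_left h1).1 h
    linarith
  · rintro ⟨hx, hy, h⟩
    rw [orr_sl hx hy]
    exact mul_pos (mul_pos (pos_of_ne hx) (pos_of_ne hy)) (by linarith)

/-- the slope determines the point -/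
private theorem sl_inj {p x y : Circle} (hx : p ≠ x) (hy : p ≠ y) (h : sl p x = sl p y) :
    x = y := by
  have key : ∀ w : Circle, p ≠ w →
      (1 - ((p : ℂ).re * (w : ℂ).re + (p : ℂ).im * (w : ℂ).im)) * (1 + sl p w ^ 2) = 2 := by
    intro w hw
    have h1 := pos_of_ne hw
    have h2 : (1 - ((p : ℂ).re * (w : ℂ).re + (p : ℂ).im * (w : ℂ).im)) * sl p w =
        (p : ℂ).re * (w : ℂ).im - (p : ℂ).im * (w : ℂ).re := by
      unfold sl
      rw [mul_div_cancel₀ _ h1.ne']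
    have h3 := circle_sq p
    have h4 := circle_sq w
    have h5 : (1 - ((p : ℂ).re * (w : ℂ).re + (p : ℂ).im * (w : ℂ).im)) *
        ((1 - ((p : ℂ).re * (w : ℂ).re + (p : ℂ).im * (w : ℂ).im)) * (1 + sl p w ^ 2) - 2) =
        0 := by
      have h6 : (1 - ((p : ℂ).re * (w : ℂ).re + (p : ℂ).im * (w : ℂ).im)) *
          ((1 - ((p : ℂ).re * (w : ℂ).re + (p : ℂ).im * (w : ℂ).im)) * (1 + sl p w ^ 2) - 2) =
          (1 - ((p : ℂ).re * (w : ℂ).re + (p : ℂ).im * (w : ℂ).im)) ^ 2 +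
          ((1 - ((p : ℂ).re * (w : ℂ).re + (p : ℂ).im * (w : ℂ).im)) * sl p w) ^ 2 -
          2 * (1 - ((p : ℂ).re * (w : ℂ).re + (p : ℂ).im * (w : ℂ).im)) := by ring
      rw [h6, h2]
      linear_combination ((w : ℂ).re ^ 2 + (w : ℂ).im ^ 2) * h3 + h4
    rcases mul_eq_zero.1 h5 with h6 | h6
    · exact absurd h6 h1.ne'
    · linarith
  have h1 := key x hx
  have h2 := key y hy
  rw [h] at h1
  have h3 : 0 < 1 + sl p y ^ 2 := by positivity
  have h4 : 1 - ((p : ℂ).re * (x : ℂ).re + (p : ℂ).im * (x : ℂ).im) =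
      1 - ((p : ℂ).re * (y : ℂ).re + (p : ℂ).im * (y : ℂ).im) :=
    mul_right_cancel₀ h3.ne' (h1.trans h2.symm)
  have hpx := pos_of_ne hx
  have hpy := pos_of_ne hy
  have h5 : (p : ℂ).re * (x : ℂ).im - (p : ℂ).im * (x : ℂ).re =
      (p : ℂ).re * (y : ℂ).im - (p : ℂ).im * (y : ℂ).re := by
    have h6 : (1 - ((p : ℂ).re * (x : ℂ).re + (p : ℂ).im * (x : ℂ).im)) * sl p x =
        (p : ℂ).re * (x : ℂ).im - (p : ℂ).im * (x : ℂ).re := by
      unfold sl
      rw [mul_div_cancel₀ _ hpx.ne']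
    have h7 : (1 - ((p : ℂ).re * (y : ℂ).re + (p : ℂ).im * (y : ℂ).im)) * sl p y =
        (p : ℂ).re * (y : ℂ).im - (p : ℂ).im * (y : ℂ).re := by
      unfold sl
      rw [mul_div_cancel₀ _ hpy.ne']
    rw [← h6, ← h7, h, h4]
  have hp := circle_sq p
  refine Circle.ext (Complex.ext ?_ ?_)
  · linear_combination ((y : ℂ).re - (x : ℂ).re) * hp - (p : ℂ).re * h4 - (p : ℂ).im * h5
  · linear_combination ((y : ℂ).im - (x : ℂ).im) * hp - (p : ℂ).im * h4 + (p : ℂ).re * h5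

theorem cycOrd_cyc : CycOrd cyc := by
  refine ⟨?_, ?_, ?_, ?_⟩
  · intro x y z h
    unfold cyc at h ⊢
    rwa [← orr_rot]
  · intro x y z h h'
    unfold cyc at h h'
    rw [orr_swap] at h'
    linarith
  · intro x y z hxy hyz hzx
    rw [cyc_iff, cyc_iff]
    rcases lt_trichotomy (sl x y) (sl x z) with h | h | h
    · exact Or.inr ⟨hzx.symm, hxy, h⟩
    · exact absurd (sl_inj hxy hzx.symm h) hyz
    · exact Or.inl ⟨hxy, hzx.symm, h⟩
  · intro p x y z h h'
    rw [cyc_iff] at h h' ⊢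
    exact ⟨h.1, h'.2.1, h'.2.2.trans h.2.2⟩

/-- There are three points with `cyc` (e.g. `1`, `i`, `-1`). -/
theorem exists_cyc : ∃ x y z : Circle, cyc x y z := by
  refine ⟨1, Circle.exp (Real.pi / 2), Circle.exp Real.pi, ?_⟩
  unfold cyc
  rw [orr_eq, Circle.coe_exp, Circle.coe_exp, Circle.coe_one, Complex.exp_ofReal_mul_I_re,
    Complex.exp_ofReal_mul_I_im, Complex.exp_ofReal_mul_I_re, Complex.exp_ofReal_mul_I_im,
    Real.cos_pi_div_two, Real.sin_pi_div_two, Real.cos_pi, Real.sin_pi, Complex.one_re,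
    Complex.one_im]
  norm_num

end Pool.Agent.SimplC
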