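import Pool.Agent.SimplC.Three

set_option autoImplicit false

/-! # Reflections (CON_Proof.md, 2.4)

For `bf c c ≠ 0` let `R x = x - (2 bf x c / bf c c) • c`: linear, `R (R x) = x` (`bf (R x) c = -bf x c`), so it is a linear
equivalence (`LinearEquiv.ofInvolutive`), and `bf (R x) (R y) = bf x y`.
`y = ± R (nul w)` (sign `+` if `bf c c > 0`, `-` if `bf c c < 0`) is a null vector, `y ≠ 0`, and
`bf (R (nul w)) (nul w) = -2 (bf (nul w) c)² / bf c c`, so `bf y (nul w) ≤ 0`.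
(*) For a null vector `y = (z, t)`, `y ≠ 0`: `|z| = |t|`, `t ≠ 0`. If `t < 0` then `bf y (nul w) = Re (z conj w) - t ≥ -|z| - t = 0`,
with equality only if `z = t w` (equality in Cauchy-Schwarz: `-y = |t| nul w'` by `exists_nul` and
`bf y (nul w) = -|t| bf (nul w') (nul w) > 0` for `w' ≠ w` by `bf_nul_ne`), i.e. `y = t • nul w`.
Suppose `y.2 < 0` for `y = ± R (nul w)`. By (*) `bf y (nul w) = 0` and `y = t • nul w`, so `bf (nul w) c = 0`, and `R (nul w) = nul w`.
If `bf c c > 0`: `y = nul w` has height `1 > 0`, a contradiction. If `bf c c < 0`: `bf (nul w) c = 0` is impossible: write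
`c = (z, t)`, `|z|² < t²`, `Re (w conj z) = t`, `|Re (w conj z)| ≤ |z| < |t|`. So `y.2 > 0`. -/

namespace Pool.Agent.SimplC

open Complex Module ComplexConjugate Pool.Agent.Simpl

/-- The reflection as a linear map. -/
private noncomputable def Rm (c : ℂ × ℝ) : (ℂ × ℝ) →ₗ[ℝ] (ℂ × ℝ) where
  toFun x := x - (2 * bf x c / bf c c) • c
  map_add' x y := by
    have h : 2 * bf (x + y) c / bf c c = 2 * bf x c / bf c c + 2 * bf y c / bf c c := by
      rw [bf_add_left]
      ring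
    rw [h, add_smul]
    abel
  map_smul' r x := by
    have h : 2 * bf (r • x) c / bf c c = r * (2 * bf x c / bf c c) := by
      rw [bf_smul_left]
      ring
    rw [h, RingHom.id_apply, smul_sub, smul_smul]

private theorem Rm_apply (c x : ℂ × ℝ) : Rm c x = x - (2 * bf x c / bf c c) • c := rfl

private theorem Rm_c {c : ℂ × ℝ} (h : bf c c ≠ 0) (x : ℂ × ℝ) : bf (Rm c x) c = -bf x c := by
  rw [Rm_apply, bf_sub_left, bf_smul_left]
  field_simp
  ring

private theorem Rm_inv {c : ℂ × ℝ} (h : bf c c ≠ 0) (x : ℂ × ℝ) : Rm c (Rm c x) = x := by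
  rw [Rm_apply c (Rm c x), Rm_c h, Rm_apply c x]
  have h1 : 2 * -bf x c / bf c c = -(2 * bf x c / bf c c) := by ring
  rw [h1, neg_smul]
  abel

private theorem Rm_bf {c : ℂ × ℝ} (h : bf c c ≠ 0) (x y : ℂ × ℝ) :
    bf (Rm c x) (Rm c y) = bf x y := by
  rw [Rm_apply c y, bf_sub_right, bf_smul_right, Rm_c h, Rm_apply, bf_sub_left, bf_smul_left,
    bf_comm c y]
  ring

private theorem Rm_nul {c : ℂ × ℝ} (h : bf c c ≠ 0) (w : Circle) :
    0 < bf c c * (Rm c (nul w)).2 := by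
  have h1 : bf c c * (Rm c (nul w)).2 =
      (c.1.re * (w : ℂ).im - c.1.im * (w : ℂ).re) ^ 2 +
        ((w : ℂ).re * c.1.re + (w : ℂ).im * c.1.im - c.2) ^ 2 := by
    rw [Rm_apply, Prod.snd_sub, Prod.smul_snd, nul_snd, smul_eq_mul, mul_sub, mul_one,
      ← mul_assoc, mul_div_cancel₀ _ h, bf_def, bf_def, nul_fst, nul_snd]
    linear_combination (-(c.1.re ^ 2 + c.1.im ^ 2)) * circle_sq w
  rw [h1]
  rcases (add_nonneg (sq_nonneg (c.1.re * (w : ℂ).im - c.1.im * (w : ℂ).re))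
    (sq_nonneg ((w : ℂ).re * c.1.re + (w : ℂ).im * c.1.im - c.2))).lt_or_eq with h2 | h2
  · exact h2
  · exfalso
    have h3 : c.1.re * (w : ℂ).im - c.1.im * (w : ℂ).re = 0 := by
      nlinarith [sq_nonneg (c.1.re * (w : ℂ).im - c.1.im * (w : ℂ).re),
        sq_nonneg ((w : ℂ).re * c.1.re + (w : ℂ).im * c.1.im - c.2)]
    have h4 : (w : ℂ).re * c.1.re + (w : ℂ).im * c.1.im - c.2 = 0 := by
      nlinarith [sq_nonneg (c.1.re * (w : ℂ).im - c.1.im * (w : ℂ).re),
        sq_nonneg ((w : ℂ).re * c.1.re + (w : ℂ).im * c.1.im - c.2)]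
    apply h
    rw [bf_def]
    linear_combination (c.1.re * (w : ℂ).im - c.1.im * (w : ℂ).re) * h3 +
      ((w : ℂ).re * c.1.re + (w : ℂ).im * c.1.im + c.2) * h4 -
      (c.1.re ^ 2 + c.1.im ^ 2) * circle_sq w

theorem refl_pos {c : ℂ × ℝ} (h : 0 < bf c c) :
    ∃ g : Lor, ∀ x, g.1 x = x - (2 * bf x c / bf c c) • c := by
  refine ⟨⟨LinearEquiv.ofInvolutive (Rm c) (Rm_inv h.ne'), ?_, ?_⟩, fun x => rfl⟩
  · intro x y
    exact Rm_bf h.ne' x y
  · intro w
    exact (mul_pos_iff_of_pos_left h).1 (Rm_nul h.ne' w)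

theorem refl_neg {c : ℂ × ℝ} (h : bf c c < 0) :
    ∃ g : Lor, ∀ x, g.1 x = (2 * bf x c / bf c c) • c - x := by
  have hi : Function.Involutive (-Rm c) := by
    intro x
    rw [LinearMap.neg_apply, LinearMap.neg_apply, map_neg, neg_neg, Rm_inv h.ne]
  refine ⟨⟨LinearEquiv.ofInvolutive (-Rm c) hi, ?_, ?_⟩, fun x => ?_⟩
  · intro x y
    change bf (-Rm c x) (-Rm c y) = bf x y
    rw [bf_neg_left, bf_neg_right, neg_neg, Rm_bf h.ne]
  · intro w
    change 0 < (-Rm c (nul w)).2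
    have h1 := Rm_nul h.ne w
    rw [Prod.snd_neg]
    nlinarith
  · change -Rm c x = _
    rw [Rm_apply, neg_sub]

end Pool.Agent.SimplC
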