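import Pool.Agent.SimplC.Defs

set_option autoImplicit false

/-! # Rotations as elements of the Lorentz group -/

namespace Pool.Agent.SimplC

open Complex Module ComplexConjugate Pool.Agent.Simpl

theorem rot_apply (w : Circle) (x : ℂ × ℝ) : rot w x = ((w : ℂ) * x.1, x.2) := rfl

theorem rot_nul (w u : Circle) : rot w (nul u) = nul (w * u) := by
  rw [rot_apply]
  refine Prod.ext ?_ rfl
  rw [nul_fst, nul_fst, Circle.coe_mul]

/-- The rotation. -/
noncomputable def rotL (w : Circle) : Lor := ⟨rot w, by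
  refine ⟨fun x y => ?_, fun u => ?_⟩
  · have h := circle_sq w
    rw [rot_apply, rot_apply, bf_def, bf_def]
    simp only [Complex.mul_re, Complex.mul_im]
    linear_combination (x.1.re * y.1.re + x.1.im * y.1.im) * h
  · rw [rot_nul, nul_snd]
    exact one_pos⟩

theorem rotL_apply (w : Circle) (x : ℂ × ℝ) : (rotL w).1 x = ((w : ℂ) * x.1, x.2) := rfl

theorem rotL_smul (w u : Circle) : rotL w • u = w * u :=
  smul_unique (rotL w) (c := 1) (by
    rw [one_smul]
    exact rot_nul w u)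

theorem rotL_mul (w w' : Circle) : rotL (w * w') = rotL w * rotL w' := by
  refine Subtype.ext (LinearEquiv.ext fun x => ?_)
  change (rotL (w * w')).1 x = (rotL w).1 ((rotL w').1 x)
  rw [rotL_apply, rotL_apply, rotL_apply, Circle.coe_mul, mul_assoc]

theorem rotL_one : rotL 1 = 1 := by
  refine Subtype.ext (LinearEquiv.ext fun x => ?_)
  rw [rotL_apply, Circle.coe_one, one_mul]
  rfl

theorem rotL_inv (w : Circle) : rotL w⁻¹ = (rotL w)⁻¹ := by
  rw [eq_inv_iff_mul_eq_one, ← rotL_mul, inv_mul_cancel, rotL_one]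

theorem rotL_inj : Function.Injective rotL := by
  intro w w' h
  have h1 := congrArg (fun g : Lor => g • (1 : Circle)) h
  simp only [rotL_smul, mul_one] at h1
  exact h1

/-- `rotL w` is the square of `rotL u` with `u² = w`. -/
theorem rotL_mem (w : Circle) : rotL w ∈ LorP := by
  obtain ⟨u, hu⟩ : ∃ u : Circle, u * u = w := by
    refine ⟨Circle.exp (Complex.arg w / 2), ?_⟩
    rw [← Circle.exp_add, add_halves, Circle.exp_arg]
  rw [← hu, rotL_mul, mem_LorP]
  have e : ((rotL u * rotL u).1 : (ℂ × ℝ) →ₗ[ℝ] (ℂ × ℝ)) =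
    ((rotL u).1 : (ℂ × ℝ) →ₗ[ℝ] (ℂ × ℝ)) ∘ₗ ((rotL u).1 : (ℂ × ℝ) →ₗ[ℝ] (ℂ × ℝ)) := rfl
  rw [e, LinearMap.det_comp]
  have h2 : LinearMap.det ((rotL u).1 : (ℂ × ℝ) →ₗ[ℝ] (ℂ × ℝ)) ≠ 0 :=
    (LinearEquiv.isUnit_det' (rotL u).1).ne_zero
  exact mul_self_pos.2 h2

end Pool.Agent.SimplC
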