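import Pool.Agent.SimplC.Chart
import Pool.Agent.SimplC.Four

set_option autoImplicit false

/-! # Every corner is served (CON_Proof.md, 1.3)

`w0 = vv (t a) (t b)`, `u1 = vv (t a) (t b')`, `u2 = vv (t a') (t b)`, `H1 = tang 1 (par (t a))`,
`H2 = tang 1 (par (t b))`, both in `A` (`hT`). By `vv_mem_tang`: `w0, u1 ∈ H1`, `u2 ∉ H1` (`t a' ≠
t a`, `t b ≠ t a`: the four indices are different except that nothing else is needed: `a ≠ a'`, `b
≠ b'`, and `a, a'` differ from `b, b'`, `IsFlag`; `t` is injective on the indices less than `r`),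
`w0, u2 ∈ H2`, `u1 ∉ H2`. Suppose the corner is not served by any `l ∈ oth A`. Let `g H = fn H` if
`0 < fn H w0` or (`fn H w0 = 0` and `0 < fn H u1`), and `g H = - fn H` otherwise; `ker (g H) = H`
(`ker_fn`). (`hg` of `four_walls`) Let `H ∈ A`, `H ≠ H1, H2`. If `H = tang 1 w`, then `w ∈ P`, `w
= par (t c)`, `c < r`, `c ≠ a, b`, and `fn H` is a non-zero multiple of `bf · (nul w)` (same
kernel; `mem_tang_iff`), so by `bf_vv_par` there is `κ ≠ 0` with `fn H (vv x y) = κ (x - t c) (y -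
t c)`; `fn H w0 ≠ 0` as `c ≠ a, b`, so `g H w0 > 0`. Otherwise `H ∈ oth A`; if `g H w0` is not
positive then `fn H w0 = 0` (from the definition of `g`), and `fn H u1 ≠ 0` (otherwise `w0, u1 ∈
H`, and these vectors are linearly independent elements of `H1` as `u1 ∉ H2`, `w0 ∈ H2`, `w0 ≠ 0`;
so `H = H1` by dimensions), so `g H u1 > 0`; in the same way `fn H u2 ≠ 0`; the first alternative
of `Serves` is false: `fn H u1 * fn H u2 ≥ 0`, so `g H u2 > 0`. (`e1`) `H = tang 1 (par (t b'))`: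
`g H u1 = 0`, `H ≠ H1, H2` (`tang_inj`, `par_inj`). (`e2`) `H = tang 1 (par (t a'))`: `g H u2 =
0`. `four_walls` gives `H ∈ A`, `H ≠ H1, H2` with `g H w0 > 0`, `g H u1 ≤ 0`, `g H u2 ≤ 0`. If `H
∈ oth A` then the second alternative of `Serves` holds for `fn H = ± g H`, a contradiction. If `H
= tang 1 (par (t c))`: with `κ`: `(t a - t c) (t b - t c)` and `(t a - t c) (t b' - t c)` have
product `≤ 0`, so `(t b - t c) (t b' - t c) ≤ 0`; `b, b'` are consecutive and `c ≠ b`, so `c =
b'`; in the same way `c = a'`; but `a' ≠ b'`. -/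

namespace Pool.Agent.SimplC

open Complex Module ComplexConjugate Pool.Agent.Simpl

private theorem fn_tang {c : ℝ} (hk : LinearMap.ker (fn (tang 1 (par c))) = tang 1 (par c)) :
    ∃ κ : ℝ, κ ≠ 0 ∧ ∀ x y, fn (tang 1 (par c)) (vv x y) = κ * ((x - c) * (y - c)) := by
  set f := fn (tang 1 (par c)) with hf
  have h0 : bf (vv (c + 1) (c + 1)) (nul (par c)) ≠ 0 := by
    intro h
    have h1 := bf_vv_par (c + 1) (c + 1) c
    rw [h] at h1
    ring_nf at h1
    norm_num at h1
  have h1 : ∀ z, f z = f (vv (c + 1) (c + 1)) / bf (vv (c + 1) (c + 1)) (nul (par c)) *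
      bf z (nul (par c)) := by
    intro z
    have h2 : z - (bf z (nul (par c)) / bf (vv (c + 1) (c + 1)) (nul (par c))) •
        vv (c + 1) (c + 1) ∈ LinearMap.ker f := by
      rw [hk, mem_tang_iff, bf_sub_left, bf_smul_left, div_mul_cancel₀ _ h0, sub_self]
    rw [LinearMap.mem_ker, map_sub, map_smul, smul_eq_mul, sub_eq_zero] at h2
    rw [h2]
    ring
  have h3 : f (vv (c + 1) (c + 1)) ≠ 0 := by
    intro h
    have h4 : vv (c + 1) (c + 1) ∈ LinearMap.ker f := h
    rw [hk, mem_tang_iff] at h4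
    exact h0 h4
  have h5 : c ^ 2 + 1 ≠ 0 := by positivity
  refine ⟨f (vv (c + 1) (c + 1)) / bf (vv (c + 1) (c + 1)) (nul (par c)) * (-2 / (c ^ 2 + 1)),
    mul_ne_zero (div_ne_zero h3 h0) (div_ne_zero (by norm_num) h5), fun x y => ?_⟩
  rw [h1 (vv x y)]
  have h6 := bf_vv_par x y c
  have h7 : bf (vv x y) (nul (par c)) = -2 / (c ^ 2 + 1) * ((x - c) * (y - c)) := by
    field_simp
    linear_combination h6
  rw [h7]
  ring

private theorem plane_eq {H K M : Submodule ℝ (ℂ × ℝ)} (hH : finrank ℝ H = 2)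
    (hK : finrank ℝ K = 2) {w u : ℂ × ℝ} (hw : w ≠ 0) (wH : w ∈ H) (uH : u ∈ H) (wK : w ∈ K)
    (uK : u ∈ K) (wM : w ∈ M) (uM : u ∉ M) : H = K := by
  have hli : LinearIndependent ℝ ![w, u] := by
    rw [LinearIndependent.pair_iff]
    intro s t h
    have ht : t = 0 := by
      by_contra ht
      apply uM
      have h2 : t • u = -(s • w) := by
        rw [eq_neg_iff_add_eq_zero, add_comm]
        exact h
      have h1 : u = t⁻¹ • -(s • w) := by
        rw [← h2, smul_smul, inv_mul_cancel₀ ht, one_smul]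
      rw [h1]
      exact M.smul_mem _ (M.neg_mem (M.smul_mem _ wM))
    subst ht
    rw [zero_smul, add_zero, smul_eq_zero] at h
    exact ⟨h.resolve_right hw, rfl⟩
  have hspan : finrank ℝ (Submodule.span ℝ (Set.range ![w, u])) = 2 := by
    rw [finrank_span_eq_card hli, Fintype.card_fin]
  have e : ∀ S : Submodule ℝ (ℂ × ℝ), finrank ℝ S = 2 → w ∈ S → u ∈ S →
      Submodule.span ℝ (Set.range ![w, u]) = S := by
    intro S hS h1 h2
    refine Submodule.eq_of_le_of_finrank_eq ?_ (by rw [hspan, hS])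
    rw [Submodule.span_le]
    rintro _ ⟨i, rfl⟩
    fin_cases i
    · exact h1
    · exact h2
  rw [← e H hH wH uH, e K hK wK uK]

/-- Two consecutive numbers of an increasing sequence lie on one side of a third one. -/
private theorem side_pos {r : ℕ} {t : ℕ → ℝ} (ht : ∀ i j, i < j → j < r → t i < t j)
    {b b' c : ℕ} (hb : b < r) (hb' : b' < r) (hc : c < r) (h : b' = b + 1 ∨ b = b' + 1)
    (h1 : c ≠ b) (h2 : c ≠ b') : 0 < (t b - t c) * (t b' - t c) := by
  rcases lt_or_gt_of_ne h1 with h3 | h3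
  · have h4 : c < b' := by omega
    exact mul_pos (sub_pos.2 (ht c b h3 hb)) (sub_pos.2 (ht c b' h4 hb'))
  · have h4 : b' < c := by omega
    exact mul_pos_of_neg_of_neg (sub_neg.2 (ht b c h3 hc)) (sub_neg.2 (ht b' c h4 hc))

theorem serve {A : Finset (Submodule ℝ (ℂ × ℝ))} (hA : ∀ H ∈ A, finrank ℝ H = 2)
    (hS : IsSimplicial A) {r : ℕ} {t : ℕ → ℝ} (ht : ∀ i j, i < j → j < r → t i < t j)
    (hT : ∀ w, tang 1 w ∈ A ↔ ∃ i < r, par (t i) = w) {a a' b b' : ℕ} (hf : IsFlag a a' b b')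
    (ha : a < r) (ha' : a' < r) (hb : b < r) (hb' : b' < r) :
    ∃ l ∈ oth A, Serves (fun i j => fn l (vv (t i) (t j))) a a' b b' := by
  classical
  by_contra hcon
  have hns : ∀ l ∈ oth A, ¬ Serves (fun i j => fn l (vv (t i) (t j))) a a' b b' :=
    fun l hl hs => hcon ⟨l, hl, hs⟩
  have hk : ∀ H ∈ A, LinearMap.ker (fn H) = H := fun H hH =>
    ker_fn (by rw [hA H hH, finrank_CR])
  have tinj : ∀ i j, i < r → j < r → i ≠ j → t i ≠ t j := by
    intro i j hi hj hij h
    rcases lt_or_gt_of_ne hij with h1 | h1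
    · exact absurd h (ht i j h1 hj).ne
    · exact absurd h (ht j i h1 hi).ne'
  obtain ⟨f1, f2, f3⟩ := hf
  have nab : a ≠ b := by omega
  have nab' : a ≠ b' := by omega
  have na'b : a' ≠ b := by omega
  have na'b' : a' ≠ b' := by omega
  have naa' : a ≠ a' := by omega
  have nbb' : b ≠ b' := by omega
  have mem_oth : ∀ H, H ∈ A → (∀ w : Circle, H ≠ tang 1 w) → H ∈ oth A := by
    intro H h1 h2
    unfold oth
    exact Finset.mem_filter.2 ⟨h1, h2⟩
  have htw : ∀ w, tang 1 w ∈ A → ∃ c < r, tang 1 w = tang 1 (par (t c)) ∧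
      ∃ κ : ℝ, κ ≠ 0 ∧ ∀ x y, fn (tang 1 w) (vv x y) = κ * ((x - t c) * (y - t c)) := by
    intro w hw
    obtain ⟨c, hc, rfl⟩ := (hT w).1 hw
    exact ⟨c, hc, rfl, fn_tang (hk _ hw)⟩
  have tne : ∀ i j, i < r → j < r → i ≠ j → tang 1 (par (t i)) ≠ tang 1 (par (t j)) := by
    intro i j hi hj hij h
    exact tinj i j hi hj hij (par_inj (tang_inj one_pos one_pos h).2)
  have h1 : tang 1 (par (t a)) ∈ A := (hT _).2 ⟨a, ha, rfl⟩
  have h2 : tang 1 (par (t b)) ∈ A := (hT _).2 ⟨b, hb, rfl⟩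
  have h1' : tang 1 (par (t a')) ∈ A := (hT _).2 ⟨a', ha', rfl⟩
  have h2' : tang 1 (par (t b')) ∈ A := (hT _).2 ⟨b', hb', rfl⟩
  have hw0 : vv (t a) (t b) ≠ 0 := vv_ne_zero _ _
  have hw1 : vv (t a) (t b) ∈ tang 1 (par (t a)) := vv_mem_tang.2 (Or.inl rfl)
  have hu11 : vv (t a) (t b') ∈ tang 1 (par (t a)) := vv_mem_tang.2 (Or.inl rfl)
  have hu21 : vv (t a') (t b) ∉ tang 1 (par (t a)) := fun h => by
    rcases vv_mem_tang.1 h with h | h
    · exact tinj a' a ha' ha naa'.symm h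
    · exact tinj b a hb ha nab.symm h
  have hw2 : vv (t a) (t b) ∈ tang 1 (par (t b)) := vv_mem_tang.2 (Or.inr rfl)
  have hu22 : vv (t a') (t b) ∈ tang 1 (par (t b)) := vv_mem_tang.2 (Or.inr rfl)
  have hu12 : vv (t a) (t b') ∉ tang 1 (par (t b)) := fun h => by
    rcases vv_mem_tang.1 h with h | h
    · exact tinj a b ha hb nab h
    · exact tinj b' b hb' hb nbb'.symm h
  set w0 := vv (t a) (t b) with hw0d
  set u1 := vv (t a) (t b') with hu1d
  set u2 := vv (t a') (t b) with hu2d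
  obtain ⟨g, hgdef⟩ : ∃ g : Submodule ℝ (ℂ × ℝ) → ((ℂ × ℝ) →ₗ[ℝ] ℝ), ∀ H,
      g H = if 0 < fn H w0 ∨ (fn H w0 = 0 ∧ 0 < fn H u1) then fn H else -fn H :=
    ⟨_, fun _ => rfl⟩
  have gor : ∀ H, g H = fn H ∨ g H = -fn H := by
    intro H
    rw [hgdef]
    split_ifs
    · exact Or.inl rfl
    · exact Or.inr rfl
  have gker : ∀ H ∈ A, LinearMap.ker (g H) = H := by
    intro H hH
    rcases gor H with h | h
    · rw [h, hk H hH]
    · rw [h]
      conv_rhs => rw [← hk H hH]
      ext x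
      rw [LinearMap.mem_ker, LinearMap.mem_ker, LinearMap.neg_apply, neg_eq_zero]
  have gmul : ∀ H x y, g H x * g H y = fn H x * fn H y := by
    intro H x y
    rcases gor H with h | h
    · rw [h]
    · rw [h, LinearMap.neg_apply, LinearMap.neg_apply, neg_mul_neg]
  have gzero : ∀ H x, fn H x = 0 → g H x = 0 := by
    intro H x hx
    rcases gor H with h | h
    · rw [h, hx]
    · rw [h, LinearMap.neg_apply, hx, neg_zero]
  have hg : ∀ H ∈ A, H ≠ tang 1 (par (t a)) → H ≠ tang 1 (par (t b)) →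
      LinearMap.ker (g H) = H ∧
        (0 < g H w0 ∨ (g H w0 = 0 ∧ 0 < g H u1 ∧ 0 < g H u2)) := by
    intro H hH n1 n2
    refine ⟨gker H hH, ?_⟩
    by_cases h0 : fn H w0 = 0
    · right
      have hoth : H ∈ oth A := by
        refine mem_oth H hH fun w hw => ?_
        obtain ⟨c, hc, hc1, κ, hκ, hκ2⟩ := htw w (hw ▸ hH)
        rw [hw, hw0d, hκ2] at h0
        rcases mul_eq_zero.1 (mul_eq_zero.1 h0 |>.resolve_left hκ) with h3 | h3
        · have : a = c := by
            by_contra hne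
            exact tinj a c ha hc hne (sub_eq_zero.1 h3)
          subst this
          exact n1 (hw.trans hc1)
        · have : b = c := by
            by_contra hne
            exact tinj b c hb hc hne (sub_eq_zero.1 h3)
          subst this
          exact n2 (hw.trans hc1)
      have m0 : w0 ∈ H := by
        rw [← hk H hH]
        exact h0
      have z1 : fn H u1 ≠ 0 := by
        intro h3
        have m1 : u1 ∈ H := by
          rw [← hk H hH]
          exact h3
        exact n1 (plane_eq (hA H hH) (hA _ h1) hw0 m0 m1 hw1 hu11 hw2 hu12)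
      have z2 : fn H u2 ≠ 0 := by
        intro h3
        have m1 : u2 ∈ H := by
          rw [← hk H hH]
          exact h3
        exact n2 (plane_eq (hA H hH) (hA _ h2) hw0 m0 m1 hw2 hu22 hw1 hu21)
      have z3 : 0 ≤ fn H u1 * fn H u2 := by
        by_contra h3
        exact hns H hoth (Or.inl ⟨h0, not_le.1 h3⟩)
      have z4 : 0 < g H u1 * g H u2 := by
        rw [gmul]
        exact lt_of_le_of_ne z3 (Ne.symm (mul_ne_zero z1 z2))
      have z5 : 0 < g H u1 := by
        rw [hgdef]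
        split_ifs with h3
        · rcases h3 with h3 | h3
          · exact absurd h0 h3.ne'
          · exact h3.2
        · rw [LinearMap.neg_apply, neg_pos]
          push Not at h3
          exact lt_of_le_of_ne (h3.2 h0) z1
      exact ⟨gzero H w0 h0, z5, (pos_iff_pos_of_mul_pos z4).1 z5⟩
    · left
      rw [hgdef]
      split_ifs with h3
      · rcases h3 with h3 | h3
        · exact h3
        · exact absurd h3.1 h0
      · rw [LinearMap.neg_apply, neg_pos]
        push Not at h3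
        exact lt_of_le_of_ne h3.1 h0
  have e1 : ∃ H ∈ A, H ≠ tang 1 (par (t a)) ∧ H ≠ tang 1 (par (t b)) ∧ g H u1 ≤ 0 := by
    refine ⟨_, h2', tne b' a hb' ha nab'.symm, tne b' b hb' hb nbb'.symm, le_of_eq ?_⟩
    refine gzero _ _ ?_
    have h3 : u1 ∈ LinearMap.ker (fn (tang 1 (par (t b')))) := by
      rw [hk _ h2']
      exact vv_mem_tang.2 (Or.inr rfl)
    exact h3
  have e2 : ∃ H ∈ A, H ≠ tang 1 (par (t a)) ∧ H ≠ tang 1 (par (t b)) ∧ g H u2 ≤ 0 := by
    refine ⟨_, h1', tne a' a ha' ha naa'.symm, tne a' b ha' hb na'b, le_of_eq ?_⟩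
    refine gzero _ _ ?_
    have h3 : u2 ∈ LinearMap.ker (fn (tang 1 (par (t a')))) := by
      rw [hk _ h1']
      exact vv_mem_tang.2 (Or.inl rfl)
    exact h3
  obtain ⟨H, hH, n1, n2, p0, p1, p2⟩ := four_walls hA hS h1 h2 hw0 hw1 hu11 hu21 hw2 hu22 hu12
    g hg e1 e2
  have q1 : fn H w0 * fn H u1 ≤ 0 := by
    rw [← gmul]
    exact mul_nonpos_of_nonneg_of_nonpos p0.le p1
  have q2 : fn H w0 * fn H u2 ≤ 0 := by
    rw [← gmul]
    exact mul_nonpos_of_nonneg_of_nonpos p0.le p2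
  have q0 : fn H w0 ≠ 0 := fun h => p0.ne' (gzero H w0 h)
  by_cases ho : ∀ w : Circle, H ≠ tang 1 w
  · exact hns H (mem_oth H hH ho) (Or.inr ⟨q0, q1, q2⟩)
  · push Not at ho
    obtain ⟨w, hw⟩ := ho
    obtain ⟨c, hc, hc1, κ, hκ, hκ2⟩ := htw w (hw ▸ hH)
    have ca : c ≠ a := by
      rintro rfl
      exact n1 (hw.trans hc1)
    have cb : c ≠ b := by
      rintro rfl
      exact n2 (hw.trans hc1)
    have ta : 0 < (t a - t c) ^ 2 := by
      have := sub_ne_zero.2 (tinj a c ha hc ca.symm)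
      positivity
    have tb : 0 < (t b - t c) ^ 2 := by
      have := sub_ne_zero.2 (tinj b c hb hc cb.symm)
      positivity
    have kk : 0 < κ ^ 2 := by positivity
    rw [hw, hw0d, hu1d, hκ2, hκ2] at q1
    rw [hw, hw0d, hu2d, hκ2, hκ2] at q2
    have cb' : c = b' := by
      by_contra hne
      have h3 := mul_pos (mul_pos kk ta) (side_pos ht hb hb' hc f2 cb hne)
      nlinarith
    have ca' : c = a' := by
      by_contra hne
      have h3 := mul_pos (mul_pos kk tb) (side_pos ht ha ha' hc f1 ca hne)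
      nlinarith
    exact na'b' (ca'.symm.trans cb')

end Pool.Agent.SimplC
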